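import Mathlib

set_option autoImplicit false

namespace Pool.Agent.W512.Harb

open MvPolynomial

noncomputable section

/-- The ring of bihomogeneous coordinates of the product of two projective lines: the first line has
coordinates `X 0, X 1`, the second one `X 2, X 3`. -/
abbrev S := MvPolynomial (Fin 4) ℂ

/-- the ideal of the point `(x, y)` -/
def I (x y : ℂ) : Ideal S := Ideal.span {X 0 - C x * X 1, X 2 - C y * X 3}

/-- the chart of the blow-up -/
def ps (x y : ℂ) : S →ₐ[ℂ] Polynomial S :=
  aeval ![Polynomial.C (C x * X 1) + Polynomial.X * Polynomial.C (X 0 - C x * X 1),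
    Polynomial.C (X 1),
    Polynomial.C (C y * X 3) + Polynomial.X * Polynomial.C (X 2 - C y * X 3),
    Polynomial.C (X 3)]

/-- scaling -/
def hs (i j : ℕ) : S →ₐ[ℂ] Polynomial S :=
  aeval ![Polynomial.X ^ i * Polynomial.C (X 0), Polynomial.X ^ i * Polynomial.C (X 1),
    Polynomial.X ^ j * Polynomial.C (X 2), Polynomial.X ^ j * Polynomial.C (X 3)]

/-- bihomogeneous of bidegree `(A, B)` -/
def BiHom (A B : ℕ) (F : S) : Prop :=
  ∀ i j : ℕ, hs i j F = Polynomial.X ^ (i * A + j * B) * Polynomial.C F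

lemma ps_eval (x y : ℂ) (F : S) : Polynomial.eval 1 (ps x y F) = F := by
  have : (Polynomial.evalRingHom (1 : S)).comp (ps x y : S →+* Polynomial S) = RingHom.id S := by
    apply MvPolynomial.ringHom_ext
    · intro r
      simp [ps]
    · intro i
      fin_cases i <;> simp [ps]
  exact congrArg (fun f => f F) this

lemma hs_eval (i j : ℕ) (F : S) : Polynomial.eval 1 (hs i j F) = F := by
  have : (Polynomial.evalRingHom (1 : S)).comp (hs i j : S →+* Polynomial S) = RingHom.id S := by
    apply MvPolynomial.ringHom_ext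
    · intro r
      simp [hs]
    · intro i
      fin_cases i <;> simp [hs]
  exact congrArg (fun f => f F) this

/-- a homomorphism that maps the variables into a subalgebra maps everything into it -/
lemma aeval_mem_sub {J : Ideal S} (g : S →ₐ[ℂ] Polynomial S) (h : ∀ i, g (X i) ∈ reesAlgebra J) (F : S) :
    g F ∈ reesAlgebra J := by
  induction F using MvPolynomial.induction_on with
  | C a =>
    have h1 : g (C a) = algebraMap S (Polynomial S) (C a) := by
      exact g.commutes a
    rw [h1]
    exact (reesAlgebra J).algebraMap_mem _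
  | add p q hp hq => rw [map_add]; exact add_mem hp hq
  | mul_X p i hp => rw [map_mul]; exact mul_mem hp (h i)

lemma C_mem_rees {J : Ideal S} (a : S) : Polynomial.C a ∈ reesAlgebra J :=
  (reesAlgebra J).algebraMap_mem a

lemma XC_mem_rees {J : Ideal S} (a : S) (ha : a ∈ J) : Polynomial.X * Polynomial.C a ∈ reesAlgebra J := by
  rw [mul_comm, ← pow_one (Polynomial.X : Polynomial S), Polynomial.C_mul_X_pow_eq_monomial]
  exact reesAlgebra.monomial_mem.2 (by simpa using ha)

lemma ps_mem (x y : ℂ) (F : S) : ps x y F ∈ reesAlgebra (I x y) := by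
  apply aeval_mem_sub
  intro i
  have h1 : (X 0 - C x * X 1 : S) ∈ I x y := Ideal.subset_span (by simp)
  have h2 : (X 2 - C y * X 3 : S) ∈ I x y := Ideal.subset_span (by simp)
  fin_cases i
  · simp only [ps, aeval_X]
    exact add_mem (C_mem_rees _) (XC_mem_rees _ h1)
  · simp only [ps, aeval_X]
    exact C_mem_rees _
  · simp only [ps, aeval_X]
    exact add_mem (C_mem_rees _) (XC_mem_rees _ h2)
  · simp only [ps, aeval_X]
    exact C_mem_rees _

lemma eval_one_mem {J : Ideal S} {n : ℕ} {f : Polynomial S} (hf : f ∈ reesAlgebra J)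
    (h : (Polynomial.X : Polynomial S) ^ n ∣ f) : Polynomial.eval 1 f ∈ J ^ n := by
  rw [Polynomial.eval_eq_sum, Polynomial.sum]
  apply Ideal.sum_mem
  intro k _
  rw [one_pow, mul_one]
  by_cases hk : k < n
  · rw [Polynomial.X_pow_dvd_iff.1 h k hk]
    exact zero_mem _
  · push Not at hk
    exact Ideal.pow_le_pow_right hk ((mem_reesAlgebra_iff _ _).1 hf k)

/-- membership in the power of the ideal of a point -/
lemma mem_I_pow_iff (x y : ℂ) (n : ℕ) (F : S) :
    F ∈ I x y ^ n ↔ (Polynomial.X : Polynomial S) ^ n ∣ ps x y F := by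
  constructor
  · intro h
    have h1 : (I x y).map (ps x y : S →+* Polynomial S) ≤ Ideal.span {Polynomial.X} := by
      rw [I, Ideal.map_span, Ideal.span_le]
      rintro _ ⟨g, hg, rfl⟩
      simp only [Set.mem_insert_iff, Set.mem_singleton_iff] at hg
      rw [SetLike.mem_coe, Ideal.mem_span_singleton]
      rcases hg with rfl | rfl
      · refine ⟨Polynomial.C (X 0 - C x * X 1), ?_⟩
        simp [ps]
      · refine ⟨Polynomial.C (X 2 - C y * X 3), ?_⟩
        simp [ps]
    have h2 : ps x y F ∈ (Ideal.span {(Polynomial.X : Polynomial S)}) ^ n := by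
      have h3 := Ideal.mem_map_of_mem (ps x y : S →+* Polynomial S) h
      rw [Ideal.map_pow] at h3
      exact Ideal.pow_right_mono h1 n h3
    rwa [Ideal.span_singleton_pow, Ideal.mem_span_singleton] at h2
  · intro h
    have := eval_one_mem (ps_mem x y F) h
    rwa [ps_eval] at this

/-- evaluation at the point `(x, y)` -/
lemma eval_of_mem (x y : ℂ) {F : S} (h : F ∈ I x y) : MvPolynomial.eval ![x, 1, y, 1] F = 0 := by
  have : I x y ≤ RingHom.ker (MvPolynomial.eval ![x, 1, y, 1]) := by
    rw [I, Ideal.span_le]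
    intro g hg
    simp only [Set.mem_insert_iff, Set.mem_singleton_iff] at hg
    rw [SetLike.mem_coe, RingHom.mem_ker]
    rcases hg with rfl | rfl <;> simp
  exact (RingHom.mem_ker).1 (this h)

lemma not_dvd_of_eval (x y : ℂ) {F : S} (h : MvPolynomial.eval ![x, 1, y, 1] F ≠ 0) :
    ¬ (Polynomial.X : Polynomial S) ∣ ps x y F := by
  intro hd
  apply h
  apply eval_of_mem
  have := (mem_I_pow_iff x y 1 F).2 (by simpa using hd)
  simpa using this

lemma cancel_unit (x y : ℂ) {n : ℕ} {G F : S} (hG : MvPolynomial.eval ![x, 1, y, 1] G ≠ 0)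
    (h : G * F ∈ I x y ^ n) : F ∈ I x y ^ n := by
  rw [mem_I_pow_iff] at h ⊢
  rw [map_mul] at h
  exact Polynomial.prime_X.pow_dvd_of_dvd_mul_left n (not_dvd_of_eval x y hG) h

lemma not_dvd_C {a : S} (ha : a ≠ 0) : ¬ (Polynomial.X : Polynomial S) ∣ Polynomial.C a := by
  rw [Polynomial.X_dvd_iff]
  simpa using ha

lemma lin_ne_zero (v : ℂ) : (X 2 - C v * X 3 : S) ≠ 0 := by
  intro h
  have := congrArg (MvPolynomial.eval ![0, 0, 1, 0]) h
  simp at this

lemma cancel_lin (x y : ℂ) {n u : ℕ} {F : S} (h : (X 2 - C y * X 3) ^ u * F ∈ I x y ^ (n + u)) :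
    F ∈ I x y ^ n := by
  rw [mem_I_pow_iff] at h ⊢
  have h1 : ps x y ((X 2 - C y * X 3) ^ u * F) =
      Polynomial.X ^ u * (Polynomial.C ((X 2 - C y * X 3) ^ u) * ps x y F) := by
    simp only [map_mul, map_pow, map_sub]
    simp only [ps, aeval_X]
    simp [mul_pow]
    ring
  rw [h1, add_comm, pow_add] at h
  have h2 := (mul_dvd_mul_iff_left (pow_ne_zero u Polynomial.X_ne_zero)).1 h
  exact Polynomial.prime_X.pow_dvd_of_dvd_mul_left n (not_dvd_C (pow_ne_zero _ (lin_ne_zero y))) h2

/-- a form of degree `A` in the first two variables lies in the `A`-th power of their ideal -/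
lemma BiHom.mem_span {A B : ℕ} {F : S} (h : BiHom A B F) :
    F ∈ (Ideal.span {(X 0 : S), X 1}) ^ A := by
  have h0 : hs 1 0 F ∈ reesAlgebra (Ideal.span {(X 0 : S), X 1}) := by
    apply aeval_mem_sub
    intro i
    have h1 : (X 0 : S) ∈ Ideal.span {(X 0 : S), X 1} := Ideal.subset_span (by simp)
    have h2 : (X 1 : S) ∈ Ideal.span {(X 0 : S), X 1} := Ideal.subset_span (by simp)
    fin_cases i
    · simp only [hs, aeval_X]
      simpa using XC_mem_rees _ h1
    · simp only [hs, aeval_X]
      simpa using XC_mem_rees _ h2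
    · simp only [hs, aeval_X]
      simpa using C_mem_rees (J := Ideal.span {(X 0 : S), X 1}) (X 2)
    · simp only [hs, aeval_X]
      simpa using C_mem_rees (J := Ideal.span {(X 0 : S), X 1}) (X 3)
  have h1 := (mem_reesAlgebra_iff _ _).1 h0 A
  rw [h 1 0] at h1
  have h2 : (1 * A + 0 * B) = A := by ring
  rw [h2, Polynomial.coeff_X_pow_mul'] at h1
  simpa using h1

lemma BiHom.mul {A B A' B' : ℕ} {F G : S} (hF : BiHom A B F) (hG : BiHom A' B' G) :
    BiHom (A + A') (B + B') (F * G) := by
  intro i j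
  rw [map_mul, hF i j, hG i j, Polynomial.C_mul]
  ring

lemma BiHom.pow {A B : ℕ} {F : S} (hF : BiHom A B F) (n : ℕ) : BiHom (n * A) (n * B) (F ^ n) := by
  intro i j
  rw [map_pow, hF i j, Polynomial.C_pow]
  ring

lemma BiHom.C_mul {A B : ℕ} {F : S} (hF : BiHom A B F) (t : ℂ) : BiHom A B (C t * F) := by
  intro i j
  rw [map_mul, hF i j, Polynomial.C_mul]
  have : hs i j (C t) = Polynomial.C (C t) := by simp [hs]
  rw [this]
  ring

lemma BiHom.of_mul {A B A' B' : ℕ} {F G : S} (hF : BiHom A B F) (hF0 : F ≠ 0)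
    (h : BiHom (A + A') (B + B') (F * G)) : BiHom A' B' G := by
  intro i j
  have h1 := h i j
  rw [map_mul, hF i j, Polynomial.C_mul] at h1
  have h2 : (Polynomial.X ^ (i * A + j * B) * Polynomial.C F : Polynomial S) ≠ 0 :=
    mul_ne_zero (pow_ne_zero _ Polynomial.X_ne_zero) (by simpa using hF0)
  apply mul_left_cancel₀ h2
  rw [h1]
  ring

/-- a factor of a bihomogeneous polynomial is homogeneous in the first two variables -/
lemma factor_hom {A B : ℕ} {G H : S} (h : BiHom A B (G * H)) (h0 : G * H ≠ 0) :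
    ∃ a : ℕ, hs 1 0 G = Polynomial.X ^ a * Polynomial.C G := by
  have h1 := h 1 0
  rw [map_mul] at h1
  set p := hs 1 0 G with hp
  set q := hs 1 0 H with hq
  have hpq : p * q ≠ 0 := by
    rw [h1]
    exact mul_ne_zero (pow_ne_zero _ Polynomial.X_ne_zero) (by simpa using h0)
  have hp0 : p ≠ 0 := left_ne_zero_of_mul hpq
  have hq0 : q ≠ 0 := right_ne_zero_of_mul hpq
  have e1 : (p * q).natDegree = 1 * A + 0 * B := by
    rw [h1, mul_comm, Polynomial.natDegree_C_mul (by simpa using h0), Polynomial.natDegree_X_pow]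
  have e2 : (p * q).natTrailingDegree = 1 * A + 0 * B := by
    rw [h1, Polynomial.natTrailingDegree_mul (pow_ne_zero _ Polynomial.X_ne_zero)
      (Polynomial.C_ne_zero.2 h0), Polynomial.natTrailingDegree_C, Polynomial.natTrailingDegree_X_pow,
      add_zero]
  rw [Polynomial.natDegree_mul hp0 hq0] at e1
  rw [Polynomial.natTrailingDegree_mul hp0 hq0] at e2
  have l1 := Polynomial.natTrailingDegree_le_natDegree p
  have l2 := Polynomial.natTrailingDegree_le_natDegree q
  have e3 : p.natTrailingDegree = p.natDegree := by omega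
  refine ⟨p.natDegree, ?_⟩
  have h3 : p = Polynomial.C (p.coeff p.natDegree) * Polynomial.X ^ p.natDegree := by
    ext1 k
    rw [Polynomial.coeff_C_mul_X_pow]
    by_cases hk : k = p.natDegree
    · simp [hk]
    · rw [if_neg hk]
      rcases lt_or_gt_of_ne hk with hk | hk
      · exact Polynomial.coeff_eq_zero_of_lt_natTrailingDegree (by omega)
      · exact Polynomial.coeff_eq_zero_of_natDegree_lt hk
  have h4 : p.coeff p.natDegree = G := by
    have := hs_eval 1 0 G
    rw [← hp, h3] at this
    simpa using this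
  rw [h4] at h3
  rw [mul_comm]
  exact h3

end

end Pool.Agent.W512.Harb
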