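import Mathlib
import Pool.Agent.W512.HA

set_option autoImplicit false

namespace Pool.Agent.W512.Harb

open MvPolynomial

noncomputable section

def ev : Fin 4 → ℂ := ![1/5, -1/5, 7/5, -7/5]
def ex : Fin 4 → ℂ := ![1, 1, -1, -1]
def pi' : Fin 4 → Fin 4 := ![1, 0, 3, 2]

/-- the linear forms -/
def L (i : Fin 4) : S := X 2 - C (ev i) * X 3

/-- the involution -/
def Phi : S →ₐ[ℂ] S :=
  aeval ![-(C (24/25) * X 3 ^ 2 * X 0 + (X 2 ^ 2 - X 3 ^ 2) * X 1),
    (X 2 ^ 2 - X 3 ^ 2) * X 0 + C (24/25) * X 3 ^ 2 * X 1, X 2, X 3]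

lemma Phi_0 : Phi (X 0) = -(C (24/25) * X 3 ^ 2 * X 0 + (X 2 ^ 2 - X 3 ^ 2) * X 1) := by
  simp [Phi]
lemma Phi_1 : Phi (X 1) = (X 2 ^ 2 - X 3 ^ 2) * X 0 + C (24/25) * X 3 ^ 2 * X 1 := by
  simp [Phi]
lemma Phi_2 : Phi (X 2) = X 2 := by simp [Phi]
lemma Phi_3 : Phi (X 3) = X 3 := by simp [Phi]
lemma Phi_C (t : ℂ) : Phi (C t) = C t := by
  exact Phi.commutes t

lemma Phi_L (i : Fin 4) : Phi (L i) = L i := by
  simp [L, Phi_2, Phi_3]

lemma L01 : L 0 * L 1 = X 2 ^ 2 - C (1/25) * X 3 ^ 2 := by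
  have h : (C (1/25) : S) = C (1/5) * C (1/5) := by rw [← C_mul]; norm_num
  have h2 : (C (-1/5) : S) = - C (1/5) := by rw [← C_neg]; norm_num
  simp only [L, ev, Matrix.cons_val_zero, Matrix.cons_val_one]
  rw [h, h2]
  ring

lemma L23 : L 2 * L 3 = X 2 ^ 2 - C (49/25) * X 3 ^ 2 := by
  have h : (C (49/25) : S) = C (7/5) * C (7/5) := by rw [← C_mul]; norm_num
  have h2 : (C (-7/5) : S) = - C (7/5) := by rw [← C_neg]; norm_num
  simp only [L, ev, Matrix.cons_val]
  rw [h, h2]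
  ring

lemma Phi_sub : Phi (X 0 - X 1) = -(L 0 * L 1) * (X 0 + X 1) := by
  rw [map_sub, Phi_0, Phi_1, L01]
  have h : (C (1/25) : S) = 1 - C (24/25) := by rw [← C_1, ← C_sub]; norm_num
  rw [h]
  ring

lemma Phi_add : Phi (X 0 + X 1) = (L 2 * L 3) * (X 0 - X 1) := by
  rw [map_add, Phi_0, Phi_1, L23]
  have h : (C (49/25) : S) = 1 + C (24/25) := by rw [← C_1, ← C_add]; norm_num
  rw [h]
  ring

def NM : S := L 0 * L 1 * (L 2 * L 3)

lemma prodL (f : Fin 4 → ℕ) : ∏ i, L i ^ f i = L 0 ^ f 0 * L 1 ^ f 1 * L 2 ^ f 2 * L 3 ^ f 3 := by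
  rw [Fin.prod_univ_four]

lemma Phi_Phi_sub : Phi (Phi (X 0 - X 1)) = -NM * (X 0 - X 1) := by
  have h1 : Phi (-(L 0 * L 1) * (X 0 + X 1)) = -(L 0 * L 1) * Phi (X 0 + X 1) := by
    rw [map_mul, map_neg, map_mul, Phi_L, Phi_L]
  rw [Phi_sub, h1, Phi_add, NM]
  ring

lemma Phi_Phi_add : Phi (Phi (X 0 + X 1)) = -NM * (X 0 + X 1) := by
  have h1 : Phi ((L 2 * L 3) * (X 0 - X 1)) = (L 2 * L 3) * Phi (X 0 - X 1) := by
    rw [map_mul, map_mul, Phi_L, Phi_L]
  rw [Phi_add, h1, Phi_sub, NM]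
  ring

lemma two_half : (C (1/2) : S) * 2 = 1 := by
  rw [show (2 : S) = C 2 from (map_ofNat C 2).symm, ← C_mul]; norm_num

lemma Phi_Phi_0 : Phi (Phi (X 0)) = -NM * X 0 := by
  have h1 := Phi_Phi_sub
  have h2 := Phi_Phi_add
  rw [map_sub, map_sub] at h1
  rw [map_add, map_add] at h2
  linear_combination C (1/2) * (h1 + h2) + (-(Phi (Phi (X 0))) - NM * X 0) * two_half

lemma Phi_Phi_1 : Phi (Phi (X 1)) = -NM * X 1 := by
  have h1 := Phi_Phi_sub
  have h2 := Phi_Phi_add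
  rw [map_sub, map_sub] at h1
  rw [map_add, map_add] at h2
  linear_combination C (1/2) * (h2 - h1) + (-(Phi (Phi (X 1))) - NM * X 1) * two_half

/-- the square of the involution -/
lemma Phi_Phi (F : S) : Phi (Phi F) = Polynomial.eval (-NM) (hs 1 0 F) := by
  have : (Phi : S →+* S).comp (Phi : S →+* S) =
      (Polynomial.evalRingHom (-NM)).comp (hs 1 0 : S →+* Polynomial S) := by
    apply MvPolynomial.ringHom_ext
    · intro r
      simp [hs]
    · intro i
      fin_cases i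
      · have h := Phi_Phi_0
        simp only [Fin.zero_eta, RingHom.comp_apply, RingHom.coe_coe, h]
        simp [hs]
        ring
      · have h := Phi_Phi_1
        simp only [Fin.mk_one, RingHom.comp_apply, RingHom.coe_coe, h]
        simp [hs]
        ring
      · simp [hs, Phi_2]
      · simp [hs, Phi_3]
  exact congrArg (fun f => f F) this

lemma Phi_Phi_of {a : ℕ} {F : S} (h : hs 1 0 F = Polynomial.X ^ a * Polynomial.C F) :
    Phi (Phi F) = (-NM) ^ a * F := by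
  rw [Phi_Phi, h, Polynomial.eval_mul, Polynomial.eval_pow, Polynomial.eval_X, Polynomial.eval_C]

lemma BiHom.Phi_Phi {A B : ℕ} {F : S} (h : BiHom A B F) : Phi (Phi F) = (-NM) ^ A * F := by
  apply Phi_Phi_of
  have := h 1 0
  simpa using this

lemma BiHom.Phi {A B : ℕ} {F : S} (h : BiHom A B F) : BiHom A (B + 2 * A) (Phi F) := by
  intro i j
  have key : (hs i j : S →+* Polynomial S).comp (Harb.Phi : S →+* S) =
      (Polynomial.mapRingHom (Harb.Phi : S →+* S)).comp (hs (i + 2 * j) j : S →+* Polynomial S) := by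
    apply MvPolynomial.ringHom_ext
    · intro r
      simp [hs]
    · intro k
      fin_cases k
      · simp [hs, Phi_0]
        ring
      · simp [hs, Phi_1]
        ring
      · simp [hs, Phi_2]
      · simp [hs, Phi_3]
  have h1 := congrArg (fun f => f F) key
  simp only [RingHom.comp_apply, RingHom.coe_coe, Polynomial.coe_mapRingHom] at h1
  rw [h1, h (i + 2 * j) j]
  simp only [Polynomial.map_mul, Polynomial.map_pow, Polynomial.map_X, Polynomial.map_C,
    RingHom.coe_coe]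
  ring

lemma BiHom_L (i : Fin 4) : BiHom 0 1 (L i) := by
  intro k l
  simp [L, hs]
  ring

end

end Pool.Agent.W512.Harb
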