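import Mathlib
import Pool.Agent.W512.HB

set_option autoImplicit false

namespace Pool.Agent.W512.Harb

open MvPolynomial

noncomputable section

lemma L_totalDegree (i : Fin 4) : (L i).totalDegree = 1 := by
  apply le_antisymm
  · unfold L
    refine (totalDegree_sub _ _).trans (max_le (by simp) ?_)
    refine (totalDegree_mul _ _).trans ?_
    simp
  · by_contra h
    have h0 : (L i).totalDegree = 0 := by omega
    rw [totalDegree_eq_zero_iff_eq_C] at h0
    have h1 := congrArg (MvPolynomial.eval ![0, 0, 0, 0]) h0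
    have h2 := congrArg (MvPolynomial.eval ![0, 0, 1, 0]) h0
    simp [L] at h1 h2

lemma eval_L (i : Fin 4) (x : ℂ) (y : ℂ) : MvPolynomial.eval ![x, 1, y, 1] (L i) = y - ev i := by
  simp [L]

lemma ev_inj {i j : Fin 4} (h : i ≠ j) : ev i ≠ ev j := by
  fin_cases i <;> fin_cases j <;> simp_all [ev] <;> norm_num

lemma ev_ne_ex (i j : Fin 4) : ex j ≠ ev i := by
  fin_cases i <;> fin_cases j <;> simp [ev, ex] <;> norm_num

lemma L_irr (i : Fin 4) : Irreducible (L i) := by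
  apply irreducible_of_totalDegree_eq_one (L_totalDegree i)
  intro x hx
  have h1 := hx (Finsupp.single 2 1)
  have h2 : coeff (Finsupp.single 2 1) (L i) = 1 := by
    simp [L, coeff_X, MvPolynomial.coeff_C_mul, Finsupp.single_left_inj]
  rw [h2] at h1
  exact isUnit_of_dvd_one h1

lemma L_prime (i : Fin 4) : Prime (L i) := (L_irr i).prime

lemma L_ne_zero (i : Fin 4) : L i ≠ 0 := (L_prime i).ne_zero

lemma L_not_dvd {i j : Fin 4} (h : i ≠ j) : ¬ L i ∣ L j := by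
  rintro ⟨g, hg⟩
  have h1 := congrArg (MvPolynomial.eval ![0, 1, ev i, 1]) hg
  rw [map_mul, eval_L, eval_L, sub_self, zero_mul] at h1
  exact ev_inj h (sub_eq_zero.1 h1)

lemma L_relPrime {i j : Fin 4} (h : i ≠ j) : IsRelPrime (L i) (L j) :=
  (L_irr i).isRelPrime_iff_not_dvd.2 (L_not_dvd h)

lemma ex_pi (i : Fin 4) : ex (pi' i) = ex i := by
  fin_cases i <;> simp [ex, pi']

lemma ev_pi (i : Fin 4) : ev (pi' i) = - ev i := by
  fin_cases i <;> simp [ev, pi'] <;> norm_num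

lemma pi_pi (i : Fin 4) : pi' (pi' i) = i := by
  fin_cases i <;> simp [pi']

lemma gen1 (x y : ℂ) : (X 0 - C x * X 1 : S) ∈ I x y := Ideal.subset_span (by simp)
lemma gen2 (x y : ℂ) : (X 2 - C y * X 3 : S) ∈ I x y := Ideal.subset_span (by simp)

lemma Phi_I_E (i : Fin 4) : (I (ex i) (ev i)).map (Phi : S →+* S) ≤ Ideal.span {L i} := by
  rw [I, Ideal.map_span, Ideal.span_le]
  rintro _ ⟨g, hg, rfl⟩
  simp only [Set.mem_insert_iff, Set.mem_singleton_iff] at hg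
  rw [SetLike.mem_coe, Ideal.mem_span_singleton]
  rcases hg with rfl | rfl
  · have h : ex i = 1 ∧ (L i ∣ L 0 * L 1) ∨ ex i = -1 ∧ (L i ∣ L 2 * L 3) := by
      fin_cases i
      · left; simp [ex]
      · left; simp [ex]
      · right; simp [ex]
      · right; simp [ex]
    rcases h with ⟨h, hd⟩ | ⟨h, hd⟩
    · rw [h, C_1, one_mul, RingHom.coe_coe, Phi_sub]
      exact (dvd_neg.2 hd).mul_right _
    · rw [h, C_neg, C_1, neg_one_mul, sub_neg_eq_add, RingHom.coe_coe, Phi_add]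
      exact hd.mul_right _
  · rw [RingHom.coe_coe]
    change L i ∣ Phi (L i)
    rw [Phi_L]

lemma dvd_of_mem_E {i : Fin 4} {n : ℕ} {G : S} (h : G ∈ I (ex i) (ev i) ^ n) : L i ^ n ∣ Phi G := by
  have h3 := Ideal.mem_map_of_mem (Phi : S →+* S) h
  rw [Ideal.map_pow] at h3
  have h4 := Ideal.pow_right_mono (Phi_I_E i) n h3
  rwa [Ideal.span_singleton_pow, Ideal.mem_span_singleton] at h4

lemma Phi_01_mem (i : Fin 4) : Phi (X 0) ∈ I (ex i) (ev i) ∧ Phi (X 1) ∈ I (ex i) (ev i) := by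
  have hL : L i ∈ I (ex i) (ev i) := gen2 _ _
  have h : Phi (X 0 - X 1) ∈ I (ex i) (ev i) ∧ Phi (X 0 + X 1) ∈ I (ex i) (ev i) := by
    have h : ex i = 1 ∧ (L i ∣ L 0 * L 1) ∨ ex i = -1 ∧ (L i ∣ L 2 * L 3) := by
      fin_cases i
      · left; simp [ex]
      · left; simp [ex]
      · right; simp [ex]
      · right; simp [ex]
    have g1 := gen1 (ex i) (ev i)
    rcases h with ⟨h, hd⟩ | ⟨h, hd⟩
    · rw [Phi_sub, Phi_add]
      constructor
      · exact Ideal.mul_mem_right _ _ (neg_mem (Ideal.mem_of_dvd _ hd hL))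
      · apply Ideal.mul_mem_left
        rw [h, C_1, one_mul] at g1
        rwa [h]
    · rw [Phi_sub, Phi_add]
      constructor
      · apply Ideal.mul_mem_left
        rw [h, C_neg, C_1, neg_one_mul, sub_neg_eq_add] at g1
        rwa [h]
      · exact Ideal.mul_mem_right _ _ (Ideal.mem_of_dvd _ hd hL)
  have e0 : Phi (X 0) = C (1/2) * (Phi (X 0 - X 1) + Phi (X 0 + X 1)) := by
    rw [map_sub, map_add]
    linear_combination (-(Phi (X 0))) * two_half
  have e1 : Phi (X 1) = C (1/2) * (Phi (X 0 + X 1) - Phi (X 0 - X 1)) := by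
    rw [map_sub, map_add]
    linear_combination (-(Phi (X 1))) * two_half
  rw [e0, e1]
  exact ⟨Ideal.mul_mem_left _ _ (add_mem h.1 h.2), Ideal.mul_mem_left _ _ (sub_mem h.2 h.1)⟩

lemma mem_E_of_hom {A B : ℕ} {G : S} (h : BiHom A B G) (i : Fin 4) :
    Phi G ∈ I (ex i) (ev i) ^ A := by
  have h1 := h.mem_span
  have h3 := Ideal.mem_map_of_mem (Phi : S →+* S) h1
  rw [Ideal.map_pow] at h3
  refine Ideal.pow_right_mono ?_ A h3
  rw [Ideal.map_span, Ideal.span_le]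
  rintro _ ⟨g, hg, rfl⟩
  simp only [Set.mem_insert_iff, Set.mem_singleton_iff] at hg
  rcases hg with rfl | rfl
  · exact (Phi_01_mem i).1
  · exact (Phi_01_mem i).2

lemma Phi_I_D (v e : ℂ) (he : e ^ 2 = 1) : (I v e).map (Phi : S →+* S) ≤ I (-v) e := by
  have hC : (C e : S) ^ 2 = 1 := by rw [← C_pow, he, C_1]
  rw [I, Ideal.map_span, Ideal.span_le]
  rintro _ ⟨g, hg, rfl⟩
  simp only [Set.mem_insert_iff, Set.mem_singleton_iff] at hg
  rw [SetLike.mem_coe]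
  have g1 := gen1 (-v) e
  have g2 := gen2 (-v) e
  rcases hg with rfl | rfl
  · rw [RingHom.coe_coe, map_sub, map_mul, Phi_C, Phi_0, Phi_1]
    have : (-(C (24/25) * X 3 ^ 2 * X 0 + (X 2 ^ 2 - X 3 ^ 2) * X 1) : S) -
        C v * ((X 2 ^ 2 - X 3 ^ 2) * X 0 + C (24/25) * X 3 ^ 2 * X 1) =
        (-(C (24/25) * X 3 ^ 2)) * (X 0 - C (-v) * X 1) +
        (-(X 1 + C v * X 0) * (X 2 + C e * X 3)) * (X 2 - C e * X 3) := by
      rw [C_neg]
      linear_combination (-(X 1 + C v * X 0) * X 3 ^ 2) * hC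
    rw [this]
    exact add_mem (Ideal.mul_mem_left _ _ g1) (Ideal.mul_mem_left _ _ g2)
  · rw [RingHom.coe_coe, map_sub, map_mul, Phi_C, Phi_2, Phi_3]
    exact g2

lemma ex_sq (i : Fin 4) : ex i ^ 2 = 1 := by
  fin_cases i <;> simp [ex]

lemma mem_D {i : Fin 4} {n : ℕ} {G : S} (h : G ∈ I (ev i) (ex i) ^ n) :
    Phi G ∈ I (ev (pi' i)) (ex (pi' i)) ^ n := by
  have h3 := Ideal.mem_map_of_mem (Phi : S →+* S) h
  rw [Ideal.map_pow] at h3
  rw [ev_pi, ex_pi]
  exact Ideal.pow_right_mono (Phi_I_D (ev i) (ex i) (ex_sq i)) n h3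

/-- the product of powers of the linear forms -/
def H (u : Fin 4 → ℕ) : S := ∏ i, L i ^ u i

lemma H_ne_zero (u : Fin 4 → ℕ) : H u ≠ 0 :=
  Finset.prod_ne_zero_iff.2 fun i _ => pow_ne_zero _ (L_ne_zero i)

lemma BiHom_H (u : Fin 4 → ℕ) : BiHom 0 (∑ i, u i) (H u) := by
  unfold H
  rw [prodL, Fin.sum_univ_four]
  have := ((((BiHom_L 0).pow (u 0)).mul ((BiHom_L 1).pow (u 1))).mul ((BiHom_L 2).pow (u 2))).mul
    ((BiHom_L 3).pow (u 3))
  simpa using this

lemma eval_H_D (u : Fin 4 → ℕ) (j : Fin 4) (x : ℂ) :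
    MvPolynomial.eval ![x, 1, ex j, 1] (H u) ≠ 0 := by
  rw [H, map_prod]
  refine Finset.prod_ne_zero_iff.2 fun i _ => ?_
  rw [map_pow, eval_L]
  exact pow_ne_zero _ (sub_ne_zero.2 (ev_ne_ex i j))

lemma H_split (u : Fin 4 → ℕ) (i : Fin 4) :
    H u = (∏ j ∈ Finset.univ.erase i, L j ^ u j) * L i ^ u i := by
  rw [H, Finset.prod_erase_mul _ _ (Finset.mem_univ i)]

lemma eval_rest (u : Fin 4 → ℕ) (i : Fin 4) (x : ℂ) :
    MvPolynomial.eval ![x, 1, ev i, 1] (∏ j ∈ Finset.univ.erase i, L j ^ u j) ≠ 0 := by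
  rw [map_prod]
  refine Finset.prod_ne_zero_iff.2 fun j hj => ?_
  rw [map_pow, eval_L]
  exact pow_ne_zero _ (sub_ne_zero.2 (ev_inj (Finset.ne_of_mem_erase hj).symm))

lemma cancel_H_E {u : Fin 4 → ℕ} {K : S} {n : ℕ} (i : Fin 4)
    (h : H u * K ∈ I (ex i) (ev i) ^ (n + u i)) : K ∈ I (ex i) (ev i) ^ n := by
  rw [H_split u i, mul_assoc] at h
  have h1 := cancel_unit (ex i) (ev i) (eval_rest u i (ex i)) h
  exact cancel_lin (ex i) (ev i) h1

lemma cancel_H_D {u : Fin 4 → ℕ} {K : S} {n : ℕ} (i : Fin 4)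
    (h : H u * K ∈ I (ev i) (ex i) ^ n) : K ∈ I (ev i) (ex i) ^ n :=
  cancel_unit _ _ (eval_H_D u i (ev i)) h

lemma divide {G : S} {A B : ℕ} {u w : Fin 4 → ℕ} (hG : BiHom A B G)
    (hu : ∀ i, G ∈ I (ex i) (ev i) ^ u i) (hw : ∀ i, G ∈ I (ev i) (ex i) ^ w i)
    (hA : ∀ i, u i ≤ A) (hB : ∑ i, u i ≤ B + 2 * A) :
    ∃ K, Phi G = H u * K ∧ BiHom A (B + 2 * A - ∑ i, u i) K ∧
      (∀ i, K ∈ I (ex i) (ev i) ^ (A - u i)) ∧ ∀ i, K ∈ I (ev i) (ex i) ^ w (pi' i) := by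
  have h1 : H u ∣ Phi G := by
    apply Finset.prod_dvd_of_isRelPrime
    · intro i _ j _ hij
      exact (L_relPrime hij).pow
    · intro i _
      exact dvd_of_mem_E (hu i)
  obtain ⟨K, hK⟩ := h1
  refine ⟨K, hK, ?_, ?_, ?_⟩
  · have h2 := hG.Phi
    rw [hK] at h2
    refine (BiHom_H u).of_mul (H_ne_zero u) ?_
    rw [zero_add]
    have : ∑ i, u i + (B + 2 * A - ∑ i, u i) = B + 2 * A := by omega
    rwa [this]
  · intro i
    apply cancel_H_E (u := u) i
    rw [← hK]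
    have : A - u i + u i = A := by have := hA i; omega
    rw [this]
    exact mem_E_of_hom hG i
  · intro i
    apply cancel_H_D (u := u) i
    rw [← hK]
    have h2 := mem_D (hw (pi' i))
    rwa [pi_pi] at h2

end

end Pool.Agent.W512.Harb
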