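import Mathlib
import Pool.Agent.W512.HC

set_option autoImplicit false

namespace Pool.Agent.W512.Harb

open MvPolynomial

noncomputable section

/-- the data carried through the recursion -/
structure Good (F : S) (A B : ℕ) (u w : Fin 4 → ℕ) : Prop where
  prime : Prime F
  hom : BiHom A B F
  multE : ∀ i, F ∈ I (ex i) (ev i) ^ u i
  multD : ∀ i, F ∈ I (ev i) (ex i) ^ w i
  exE : ∀ i, F ∉ I (ex i) (ev i) ^ (u i + 1)
  exD : ∀ i, F ∉ I (ev i) (ex i) ^ (w i + 1)
  uniq : ∀ G, BiHom A B G → (∀ i, G ∈ I (ex i) (ev i) ^ u i) → (∀ i, G ∈ I (ev i) (ex i) ^ w i) →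
    ∃ t : ℂ, G = C t * F

lemma H_mul_H {A : ℕ} {u : Fin 4 → ℕ} (hA : ∀ i, u i ≤ A) :
    H (fun i => A - u i) * H u = NM ^ A := by
  rw [H, H, ← Finset.prod_mul_distrib]
  have : ∀ i, L i ^ (A - u i) * L i ^ u i = L i ^ A := by
    intro i
    rw [← pow_add, Nat.sub_add_cancel (hA i)]
  rw [Finset.prod_congr rfl (fun i _ => this i), Finset.prod_pow, Fin.prod_univ_four, NM]
  ring

lemma H_const (A : ℕ) : H (fun _ => A) = NM ^ A := by
  rw [H, Finset.prod_pow, Fin.prod_univ_four, NM]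
  ring

lemma Phi_H (u : Fin 4 → ℕ) : Phi (H u) = H u := by
  rw [H, map_prod]
  refine Finset.prod_congr rfl fun i _ => ?_
  rw [map_pow, Phi_L]

lemma NM_ne_zero : NM ≠ 0 :=
  mul_ne_zero (mul_ne_zero (L_ne_zero 0) (L_ne_zero 1)) (mul_ne_zero (L_ne_zero 2) (L_ne_zero 3))

lemma not_unit_of_hom {A B : ℕ} {F : S} (hF : BiHom A B F) (hF0 : F ≠ 0) (hA : 0 < A) :
    ¬ IsUnit F := by
  intro hu
  have h1 := hF 1 0
  obtain ⟨t, ht⟩ : ∃ t : ℂ, F = C t := by
    rw [MvPolynomial.isUnit_iff_eq_C_of_isReduced] at hu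
    obtain ⟨r, _, hr⟩ := hu
    exact ⟨r, hr⟩
  have h2 : hs 1 0 F = Polynomial.C F := by
    rw [ht]
    simp [hs]
  rw [h2] at h1
  have h3 := congrArg (Polynomial.eval 0) h1
  simp only [Polynomial.eval_mul, Polynomial.eval_pow, Polynomial.eval_X, Polynomial.eval_C,
    one_mul, zero_mul, add_zero] at h3
  rw [zero_pow hA.ne', zero_mul] at h3
  exact hF0 h3

lemma not_dvd_L {A B : ℕ} {F : S} (i : Fin 4) (hF : BiHom A B F) (hA : 0 < A) :
    ¬ F ∣ L i := by
  rintro ⟨c, hc⟩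
  have h2 := BiHom_L i 1 0
  have h3 := hF 1 0
  rw [hc, map_mul, h3] at h2
  have h4 := congrArg (Polynomial.eval 0) h2
  simp only [Polynomial.eval_mul, Polynomial.eval_pow, Polynomial.eval_X, Polynomial.eval_C,
    mul_zero, mul_one, one_mul, zero_mul, add_zero, pow_zero] at h4
  rw [zero_pow hA.ne', zero_mul, zero_mul] at h4
  exact L_ne_zero i (by rw [hc, ← h4])

lemma not_L_dvd {A B : ℕ} {F : S} (i : Fin 4) (hF : BiHom A B F) (hp : Prime F) (hA : 0 < A) :
    ¬ L i ∣ F := by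
  intro h
  exact not_dvd_L i hF hA (((L_irr i).dvd_symm hp.irreducible) h)

/-- a form of degree `A` in the first two variables lies in the `A`-th power of their ideal -/
lemma mem_span_of {A : ℕ} {F : S} (h : hs 1 0 F = Polynomial.X ^ A * Polynomial.C F) :
    F ∈ (Ideal.span {(X 0 : S), X 1}) ^ A := by
  have h0 : hs 1 0 F ∈ reesAlgebra (Ideal.span {(X 0 : S), X 1}) := by
    apply aeval_mem_sub
    intro i
    have h1 : (X 0 : S) ∈ Ideal.span {(X 0 : S), X 1} := Ideal.subset_span (by simp)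
    have h2 : (X 1 : S) ∈ Ideal.span {(X 0 : S), X 1} := Ideal.subset_span (by simp)
    fin_cases i
    · simp only [hs, aeval_X]
      simpa using XC_mem_rees _ h1
    · simp only [hs, aeval_X]
      simpa using XC_mem_rees _ h2
    · simp only [hs, aeval_X]
      simpa using C_mem_rees (J := Ideal.span {(X 0 : S), X 1}) (X 2)
    · simp only [hs, aeval_X]
      simpa using C_mem_rees (J := Ideal.span {(X 0 : S), X 1}) (X 3)
  have h1 := (mem_reesAlgebra_iff _ _).1 h0 A
  rw [h, Polynomial.coeff_X_pow_mul'] at h1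
  simpa using h1

lemma mem_E_of {A : ℕ} {G : S} (h : hs 1 0 G = Polynomial.X ^ A * Polynomial.C G) (i : Fin 4) :
    Phi G ∈ I (ex i) (ev i) ^ A := by
  have h1 := mem_span_of h
  have h3 := Ideal.mem_map_of_mem (Phi : S →+* S) h1
  rw [Ideal.map_pow] at h3
  refine Ideal.pow_right_mono ?_ A h3
  rw [Ideal.map_span, Ideal.span_le]
  rintro _ ⟨g, hg, rfl⟩
  simp only [Set.mem_insert_iff, Set.mem_singleton_iff] at hg
  rcases hg with rfl | rfl
  · exact (Phi_01_mem i).1
  · exact (Phi_01_mem i).2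

lemma L_mem (i : Fin 4) : L i ∈ I (ex i) (ev i) := gen2 _ _

lemma H_mem (u : Fin 4 → ℕ) (i : Fin 4) : H u ∈ I (ex i) (ev i) ^ u i := by
  rw [H_split u i]
  exact Ideal.mul_mem_left _ _ (Ideal.pow_mem_pow (L_mem i) _)

lemma exists_L_dvd {G : S} {a : ℕ} (h : G ∣ NM ^ a) (hG : ¬ IsUnit G) : ∃ i, L i ∣ G := by
  have hG0 : G ≠ 0 := ne_zero_of_dvd_ne_zero (pow_ne_zero _ NM_ne_zero) h
  obtain ⟨q, hq, hqG⟩ := WfDvdMonoid.exists_irreducible_factor hG hG0
  have h1 : q ∣ NM := hq.prime.dvd_of_dvd_pow (hqG.trans h)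
  rw [NM] at h1
  have key : ∀ i, q ∣ L i → L i ∣ G := fun i hi => (hq.dvd_symm (L_irr i) hi).trans hqG
  rcases hq.prime.dvd_or_dvd h1 with h1 | h1 <;> rcases hq.prime.dvd_or_dvd h1 with h1 | h1
  · exact ⟨0, key 0 h1⟩
  · exact ⟨1, key 1 h1⟩
  · exact ⟨2, key 2 h1⟩
  · exact ⟨3, key 3 h1⟩

theorem step {F : S} {A B : ℕ} {u w : Fin 4 → ℕ} (h : Good F A B u w) (hA0 : 0 < A)
    (hA : ∀ i, u i ≤ A) (hB : ∑ i, u i ≤ B + 2 * A) :
    ∃ F', Good F' A (B + 2 * A - ∑ i, u i) (fun i => A - u i) (fun i => w (pi' i)) := by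
  obtain ⟨F', hΦ, hhom, hE, hD⟩ := divide h.hom h.multE h.multD hA hB
  have hF0 : F ≠ 0 := h.prime.ne_zero
  have hPP := h.hom.Phi_Phi
  have hsgn : (-NM) ^ A = (-1) ^ A * (H (fun i => A - u i) * H u) := by
    rw [H_mul_H hA, neg_pow]
  have key : Phi F' = (-1) ^ A * H (fun i => A - u i) * F := by
    rw [hΦ, map_mul, Phi_H, hsgn] at hPP
    apply mul_left_cancel₀ (H_ne_zero u)
    rw [hPP]
    ring
  have hF'0 : F' ≠ 0 := by
    rintro rfl
    rw [map_zero] at key
    have : ((-1) ^ A * H (fun i => A - u i) * F : S) ≠ 0 :=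
      mul_ne_zero (mul_ne_zero (by simp) (H_ne_zero _)) hF0
    exact this key.symm
  -- the linear forms do not divide `F'`
  have hL : ∀ i, ¬ L i ∣ F' := by
    rintro i ⟨G', hG'⟩
    apply h.exE i
    have hx : hs 1 0 G' = Polynomial.X ^ A * Polynomial.C G' := by
      have h1 := hhom 1 0
      have h2 := BiHom_L i 1 0
      rw [hG', map_mul, h2, Polynomial.C_mul] at h1
      have h3 : (Polynomial.C (L i) : Polynomial S) ≠ 0 := Polynomial.C_ne_zero.2 (L_ne_zero i)
      apply mul_left_cancel₀ h3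
      have e1 : 1 * 0 + 0 * 1 = 0 := rfl
      have e2 : 1 * A + 0 * (B + 2 * A - ∑ i, u i) = A := by ring
      rw [e1, e2, pow_zero, one_mul] at h1
      rw [h1]
      ring
    have h4 := mem_E_of hx i
    have h5 : NM ^ A * F ∈ I (ex i) (ev i) ^ (u i + 1 + A) := by
      have h6 : (-NM) ^ A * F = H u * (L i * Phi G') := by
        rw [← hPP, hΦ, hG', map_mul, map_mul, Phi_H, Phi_L]
      have h7 : NM ^ A * F = (-1) ^ A * (H u * (L i * Phi G')) := by
        have h8 : ((-1) ^ A * (-1) ^ A : S) = 1 := by rw [← mul_pow]; simp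
        rw [← h6, neg_pow NM]
        linear_combination (-(NM ^ A * F)) * h8
      rw [h7]
      apply Ideal.mul_mem_left
      rw [add_assoc, pow_add]
      apply Ideal.mul_mem_mul (H_mem u i)
      rw [pow_add, pow_one]
      exact Ideal.mul_mem_mul (L_mem i) h4
    rw [← H_const] at h5
    exact cancel_H_E (u := fun _ => A) i h5
  refine ⟨F', ?_, hhom, hE, hD, ?_, ?_, ?_⟩
  · rw [← irreducible_iff_prime]
    refine ⟨not_unit_of_hom hhom hF'0 hA0, ?_⟩
    have main : ∀ G1 G2 : S, F' = G1 * G2 → F ∣ Phi G1 → IsUnit G2 := by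
      rintro G1 G2 hG ⟨K, hK⟩
      have h0 : G1 * G2 ≠ 0 := by rwa [← hG]
      obtain ⟨a, ha⟩ := factor_hom (A := A) (B := B + 2 * A - ∑ i, u i) (by rwa [← hG]) h0
      have h1 := Phi_Phi_of ha
      rw [hK, map_mul, hΦ] at h1
      have hG1 : G1 ≠ 0 := left_ne_zero_of_mul h0
      have h2 : (-NM) ^ a = H u * G2 * Phi K := by
        apply mul_left_cancel₀ hG1
        rw [mul_comm G1, ← h1, hG]
        ring
      by_contra hU
      have h3 : G2 ∣ NM ^ a := by
        have : NM ^ a = (-1) ^ a * (-NM) ^ a := by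
          rw [← mul_pow]; simp
        rw [this, h2]
        exact ⟨(-1) ^ a * (H u * Phi K), by ring⟩
      obtain ⟨i, hi⟩ := exists_L_dvd h3 hU
      exact hL i (hi.trans ⟨G1, by rw [hG]; ring⟩)
    intro G1 G2 hG
    have h1 : F ∣ Phi G1 * Phi G2 := by
      rw [← map_mul, ← hG, key]
      exact dvd_mul_left _ _
    rcases h.prime.dvd_or_dvd h1 with h1 | h1
    · exact Or.inr (main G1 G2 hG h1)
    · exact Or.inl (main G2 G1 (by rw [hG]; ring) h1)
  · intro i hmem
    have h1 := dvd_of_mem_E hmem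
    rw [key, H_split _ i, pow_succ] at h1
    have h2 : L i ∣ (∏ j ∈ Finset.univ.erase i, L j ^ (A - u j)) * F := by
      obtain ⟨c, hc⟩ := h1
      refine ⟨(-1) ^ A * c, ?_⟩
      apply mul_left_cancel₀ (pow_ne_zero (A - u i) (L_ne_zero i))
      have h3 : ((-1) ^ A * (-1) ^ A : S) = 1 := by rw [← mul_pow]; simp
      calc L i ^ (A - u i) * ((∏ j ∈ Finset.univ.erase i, L j ^ (A - u j)) * F)
          = ((-1) ^ A * (-1) ^ A) * (L i ^ (A - u i) *
            ((∏ j ∈ Finset.univ.erase i, L j ^ (A - u j)) * F)) := by rw [h3, one_mul]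
        _ = (-1) ^ A * ((-1) ^ A * ((∏ j ∈ Finset.univ.erase i, L j ^ (A - u j)) *
            L i ^ (A - u i)) * F) := by ring
        _ = (-1) ^ A * (L i ^ (A - u i) * L i * c) := by rw [hc]
        _ = _ := by ring
    rcases (L_prime i).dvd_or_dvd h2 with h2 | h2
    · obtain ⟨c, hc⟩ := h2
      have h3 := eval_rest (fun j => A - u j) i 0
      apply h3
      rw [hc, map_mul, eval_L, sub_self, zero_mul]
    · exact not_L_dvd i h.hom h.prime hA0 h2
  · intro i hmem
    have h1 := mem_D hmem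
    rw [key] at h1
    have h2 : H (fun i => A - u i) * F ∈ I (ev (pi' i)) (ex (pi' i)) ^ (w (pi' i) + 1) := by
      have h3 := Ideal.mul_mem_left _ ((-1) ^ A) h1
      have h4 : ((-1) ^ A * (-1) ^ A : S) = 1 := by rw [← mul_pow]; simp
      have h5 : ((-1) ^ A * ((-1) ^ A * H (fun i => A - u i) * F) : S) =
          H (fun i => A - u i) * F := by
        rw [← mul_assoc, ← mul_assoc, h4, one_mul]
      rwa [h5] at h3
    exact h.exD (pi' i) (cancel_H_D (pi' i) h2)
  · intro G hG hGE hGD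
    have hB2 : ∑ i, (A - u i) ≤ (B + 2 * A - ∑ i, u i) + 2 * A := by
      have h0 := hA 0
      have h1 := hA 1
      have h2 := hA 2
      have h3 := hA 3
      rw [Fin.sum_univ_four] at hB ⊢
      rw [Fin.sum_univ_four]
      omega
    obtain ⟨K, hK, hKhom, hKE, hKD⟩ := divide hG hGE hGD (fun i => Nat.sub_le _ _) hB2
    have e1 : (B + 2 * A - ∑ i, u i) + 2 * A - ∑ i, (A - u i) = B := by
      have h0 := hA 0
      have h1 := hA 1
      have h2 := hA 2
      have h3 := hA 3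
      rw [Fin.sum_univ_four] at hB ⊢
      rw [Fin.sum_univ_four]
      omega
    rw [e1] at hKhom
    obtain ⟨t, ht⟩ := h.uniq K hKhom
      (fun i => by
        have := hKE i
        have e2 : A - (A - u i) = u i := by have := hA i; omega
        rwa [e2] at this)
      (fun i => by
        have := hKD i
        rwa [pi_pi] at this)
    have h1 := hG.Phi_Phi
    rw [hK, map_mul, Phi_H, ht, map_mul, Phi_C, hΦ, hsgn] at h1
    refine ⟨(-1) ^ A * t, ?_⟩
    have h4 : ((-1) ^ A * (-1) ^ A : S) = 1 := by rw [← mul_pow]; simp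
    apply mul_left_cancel₀ (mul_ne_zero (H_ne_zero (fun i => A - u i)) (H_ne_zero u))
    have h5 : (C ((-1) ^ A * t) : S) = (-1) ^ A * C t := by
      rw [C_mul, C_pow, C_neg, C_1]
    rw [h5]
    calc H (fun i => A - u i) * H u * G
        = ((-1) ^ A * (-1) ^ A) * (H (fun i => A - u i) * H u * G) := by rw [h4, one_mul]
      _ = (-1) ^ A * ((-1) ^ A * (H (fun i => A - u i) * H u) * G) := by ring
      _ = _ := by rw [← h1]; ring

end

end Pool.Agent.W512.Harb
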