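import Mathlib
import Pool.Agent.W512.HD

set_option autoImplicit false

namespace Pool.Agent.W512.Harb

open MvPolynomial

noncomputable section

/-- the permutation of the coordinates that exchanges the two lines -/
def eqv : Fin 4 ≃ Fin 4 := ⟨![2, 3, 0, 1], ![2, 3, 0, 1], by decide, by decide⟩

def sw : S ≃ₐ[ℂ] S := renameEquiv ℂ eqv

lemma sw_X (i : Fin 4) : sw (X i) = X (eqv i) := by
  simp [sw]

lemma sw_C (t : ℂ) : sw (C t) = C t := sw.commutes t

lemma sw_sw (F : S) : sw (sw F) = F := by
  have : (sw : S →ₐ[ℂ] S).comp (sw : S →ₐ[ℂ] S) = AlgHom.id ℂ S := by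
    apply MvPolynomial.algHom_ext
    intro i
    fin_cases i <;> simp [sw_X, eqv]
  exact congrArg (fun f => f F) this

lemma sw_mem {x y : ℂ} {n : ℕ} {F : S} (h : F ∈ I x y ^ n) : sw F ∈ I y x ^ n := by
  have h3 := Ideal.mem_map_of_mem (sw : S →+* S) h
  rw [Ideal.map_pow] at h3
  refine Ideal.pow_right_mono ?_ n h3
  rw [I, Ideal.map_span, Ideal.span_le]
  rintro _ ⟨g, hg, rfl⟩
  simp only [Set.mem_insert_iff, Set.mem_singleton_iff] at hg
  rcases hg with rfl | rfl
  · have : sw (X 0 - C x * X 1) = X 2 - C x * X 3 := by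
      rw [map_sub, map_mul, sw_C, sw_X, sw_X]; rfl
    have h2 := gen2 y x
    rw [← this] at h2
    exact h2
  · have : sw (X 2 - C y * X 3) = X 0 - C y * X 1 := by
      rw [map_sub, map_mul, sw_C, sw_X, sw_X]; rfl
    have h2 := gen1 y x
    rw [← this] at h2
    exact h2

lemma sw_mem_iff {x y : ℂ} {n : ℕ} {F : S} : sw F ∈ I x y ^ n ↔ F ∈ I y x ^ n := by
  constructor
  · intro h
    have := sw_mem h
    rwa [sw_sw] at this
  · exact sw_mem

lemma BiHom.sw {A B : ℕ} {F : S} (h : BiHom A B F) : BiHom B A (sw F) := by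
  intro i j
  have key : (hs i j : S →+* Polynomial S).comp (Harb.sw : S →+* S) =
      (Polynomial.mapRingHom (Harb.sw : S →+* S)).comp (hs j i : S →+* Polynomial S) := by
    apply MvPolynomial.ringHom_ext
    · intro r
      have := sw_C r
      simp [hs, this]
    · intro k
      fin_cases k <;> simp [hs, sw_X, eqv]
  have h1 := congrArg (fun f => f F) key
  simp only [RingHom.comp_apply, RingHom.coe_coe, Polynomial.coe_mapRingHom] at h1
  rw [h1, h j i]
  simp only [Polynomial.map_mul, Polynomial.map_pow, Polynomial.map_X, Polynomial.map_C,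
    RingHom.coe_coe]
  ring

theorem swap {F : S} {A B : ℕ} {u w : Fin 4 → ℕ} (h : Good F A B u w) : Good (sw F) B A w u where
  prime := (MulEquiv.prime_iff (sw : S ≃* S)).2 h.prime
  hom := h.hom.sw
  multE i := sw_mem (h.multD i)
  multD i := sw_mem (h.multE i)
  exE i := fun hc => h.exD i (sw_mem_iff.1 hc)
  exD i := fun hc => h.exE i (sw_mem_iff.1 hc)
  uniq G hG h1 h2 := by
    obtain ⟨t, ht⟩ := h.uniq (sw G) hG.sw (fun i => sw_mem (h2 i)) (fun i => sw_mem (h1 i))
    refine ⟨t, ?_⟩
    rw [← sw_sw G, ht, map_mul, sw_C]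

lemma hs_monomial (i j : ℕ) (m : Fin 4 →₀ ℕ) (c : ℂ) :
    hs i j (monomial m c) = Polynomial.monomial (i * (m 0 + m 1) + j * (m 2 + m 3)) (monomial m c) := by
  rw [hs, aeval_monomial, Finsupp.prod_fintype _ _ (fun _ => pow_zero _), Fin.prod_univ_four]
  simp only [Matrix.cons_val_zero, Matrix.cons_val_one, Matrix.cons_val]
  have h1 : (monomial m c : S) = C c * (X 0 ^ m 0 * X 1 ^ m 1 * X 2 ^ m 2 * X 3 ^ m 3) := by
    rw [monomial_eq, Finsupp.prod_fintype _ _ (fun _ => pow_zero _), Fin.prod_univ_four]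
  rw [h1, ← Polynomial.C_mul_X_pow_eq_monomial]
  simp only [map_mul, map_pow]
  have h2 : algebraMap ℂ (Polynomial S) c = Polynomial.C (C c) := rfl
  rw [h2]
  ring

lemma hs_coeff (i j k : ℕ) (m : Fin 4 →₀ ℕ) (F : S) :
    coeff m ((hs i j F).coeff k) = if k = i * (m 0 + m 1) + j * (m 2 + m 3) then coeff m F else 0 := by
  induction F using MvPolynomial.monomial_add_induction_on with
  | C a =>
    rw [← monomial_zero', hs_monomial, Polynomial.coeff_monomial]
    by_cases hm : m = 0
    · subst hm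
      simp only [Finsupp.coe_zero, Pi.zero_apply, add_zero, mul_zero]
      by_cases hk : k = 0
      · simp [hk]
      · simp [hk, Ne.symm hk]
    · split_ifs <;> simp [Ne.symm hm]
  | monomial_add a b f ha hb ih =>
    rw [map_add, Polynomial.coeff_add, coeff_add, ih, coeff_add, hs_monomial,
      Polynomial.coeff_monomial]
    by_cases hm : a = m
    · subst hm
      by_cases hk : k = i * (a 0 + a 1) + j * (a 2 + a 3)
      · simp [hk]
      · simp [hk, Ne.symm hk]
    · by_cases hk : k = i * (m 0 + m 1) + j * (m 2 + m 3)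
      · rw [if_pos hk, if_pos hk]
        split_ifs <;> simp [coeff_monomial, hm]
      · rw [if_neg hk, if_neg hk]
        split_ifs <;> simp [coeff_monomial, hm]

lemma BiHom.support {A B : ℕ} {F : S} (h : BiHom A B F) (m : Fin 4 →₀ ℕ) (hm : coeff m F ≠ 0) :
    m 0 + m 1 = A ∧ m 2 + m 3 = B := by
  constructor
  · by_contra hne
    have h1 := hs_coeff 1 0 (m 0 + m 1) m F
    rw [h 1 0, Polynomial.coeff_mul_C, Polynomial.coeff_X_pow] at h1
    rw [if_neg (by omega), if_pos (by ring)] at h1
    apply hm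
    rw [← h1]
    simp
  · by_contra hne
    have h1 := hs_coeff 0 1 (m 2 + m 3) m F
    rw [h 0 1, Polynomial.coeff_mul_C, Polynomial.coeff_X_pow] at h1
    rw [if_neg (by omega), if_pos (by ring)] at h1
    apply hm
    rw [← h1]
    simp

theorem base : Good (L 0) 0 1 ![1, 0, 0, 0] ![0, 0, 0, 0] where
  prime := L_prime 0
  hom := BiHom_L 0
  multE i := by
    fin_cases i
    · simpa using L_mem 0
    · simp
    · simp
    · simp
  multD i := by
    fin_cases i <;> simp
  exE i := by
    by_cases hi : i = 0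
    · subst hi
      rw [mem_I_pow_iff]
      have : ps (ex 0) (ev 0) (L 0) = Polynomial.X * Polynomial.C (L 0) := by
        simp [ps, L]
      rw [this]
      intro h
      have h2 : (Polynomial.X : Polynomial S) * Polynomial.X ∣ Polynomial.X * Polynomial.C (L 0) := by
        simpa [pow_succ] using h
      exact not_dvd_C (L_ne_zero 0) ((mul_dvd_mul_iff_left Polynomial.X_ne_zero).1 h2)
    · intro h
      have h1 := eval_of_mem _ _ (Ideal.pow_le_self (Nat.succ_ne_zero _) h)
      rw [eval_L] at h1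
      exact ev_inj hi (sub_eq_zero.1 h1)
  exD i := by
    intro h
    have h1 := eval_of_mem _ _ (Ideal.pow_le_self (Nat.succ_ne_zero _) h)
    rw [eval_L] at h1
    exact ev_ne_ex 0 i (sub_eq_zero.1 h1)
  uniq G hG hE _ := by
    have h1 : G ∈ I (ex 0) (ev 0) := by simpa using hE 0
    have h2 := eval_of_mem _ _ h1
    refine ⟨coeff (Finsupp.single 2 1) G, ?_⟩
    have hGe : G = C (coeff (Finsupp.single 2 1) G) * X 2 + C (coeff (Finsupp.single 3 1) G) * X 3 := by
      ext m
      rw [coeff_add, coeff_C_mul, coeff_C_mul, coeff_X, coeff_X]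
      by_cases hm : coeff m G = 0
      · by_cases h2 : Finsupp.single 2 1 = m
        · subst h2
          rw [hm]
          simp [Finsupp.single_left_inj]
        · by_cases h3 : Finsupp.single 3 1 = m
          · subst h3
            rw [hm]
            simp [Finsupp.single_left_inj]
          · simp [hm, h2, h3]
      · obtain ⟨e1, e2⟩ := hG.support m hm
        have : m = Finsupp.single 2 1 ∨ m = Finsupp.single 3 1 := by
          by_cases h2 : m 2 = 1
          · left
            ext k
            fin_cases k <;> simp <;> omega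
          · right
            ext k
            fin_cases k <;> simp <;> omega
        rcases this with rfl | rfl
        · simp [Finsupp.single_left_inj]
        · simp [Finsupp.single_left_inj]
    rw [hGe] at h2
    simp only [map_add, map_mul, eval_C, eval_X, Matrix.cons_val] at h2
    have h3 : coeff (Finsupp.single 3 1) G = -(coeff (Finsupp.single 2 1) G * ev 0) := by
      linear_combination h2
    conv_lhs => rw [hGe]
    rw [h3, C_neg, C_mul, L]
    ring

/-- the numerical conditions -/
structure Num (A B : ℕ) (u w : Fin 4 → ℕ) : Prop where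
  pos : 0 < A
  le : B ≤ A
  sum_le : ∑ i, u i ≤ A + B
  u_le : ∀ i, u i ≤ A
  w_le : ∀ i, w i ≤ A
  lin : ∑ i, u i + ∑ i, w i + 1 = 2 * A + 2 * B
  quad : ∑ i, u i ^ 2 + ∑ i, w i ^ 2 = 2 * A * B + 1

lemma sum_pi (f : Fin 4 → ℕ) : ∑ i, f (pi' i) = ∑ i, f i := by
  rw [Fin.sum_univ_four, Fin.sum_univ_four]
  simp [pi']
  ring

lemma Num.next {A B : ℕ} {u w : Fin 4 → ℕ} (h : Num A B u w) :
    Num (B + 2 * A - ∑ i, u i) A (fun i => w (pi' i)) (fun i => A - u i) := by
  have h1 := h.pos
  have h2 := h.le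
  have h3 := h.sum_le
  have h4 := h.lin
  have h5 := h.quad
  have h0' := h.u_le
  have e1 : ∑ i, (A - u i) = 4 * A - ∑ i, u i := by
    have := h0' 0
    have := h0' 1
    have := h0' 2
    have := h0' 3
    rw [Fin.sum_univ_four, Fin.sum_univ_four]
    omega
  have hu : ∑ i, u i ≤ 4 * A := by
    have := h0' 0
    have := h0' 1
    have := h0' 2
    have := h0' 3
    rw [Fin.sum_univ_four]
    omega
  refine ⟨by omega, by omega, ?_, ?_, ?_, ?_, ?_⟩
  · rw [sum_pi w]; omega
  · intro i
    have := h.w_le (pi' i)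
    show w (pi' i) ≤ _
    omega
  · intro i
    show A - u i ≤ _
    omega
  · rw [sum_pi w, e1]; omega
  · rw [sum_pi (fun i => w i ^ 2)]
    obtain ⟨C', hC⟩ : ∃ C', C' = B + 2 * A - ∑ i, u i := ⟨_, rfl⟩
    rw [← hC]
    have hC' : (C' : ℤ) = B + 2 * A - ∑ i, (u i : ℤ) := by
      have : C' + ∑ i, u i = B + 2 * A := by omega
      have := congrArg (Nat.cast : ℕ → ℤ) this
      push_cast at this
      linarith
    have h6 : ((∑ i, (A - u i) ^ 2 : ℕ) : ℤ) = ∑ i, ((A : ℤ) - u i) ^ 2 := by
      push_cast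
      refine Finset.sum_congr rfl fun i _ => ?_
      rw [Nat.cast_sub (h0' i)]
    have h5' := congrArg (Nat.cast : ℕ → ℤ) h5
    push_cast at h5'
    have goal' : ((∑ i, w i ^ 2 + ∑ i, (A - u i) ^ 2 : ℕ) : ℤ) = ((2 * C' * A + 1 : ℕ) : ℤ) := by
      rw [Nat.cast_add, h6]
      push_cast
      rw [hC']
      simp only [Fin.sum_univ_four] at h5' ⊢
      linear_combination h5'
    exact_mod_cast goal'

theorem Good.next {F : S} {A B : ℕ} {u w : Fin 4 → ℕ} (h : Good F A B u w) (hn : Num A B u w) :
    ∃ F', Good F' (B + 2 * A - ∑ i, u i) A (fun i => w (pi' i)) (fun i => A - u i) := by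
  obtain ⟨F', hF'⟩ := step h hn.pos hn.u_le (by have := hn.sum_le; omega)
  exact ⟨sw F', swap hF'⟩

theorem exists_good (n : ℕ) : ∃ (F : S) (A B : ℕ) (u w : Fin 4 → ℕ),
    Good F A B u w ∧ Num A B u w ∧ n ≤ A := by
  induction n with
  | zero =>
    refine ⟨sw (L 0), 1, 0, ![0, 0, 0, 0], ![1, 0, 0, 0], swap base, ?_, by omega⟩
    constructor <;> simp [Fin.sum_univ_four, Fin.forall_fin_succ]
  | succ n ih =>
    obtain ⟨F, A, B, u, w, hF, hn, hA⟩ := ih
    obtain ⟨F', hF'⟩ := hF.next hn
    have hn' := hn.next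
    by_cases hlt : ∑ i, u i < A + B
    · exact ⟨F', _, _, _, _, hF', hn', by omega⟩
    · obtain ⟨F'', hF''⟩ := hF'.next hn'
      have hn'' := hn'.next
      refine ⟨F'', _, _, _, _, hF'', hn'', ?_⟩
      have h1 := hn.lin
      have h2 := hn.le
      have h3 := hn.sum_le
      rw [sum_pi w]
      omega

end

end Pool.Agent.W512.Harb
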