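import Mathlib

set_option autoImplicit false

namespace Pool.Agent.W512.HarbInt

open Polynomial

noncomputable section

/-- The coefficient of `(x - p.1) ^ j * (y - p.2) ^ k` in the Taylor expansion at the point `p` of the
polynomial `P` in `ℂ[x][y]`. -/
def taylorCoeff (p : ℂ × ℂ) (P : Polynomial (Polynomial ℂ)) (j k : ℕ) : ℂ :=
  (taylor p.1 ((taylor (C p.2) P).coeff k)).coeff j

/-- The degree in `x` of an element of `ℂ[x][y]`. -/
def degX (P : Polynomial (Polynomial ℂ)) : ℕ := P.support.sup fun k => (P.coeff k).natDegree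

/-- The space of the polynomials of degree at most `a` in `x` and at most `b` in `y`. -/
def Box (a b : ℕ) : Set (Polynomial (Polynomial ℂ)) :=
  {P | (∀ k, (P.coeff k).natDegree ≤ a) ∧ P.natDegree ≤ b}

end

end Pool.Agent.W512.HarbInt
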