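import Mathlib
import Pool.Agent.W512.HE
import Pool.Agent.W512.HarbInt

set_option autoImplicit false

namespace Pool.Agent.W512.Harb

open Polynomial
open Pool.Agent.W512.HarbInt

noncomputable section

abbrev R2 := Polynomial (Polynomial ℂ)

lemma ip_succ (J : Ideal R2) (n : ℕ) : J ^ (n + 1) = J ^ n * J := pow_succ J n

lemma ip_add (J : Ideal R2) (m n : ℕ) : J ^ (m + n) = J ^ m * J ^ n := pow_add J m n

/-- the ideal of a point of the affine plane -/
def mm (x y : ℂ) : Ideal R2 := Ideal.span {C (X - C x), X - C (C y)}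

/-- translation -/
def tr (x y : ℂ) : R2 →+* R2 :=
  (mapRingHom ((taylorAlgHom x : ℂ[X] →ₐ[ℂ] ℂ[X]) : ℂ[X] →+* ℂ[X])).comp
    ((taylorAlgHom (C y) : R2 →ₐ[ℂ[X]] R2) : R2 →+* R2)

lemma tr_apply (x y : ℂ) (Q : R2) (j k : ℕ) :
    ((tr x y Q).coeff k).coeff j = taylorCoeff (x, y) Q j k := by
  rw [tr, RingHom.comp_apply, coe_mapRingHom, coeff_map]
  rfl

/-- the ideal of the polynomials without terms of degree less than `n` -/
def JJ (n : ℕ) : Ideal R2 where
  carrier := {Q | ∀ j k, j + k < n → (Q.coeff k).coeff j = 0}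
  add_mem' := by
    intro P Q hP hQ j k h
    rw [coeff_add, coeff_add, hP j k h, hQ j k h, add_zero]
  zero_mem' := by simp
  smul_mem' := by
    intro c Q hQ j k h
    rw [smul_eq_mul, coeff_mul, finsetSum_coeff]
    apply Finset.sum_eq_zero
    rintro ⟨a, b⟩ hab
    rw [Finset.HasAntidiagonal.mem_antidiagonal] at hab
    rw [coeff_mul]
    apply Finset.sum_eq_zero
    rintro ⟨a', b'⟩ hab'
    rw [Finset.HasAntidiagonal.mem_antidiagonal] at hab'
    simp only at hab hab'
    rw [hQ b' b (by omega), mul_zero]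

lemma mm_pow_le (x y : ℂ) (n : ℕ) : mm x y ^ n ≤ (JJ n).comap (tr x y) := by
  induction n with
  | zero =>
    intro Q _
    rw [Ideal.mem_comap]
    intro j k h
    omega
  | succ n ih =>
    rw [ip_succ, Ideal.mul_le]
    intro Q hQ g hg
    have hQ' := ih hQ
    rw [Ideal.mem_comap] at hQ' ⊢
    rw [mm, Ideal.mem_span_pair] at hg
    obtain ⟨a, b, rfl⟩ := hg
    have e1 : tr x y (C (X - C x)) = C X := by
      simp [tr]
    have e2 : tr x y (X - C (C y)) = X := by
      simp [tr]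
    have h1 : X * tr x y Q ∈ JJ (n + 1) := by
      intro j k h
      cases k with
      | zero => simp
      | succ k =>
        rw [coeff_X_mul]
        exact hQ' j k (by omega)
    have h2 : C X * tr x y Q ∈ JJ (n + 1) := by
      intro j k h
      rw [coeff_C_mul]
      cases j with
      | zero => simp
      | succ j =>
        rw [coeff_X_mul]
        exact hQ' j k (by omega)
    have e3 : tr x y (Q * (a * C (X - C x) + b * (X - C (C y)))) =
        tr x y a * (C X * tr x y Q) + tr x y b * (X * tr x y Q) := by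
      rw [map_mul, map_add, map_mul, map_mul, e1, e2]
      ring
    rw [e3]
    exact add_mem (Ideal.mul_mem_left _ _ h2) (Ideal.mul_mem_left _ _ h1)

lemma jets_of_mem {x y : ℂ} {n : ℕ} {Q : R2} (h : Q ∈ mm x y ^ n) (j k : ℕ) (hjk : j + k < n) :
    taylorCoeff (x, y) Q j k = 0 := by
  have := mm_pow_le x y n h
  rw [Ideal.mem_comap] at this
  rw [← tr_apply]
  exact this j k hjk

/-- Taylor expansion -/
lemma taylor_expansion (x y : ℂ) (Q : R2) {a b : ℕ}
    (ha : ∀ k, ((taylor (C y) Q).coeff k).natDegree ≤ a) (hb : Q.natDegree ≤ b) :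
    Q = ∑ k ∈ Finset.range (b + 1), ∑ j ∈ Finset.range (a + 1),
      C (C (taylorCoeff (x, y) Q j k)) * C ((X - C x) ^ j) * (X - C (C y)) ^ k := by
  have h1 : Q = ∑ k ∈ Finset.range (b + 1), C ((taylor (C y) Q).coeff k) * (X - C (C y)) ^ k := by
    conv_lhs => rw [← sum_taylor_eq Q (C y)]
    rw [sum_over_range' _ _ (b + 1)]
    · rw [natDegree_taylor]; omega
    · intro i; simp
  have h2 : ∀ k, (taylor (C y) Q).coeff k =
      ∑ j ∈ Finset.range (a + 1), C (taylorCoeff (x, y) Q j k) * (X - C x) ^ j := by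
    intro k
    conv_lhs => rw [← sum_taylor_eq ((taylor (C y) Q).coeff k) x]
    rw [sum_over_range' _ _ (a + 1)]
    · rfl
    · rw [natDegree_taylor]; have := ha k; omega
    · intro i; simp
  conv_lhs => rw [h1]
  refine Finset.sum_congr rfl fun k _ => ?_
  rw [h2 k, map_sum, Finset.sum_mul]
  refine Finset.sum_congr rfl fun j _ => ?_
  rw [C_mul]

lemma taylor_coeff_natDegree {Q : R2} {a : ℕ} (y : ℂ) (ha : ∀ k, (Q.coeff k).natDegree ≤ a) (k : ℕ) :
    ((taylor (C y) Q).coeff k).natDegree ≤ a := by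
  rw [taylor_coeff, eval_eq_sum, Polynomial.sum]
  refine natDegree_sum_le_of_forall_le _ _ (fun i _ => ?_)
  rw [hasseDeriv_coeff, ← C_pow]
  refine (natDegree_mul_C_le _ _).trans ?_
  have : ((((i + k).choose k : ℕ) : ℂ[X]) * Q.coeff (i + k)) =
      C (((i + k).choose k : ℕ) : ℂ) * Q.coeff (i + k) := by
    simp
  rw [this]
  exact (natDegree_C_mul_le _ _).trans (ha _)

lemma mem_of_jets {x y : ℂ} {n : ℕ} {Q : R2}
    (h : ∀ j k, j + k < n → taylorCoeff (x, y) Q j k = 0) : Q ∈ mm x y ^ n := by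
  obtain ⟨a, ha⟩ : ∃ a, ∀ k, (Q.coeff k).natDegree ≤ a := by
    refine ⟨degX Q, fun k => ?_⟩
    by_cases hk : Q.coeff k = 0
    · simp [hk]
    · exact Finset.le_sup (f := fun k => (Q.coeff k).natDegree) (mem_support_iff.2 hk)
  rw [taylor_expansion x y Q (taylor_coeff_natDegree y ha) le_rfl]
  apply Ideal.sum_mem
  intro k _
  apply Ideal.sum_mem
  intro j _
  by_cases hjk : j + k < n
  · rw [h j k hjk]
    simp
  · push Not at hjk
    apply Ideal.pow_le_pow_right hjk
    rw [ip_add]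
    refine Ideal.mul_mem_mul ?_ ?_
    · apply Ideal.mul_mem_left
      rw [C_pow]
      exact Ideal.pow_mem_pow (Ideal.subset_span (by simp)) _
    · exact Ideal.pow_mem_pow (Ideal.subset_span (by simp)) _

/-- dehomogenization -/
def dh : S →ₐ[ℂ] R2 := MvPolynomial.aeval ![C X, 1, X, 1]

lemma dh_mem {x y : ℂ} {n : ℕ} {F : S} (h : F ∈ I x y ^ n) : dh F ∈ mm x y ^ n := by
  have h3 := Ideal.mem_map_of_mem (dh : S →+* R2) h
  rw [Ideal.map_pow] at h3
  refine Ideal.pow_right_mono ?_ n h3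
  rw [I, Ideal.map_span, Ideal.span_le]
  rintro _ ⟨g, hg, rfl⟩
  simp only [Set.mem_insert_iff, Set.mem_singleton_iff] at hg
  have hC : ∀ t : ℂ, dh (MvPolynomial.C t) = C (C t) := fun t => dh.commutes t
  rcases hg with rfl | rfl
  · have : dh (MvPolynomial.X 0 - MvPolynomial.C x * MvPolynomial.X 1) = C (X - C x) := by
      rw [map_sub, map_mul, hC]
      simp [dh]
    rw [RingHom.coe_coe, this]
    exact Ideal.subset_span (by simp)
  · have : dh (MvPolynomial.X 2 - MvPolynomial.C y * MvPolynomial.X 3) = X - C (C y) := by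
      rw [map_sub, map_mul, hC]
      simp [dh]
    rw [RingHom.coe_coe, this]
    exact Ideal.subset_span (by simp)

lemma dh_monomial (m : Fin 4 →₀ ℕ) (c : ℂ) :
    dh (MvPolynomial.monomial m c) = C (C c * X ^ m 0) * X ^ m 2 := by
  rw [dh, MvPolynomial.aeval_monomial, Finsupp.prod_fintype _ _ (fun _ => pow_zero _),
    Fin.prod_univ_four]
  have h2 : algebraMap ℂ R2 c = C (C c) := rfl
  rw [h2]
  simp
  ring

lemma dh_coeff (j k : ℕ) (F : S) :
    ((dh F).coeff k).coeff j = ∑ m ∈ F.support, if m 0 = j ∧ m 2 = k then F.coeff m else 0 := by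
  conv_lhs => rw [MvPolynomial.as_sum F]
  rw [map_sum, finsetSum_coeff, finsetSum_coeff]
  refine Finset.sum_congr rfl fun m _ => ?_
  rw [dh_monomial, coeff_C_mul_X_pow]
  by_cases hk : k = m 2
  · by_cases hj : m 0 = j
    · simp [hk, hj, coeff_X_pow]
    · simp [hk, hj, coeff_X_pow, Ne.symm hj]
  · simp [hk, Ne.symm hk]

lemma dh_inj {A B : ℕ} {F : S} (h : BiHom A B F) (h0 : dh F = 0) : F = 0 := by
  by_contra hF
  obtain ⟨m, hm⟩ := MvPolynomial.ne_zero_iff.1 hF
  obtain ⟨e1, e2⟩ := h.support m hm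
  have h1 := dh_coeff (m 0) (m 2) F
  rw [h0] at h1
  rw [Finset.sum_eq_single m] at h1
  · simp only [coeff_zero, and_self, if_true] at h1
    exact hm h1.symm
  · intro m' hm' hne
    rw [if_neg]
    rintro ⟨f1, f2⟩
    obtain ⟨e3, e4⟩ := h.support m' (MvPolynomial.mem_support_iff.1 hm')
    apply hne
    ext i
    fin_cases i
    · exact f1
    · show m' 1 = m 1
      omega
    · exact f2
    · show m' 3 = m 3
      omega
  · intro hn
    exact absurd (MvPolynomial.mem_support_iff.2 hm) hn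

lemma BiHom.add {A B : ℕ} {F G : S} (hF : BiHom A B F) (hG : BiHom A B G) : BiHom A B (F + G) := by
  intro i j
  rw [map_add, hF i j, hG i j, C_add, mul_add]

lemma BiHom.zero {A B : ℕ} : BiHom A B 0 := by
  intro i j
  simp

lemma BiHom.sum {ι : Type} {A B : ℕ} (s : Finset ι) (f : ι → S) (h : ∀ i ∈ s, BiHom A B (f i)) :
    BiHom A B (∑ i ∈ s, f i) := by
  classical
  induction s using Finset.induction_on with
  | empty => simpa using BiHom.zero
  | insert a s ha ih =>
    rw [Finset.sum_insert ha]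
    exact (h a (Finset.mem_insert_self a s)).add (ih fun i hi => h i (Finset.mem_insert_of_mem hi))

/-- homogenization, expanded at a point -/
def hm (x y : ℂ) (A B : ℕ) (Q : R2) : S :=
  ∑ k ∈ Finset.range (B + 1), ∑ j ∈ Finset.range (A + 1),
    MvPolynomial.C (taylorCoeff (x, y) Q j k) *
      (((MvPolynomial.X 0 - MvPolynomial.C x * MvPolynomial.X 1) ^ j *
        MvPolynomial.X 1 ^ (A - j)) *
      ((MvPolynomial.X 2 - MvPolynomial.C y * MvPolynomial.X 3) ^ k * MvPolynomial.X 3 ^ (B - k)))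

lemma BiHom_lin0 (x : ℂ) : BiHom 1 0 (MvPolynomial.X 0 - MvPolynomial.C x * MvPolynomial.X 1) := by
  intro i j
  simp [hs]
  ring

lemma BiHom_lin2 (y : ℂ) : BiHom 0 1 (MvPolynomial.X 2 - MvPolynomial.C y * MvPolynomial.X 3) := by
  intro i j
  simp [hs]
  ring

lemma BiHom_X1 : BiHom 1 0 (MvPolynomial.X 1) := by
  intro i j
  simp [hs]

lemma BiHom_X3 : BiHom 0 1 (MvPolynomial.X 3) := by
  intro i j
  simp [hs]

lemma BiHom_hm (x y : ℂ) (A B : ℕ) (Q : R2) : BiHom A B (hm x y A B Q) := by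
  refine BiHom.sum _ _ fun k hk => BiHom.sum _ _ fun j hj => BiHom.C_mul ?_ _
  rw [Finset.mem_range] at hk hj
  have h1 := (((BiHom_lin0 x).pow j).mul (BiHom_X1.pow (A - j))).mul
    (((BiHom_lin2 y).pow k).mul (BiHom_X3.pow (B - k)))
  have e1 : j * 1 + (A - j) * 1 + (k * 0 + (B - k) * 0) = A := by
    simp only [mul_zero, mul_one, add_zero]; omega
  have e2 : j * 0 + (A - j) * 0 + (k * 1 + (B - k) * 1) = B := by
    simp only [mul_zero, mul_one]; omega
  rwa [e1, e2] at h1

lemma dh_hm (x y : ℂ) {A B : ℕ} {Q : R2} (hQ : Q ∈ Box A B) : dh (hm x y A B Q) = Q := by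
  have hC : ∀ t : ℂ, dh (MvPolynomial.C t) = C (C t) := fun t => dh.commutes t
  conv_rhs => rw [taylor_expansion x y Q (taylor_coeff_natDegree y hQ.1) hQ.2]
  rw [hm, map_sum]
  refine Finset.sum_congr rfl fun k _ => ?_
  rw [map_sum]
  refine Finset.sum_congr rfl fun j _ => ?_
  simp only [map_mul, map_pow, map_sub, hC]
  simp [dh]
  ring

lemma hm_unique {x y : ℂ} {A B : ℕ} {Q : R2} {G : S} (hG : BiHom A B G) (h : dh G = Q)
    (hQ : Q ∈ Box A B) : G = hm x y A B Q := by
  have h1 : BiHom A B (G - hm x y A B Q) := by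
    have h2 := (BiHom_hm x y A B Q).C_mul (-1)
    have h3 := hG.add h2
    have : G + MvPolynomial.C (-1) * hm x y A B Q = G - hm x y A B Q := by
      simp [sub_eq_add_neg]
    rwa [this] at h3
  have h2 := dh_inj h1 (by rw [map_sub, h, dh_hm x y hQ, sub_self])
  exact sub_eq_zero.1 h2

lemma hm_mem {x y : ℂ} {A B n : ℕ} {Q : R2}
    (h : ∀ j k, j + k < n → taylorCoeff (x, y) Q j k = 0) : hm x y A B Q ∈ I x y ^ n := by
  apply Ideal.sum_mem
  intro k _
  apply Ideal.sum_mem
  intro j _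
  by_cases hjk : j + k < n
  · rw [h j k hjk]
    simp
  · push Not at hjk
    apply Ideal.mul_mem_left
    apply Ideal.pow_le_pow_right hjk
    rw [pow_add]
    exact Ideal.mul_mem_mul (Ideal.mul_mem_right _ _ (Ideal.pow_mem_pow (gen1 x y) _))
      (Ideal.mul_mem_right _ _ (Ideal.pow_mem_pow (gen2 x y) _))

end

end Pool.Agent.W512.Harb
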