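import Mathlib
import Pool.Agent.W512.HF

set_option autoImplicit false

namespace Pool.Agent.W512.Harb

open Polynomial
open Pool.Agent.W512.HarbInt

noncomputable section

lemma swap_coeff (P : R2) (j k : ℕ) : ((Bivariate.swap P).coeff j).coeff k = (P.coeff k).coeff j := by
  induction P using Polynomial.induction_on' with
  | add p q hp hq => rw [map_add, coeff_add, coeff_add, coeff_add, coeff_add, hp, hq]
  | monomial n f =>
    induction f using Polynomial.induction_on' with
    | add p q hp hq =>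
      rw [map_add (monomial n) p q, map_add, coeff_add, coeff_add, coeff_add, coeff_add, hp, hq]
    | monomial m r =>
      rw [Bivariate.swap_monomial_monomial]
      simp only [coeff_monomial]
      by_cases h1 : m = j <;> by_cases h2 : n = k <;> simp [h1, h2, coeff_monomial]

lemma degX_le_iff {P : R2} {a : ℕ} : degX P ≤ a ↔ ∀ k, (P.coeff k).natDegree ≤ a := by
  rw [degX, Finset.sup_le_iff]
  constructor
  · intro h k
    by_cases hk : P.coeff k = 0
    · simp [hk]
    · exact h k (mem_support_iff.2 hk)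
  · intro h k _
    exact h k

lemma degX_eq (P : R2) : degX P = (Bivariate.swap P).natDegree := by
  apply le_antisymm
  · rw [degX_le_iff]
    intro k
    rw [natDegree_le_iff_coeff_eq_zero]
    intro N hN
    rw [← swap_coeff, coeff_eq_zero_of_natDegree_lt hN, coeff_zero]
  · rw [natDegree_le_iff_coeff_eq_zero]
    intro N hN
    ext k
    rw [swap_coeff, coeff_zero]
    apply coeff_eq_zero_of_natDegree_lt
    exact lt_of_le_of_lt (degX_le_iff.1 le_rfl k) hN

lemma degX_mul {P Q : R2} (hP : P ≠ 0) (hQ : Q ≠ 0) : degX (P * Q) = degX P + degX Q := by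
  rw [degX_eq, degX_eq, degX_eq, map_mul, natDegree_mul]
  · simpa using hP
  · simpa using hQ

lemma mem_Box_iff {P : R2} {a b : ℕ} : P ∈ Box a b ↔ degX P ≤ a ∧ P.natDegree ≤ b := by
  rw [degX_le_iff]; rfl

lemma dh_mem_Box {A B : ℕ} {F : S} (h : BiHom A B F) : dh F ∈ Box A B := by
  have key : ∀ j k, ((dh F).coeff k).coeff j ≠ 0 → j ≤ A ∧ k ≤ B := by
    intro j k hne
    rw [dh_coeff] at hne
    obtain ⟨m, hm, hm2⟩ := Finset.exists_ne_zero_of_sum_ne_zero hne
    have h1 := h.support m (MvPolynomial.mem_support_iff.1 hm)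
    by_cases hc : m 0 = j ∧ m 2 = k
    · omega
    · rw [if_neg hc] at hm2
      exact absurd rfl hm2
  constructor
  · intro k
    rw [natDegree_le_iff_coeff_eq_zero]
    intro N hN
    by_contra hne
    have := (key N k hne).1
    omega
  · rw [natDegree_le_iff_coeff_eq_zero]
    intro N hN
    ext j
    by_contra hne
    have := (key j N hne).2
    omega

lemma X3_not_unit : ¬ IsUnit (MvPolynomial.X 3 : S) :=
  (MvPolynomial.X_prime (R := ℂ) (i := (3 : Fin 4))).not_isUnit

lemma X1_not_unit : ¬ IsUnit (MvPolynomial.X 1 : S) :=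
  (MvPolynomial.X_prime (R := ℂ) (i := (1 : Fin 4))).not_isUnit

lemma dh_X1 : dh (MvPolynomial.X 1) = 1 := by simp [dh]
lemma dh_X3 : dh (MvPolynomial.X 3) = 1 := by simp [dh]

lemma BiHom.inj {A B : ℕ} {F G : S} (hF : BiHom A B F) (hG : BiHom A B G) (h : dh F = dh G) :
    F = G := by
  have h1 : BiHom A B (F + MvPolynomial.C (-1) * G) := hF.add (hG.C_mul (-1))
  have h2 := dh_inj h1 (by
    rw [map_add, map_mul, h]
    have : dh (MvPolynomial.C (-1)) = -1 := by
      simp
    rw [this]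
    ring)
  have h3 : (MvPolynomial.C (-1) : S) = -1 := by simp
  rw [h3] at h2
  linear_combination h2

lemma exact_X {A B : ℕ} {F : S} (h : BiHom A B F) (hp : Prime F) (hA : 2 ≤ A) :
    degX (dh F) = A := by
  have h1 := dh_mem_Box h
  apply le_antisymm (mem_Box_iff.1 h1).1
  by_contra hlt
  push Not at hlt
  have h2 : dh F ∈ Box (A - 1) B := mem_Box_iff.2 ⟨by omega, h1.2⟩
  have h3 := BiHom_hm 0 0 (A - 1) B (dh F)
  have h4 := BiHom_X1.mul h3
  have e1 : 1 + (A - 1) = A := by omega
  rw [e1, zero_add] at h4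
  have h5 : F = MvPolynomial.X 1 * hm 0 0 (A - 1) B (dh F) := by
    apply h.inj h4
    rw [map_mul, dh_X1, one_mul, dh_hm 0 0 h2]
  rcases hp.irreducible.isUnit_or_isUnit h5 with h6 | h6
  · exact X1_not_unit h6
  · refine not_unit_of_hom h3 ?_ (by omega) h6
    intro h7
    rw [h7, mul_zero] at h5
    exact hp.ne_zero h5

lemma exact_Y {A B : ℕ} {F : S} (h : BiHom A B F) (hp : Prime F) (hA : 1 ≤ A) :
    (dh F).natDegree = B := by
  have h1 := dh_mem_Box h
  apply le_antisymm (mem_Box_iff.1 h1).2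
  by_contra hlt
  push Not at hlt
  have h2 : dh F ∈ Box A (B - 1) := mem_Box_iff.2 ⟨(mem_Box_iff.1 h1).1, by omega⟩
  have h3 := BiHom_hm 0 0 A (B - 1) (dh F)
  have h4 := BiHom_X3.mul h3
  have e1 : 1 + (B - 1) = B := by omega
  rw [e1, zero_add] at h4
  have h5 : F = MvPolynomial.X 3 * hm 0 0 A (B - 1) (dh F) := by
    apply h.inj h4
    rw [map_mul, dh_X3, one_mul, dh_hm 0 0 h2]
  rcases hp.irreducible.isUnit_or_isUnit h5 with h6 | h6
  · exact X3_not_unit h6
  · refine not_unit_of_hom h3 ?_ (by omega) h6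
    intro h7
    rw [h7, mul_zero] at h5
    exact hp.ne_zero h5

lemma degX_unit {P : R2} (h : IsUnit P) : degX P = 0 := by
  rw [degX_eq]
  exact natDegree_eq_zero_of_isUnit (h.map (Bivariate.swap (R := ℂ)))

/-- the affine version -/
structure Aff (P : R2) (A B : ℕ) {ι : Type} (xs vs : ι → ℂ) (m : ι → ℕ) : Prop where
  irr : Irreducible P
  dX : degX P = A
  dY : P.natDegree = B
  mem : ∀ i, P ∈ mm (xs i) (vs i) ^ m i
  uniq : ∀ Q ∈ Box A B, (∀ i, Q ∈ mm (xs i) (vs i) ^ m i) → ∃ t : ℂ, Q = C (C t) * P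

theorem Good.aff {F : S} {A B : ℕ} {u w : Fin 4 → ℕ} (h : Good F A B u w) (hA : 2 ≤ A) :
    Aff (dh F) A B (Sum.elim ex ev) (Sum.elim ev ex) (Sum.elim u w) where
  irr := by
    have e1 := exact_X h.hom h.prime hA
    have e2 := exact_Y h.hom h.prime (by omega)
    have hF0 : dh F ≠ 0 := by
      intro h0
      exact h.prime.ne_zero (dh_inj h.hom h0)
    refine ⟨fun hu => ?_, ?_⟩
    · have := degX_unit hu
      omega
    · intro Q R hQR
      have hQ0 : Q ≠ 0 := by rintro rfl; rw [zero_mul] at hQR; exact hF0 hQR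
      have hR0 : R ≠ 0 := by rintro rfl; rw [mul_zero] at hQR; exact hF0 hQR
      rw [hQR, degX_mul hQ0 hR0] at e1
      rw [hQR, natDegree_mul hQ0 hR0] at e2
      have h1 := BiHom_hm 0 0 (degX Q) Q.natDegree Q
      have h2 := BiHom_hm 0 0 (degX R) R.natDegree R
      have h3 := h1.mul h2
      rw [e1, e2] at h3
      have e3 := dh_hm 0 0 (mem_Box_iff.2 ⟨le_rfl, le_rfl⟩ : Q ∈ Box (degX Q) Q.natDegree)
      have e4 := dh_hm 0 0 (mem_Box_iff.2 ⟨le_rfl, le_rfl⟩ : R ∈ Box (degX R) R.natDegree)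
      have h4 := h.hom.inj h3 (by rw [map_mul, e3, e4, hQR])
      rcases h.prime.irreducible.isUnit_or_isUnit h4 with h5 | h5
      · left
        have := h5.map dh
        rwa [e3] at this
      · right
        have := h5.map dh
        rwa [e4] at this
  dX := exact_X h.hom h.prime hA
  dY := exact_Y h.hom h.prime (by omega)
  mem := by
    rintro (i | i)
    · exact dh_mem (h.multE i)
    · exact dh_mem (h.multD i)
  uniq := by
    intro Q hQ hmem
    have key : ∀ x y n, Q ∈ mm x y ^ n → hm 0 0 A B Q ∈ I x y ^ n := by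
      intro x y n hn
      have e1 := hm_unique (x := x) (y := y) (BiHom_hm 0 0 A B Q) (dh_hm 0 0 hQ) hQ
      rw [e1]
      exact hm_mem (fun j k hjk => jets_of_mem hn j k hjk)
    obtain ⟨t, ht⟩ := h.uniq (hm 0 0 A B Q) (BiHom_hm 0 0 A B Q)
      (fun i => key _ _ _ (hmem (Sum.inl i))) (fun i => key _ _ _ (hmem (Sum.inr i)))
    refine ⟨t, ?_⟩
    have h1 := congrArg dh ht
    rw [dh_hm 0 0 hQ, map_mul] at h1
    rw [h1]
    congr 1
    exact dh.commutes t

end

end Pool.Agent.W512.Harb
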