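import Mathlib
import Pool.Agent.W512.HG

set_option autoImplicit false

namespace Pool.Agent.W512.Harb

open Polynomial
open Pool.Agent.W512.HarbInt

noncomputable section

lemma eval_C_eq (P : R2) (l : ℂ) : P.eval (C l) = (Bivariate.swap P).map (evalRingHom l) := by
  ext j
  rw [coeff_map, coe_evalRingHom, eval_eq_sum_range, finsetSum_coeff]
  have h1 : (Bivariate.swap P).coeff j = ∑ k ∈ Finset.range (P.natDegree + 1),
      monomial k ((P.coeff k).coeff j) := by
    ext k
    rw [swap_coeff, finsetSum_coeff]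
    simp only [coeff_monomial]
    rw [Finset.sum_ite_eq']
    split_ifs with h
    · rfl
    · rw [Finset.mem_range] at h
      rw [show P.coeff k = 0 from coeff_eq_zero_of_natDegree_lt (by omega), coeff_zero]
  rw [h1, eval_finsetSum]
  refine Finset.sum_congr rfl fun k _ => ?_
  rw [eval_monomial, ← C_pow, coeff_mul_C]

lemma generic (P : R2) (hP : Irreducible P) (hd : 1 ≤ degX P) :
    ∃ r : ℂ[X], r ≠ 0 ∧ ∀ l : ℂ, r.eval l ≠ 0 →
      Squarefree (P.eval (C l)) ∧ ¬ IsUnit (P.eval (C l)) := by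
  set Q := Bivariate.swap P with hQ
  have hQi : Irreducible Q := (MulEquiv.irreducible_iff (Bivariate.swap (R := ℂ))).2 hP
  have hQd : 1 ≤ Q.natDegree := by rw [hQ, ← degX_eq]; exact hd
  have hprim : Q.IsPrimitive := hQi.isPrimitive (by omega)
  let K := FractionRing ℂ[X]
  have hK : Irreducible (Q.map (algebraMap ℂ[X] K)) :=
    (hprim.irreducible_iff_irreducible_map_fraction_map).1 hQi
  obtain ⟨a, b, hab⟩ := hK.separable
  obtain ⟨c1, hc1, h1⟩ := IsLocalization.integerNormalization_spec (nonZeroDivisors ℂ[X]) a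
  obtain ⟨c2, hc2, h2⟩ := IsLocalization.integerNormalization_spec (nonZeroDivisors ℂ[X]) b
  set U := IsLocalization.integerNormalization (nonZeroDivisors ℂ[X]) a with hU
  set V := IsLocalization.integerNormalization (nonZeroDivisors ℂ[X]) b with hV
  have hc1' : c1 ≠ 0 := nonZeroDivisors.ne_zero hc1
  have hc2' : c2 ≠ 0 := nonZeroDivisors.ne_zero hc2
  have key : C c2 * U * Q + C c1 * V * derivative Q = C (c1 * c2) := by
    apply map_injective (algebraMap ℂ[X] K) (IsFractionRing.injective ℂ[X] K)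
    rw [Polynomial.map_add, Polynomial.map_mul, Polynomial.map_mul, Polynomial.map_mul,
      Polynomial.map_mul, map_C, map_C, map_C, h1, h2, ← derivative_map]
    rw [← algebraMap_smul K c1 a, ← algebraMap_smul K c2 b, smul_eq_C_mul, smul_eq_C_mul]
    rw [map_mul, C_mul]
    linear_combination (C ((algebraMap ℂ[X] K) c1) * C ((algebraMap ℂ[X] K) c2)) * hab
  refine ⟨c1 * c2 * Q.leadingCoeff, mul_ne_zero (mul_ne_zero hc1' hc2')
    (leadingCoeff_ne_zero.2 hQi.ne_zero), ?_⟩
  intro l hl
  rw [eval_mul] at hl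
  have hl1 : (c1 * c2).eval l ≠ 0 := left_ne_zero_of_mul hl
  have hl2 : Q.leadingCoeff.eval l ≠ 0 := right_ne_zero_of_mul hl
  rw [eval_C_eq, ← hQ]
  set Ql := Q.map (evalRingHom l) with hQl
  constructor
  · apply Separable.squarefree
    have h3 := congrArg (Polynomial.map (evalRingHom l)) key
    rw [Polynomial.map_add, Polynomial.map_mul (q := Q), Polynomial.map_mul (q := derivative Q),
      ← derivative_map, ← hQl, map_C] at h3
    refine ⟨C ((c1 * c2).eval l)⁻¹ * (C c2 * U).map (evalRingHom l),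
      C ((c1 * c2).eval l)⁻¹ * (C c1 * V).map (evalRingHom l), ?_⟩
    rw [mul_assoc, mul_assoc, ← mul_add, h3, coe_evalRingHom, ← C_mul, inv_mul_cancel₀ hl1, C_1]
  · intro hu
    have h4 := natDegree_eq_zero_of_isUnit hu
    rw [hQl, natDegree_map_of_leadingCoeff_ne_zero _ (by simpa using hl2)] at h4
    omega

lemma Aff.translate {P : R2} {A B : ℕ} {ι : Type} {xs vs : ι → ℂ} {m : ι → ℕ}
    (h : Aff P A B xs vs m) (l : ℂ) : Aff (taylor (C l) P) A B xs (fun i => vs i - l) m := by
  have hdeg : ∀ (Q : R2) (l : ℂ), degX (taylor (C l) Q) ≤ degX Q := by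
    intro Q l
    rw [degX_le_iff]
    exact taylor_coeff_natDegree l (degX_le_iff.1 le_rfl)
  have hmem : ∀ (Q : R2) (l x v : ℂ) (n : ℕ), Q ∈ mm x v ^ n → taylor (C l) Q ∈ mm x (v - l) ^ n := by
    intro Q l x v n hQ
    have h3 := Ideal.mem_map_of_mem ((taylorAlgHom (C l) : R2 →ₐ[ℂ[X]] R2) : R2 →+* R2) hQ
    rw [Ideal.map_pow] at h3
    refine Ideal.pow_right_mono ?_ n h3
    rw [mm, Ideal.map_span, Ideal.span_le]
    rintro _ ⟨g, hg, rfl⟩
    simp only [Set.mem_insert_iff, Set.mem_singleton_iff] at hg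
    rcases hg with rfl | rfl
    · have : taylor (C l) (C (X - C x) : R2) = C (X - C x) := taylor_C _ _
      change taylor (C l) (C (X - C x) : R2) ∈ mm x (v - l)
      rw [this]
      exact Ideal.subset_span (by simp)
    · have : taylor (C l) (X - C (C v) : R2) = X - C (C (v - l)) := by
        rw [map_sub, taylor_C, taylor_X, C_sub, C_sub]
        ring
      change taylor (C l) (X - C (C v) : R2) ∈ mm x (v - l)
      rw [this]
      exact Ideal.subset_span (by simp)
  have hinv : ∀ (Q : R2) (l : ℂ), taylor (C (-l)) (taylor (C l) Q) = Q := by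
    intro Q l
    rw [taylor_taylor, ← C_add, neg_add_cancel, C_0, taylor_zero]
  have hinv' : ∀ (Q : R2) (l : ℂ), taylor (C l) (taylor (C (-l)) Q) = Q := by
    intro Q l
    rw [taylor_taylor, ← C_add, add_neg_cancel, C_0, taylor_zero]
  refine ⟨?_, ?_, ?_, ?_, ?_⟩
  · exact (MulEquiv.irreducible_iff (taylorEquiv (C l))).2 h.irr
  · apply le_antisymm
    · rw [← h.dX]; exact hdeg P l
    · rw [← h.dX]
      conv_lhs => rw [← hinv P l]
      exact hdeg _ _
  · rw [natDegree_taylor, h.dY]
  · intro i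
    exact hmem P l _ _ _ (h.mem i)
  · intro Q hQ hQm
    obtain ⟨t, ht⟩ := h.uniq (taylor (C (-l)) Q) (by
      rw [mem_Box_iff] at hQ ⊢
      rw [natDegree_taylor]
      exact ⟨(hdeg Q (-l)).trans hQ.1, hQ.2⟩) (fun i => by
      have := hmem Q (-l) _ _ _ (hQm i)
      have e : vs i - l - -l = vs i := by ring
      rwa [e] at this)
    refine ⟨t, ?_⟩
    rw [← hinv' Q l, ht, taylor_mul, taylor_C]

end

end Pool.Agent.W512.Harb
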