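import Mathlib
import Pool.Agent.W512.HH

set_option autoImplicit false

namespace Pool.Agent.W512.Harb

open Polynomial
open Pool.Agent.W512.HarbInt

noncomputable section

/-- the pullback by the double covering -/
abbrev E2 : R2 →ₐ[ℂ[X]] R2 := expand ℂ[X] 2

/-- even part -/
def e0 (Q : R2) : R2 := contract 2 Q
/-- odd part -/
def o0 (Q : R2) : R2 := contract 2 (divX Q)

lemma decomp (Q : R2) : Q = E2 (e0 Q) + X * E2 (o0 Q) := by
  ext1 n
  rw [coeff_add]
  rcases Nat.even_or_odd' n with ⟨k, rfl | rfl⟩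
  · have h1 : (E2 (e0 Q)).coeff (2 * k) = Q.coeff (2 * k) := by
      rw [E2, coeff_expand (by norm_num), if_pos (Dvd.intro k rfl), e0, coeff_contract (by norm_num)]
      congr 1
      omega
    have h2 : (X * E2 (o0 Q)).coeff (2 * k) = 0 := by
      cases k with
      | zero => simp
      | succ k =>
        rw [show 2 * (k + 1) = (2 * k + 1) + 1 by ring, coeff_X_mul, E2, coeff_expand (by norm_num),
          if_neg (by omega)]
    rw [h1, h2, add_zero]
  · have h1 : (E2 (e0 Q)).coeff (2 * k + 1) = 0 := by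
      rw [E2, coeff_expand (by norm_num), if_neg (by omega)]
    have h2 : (X * E2 (o0 Q)).coeff (2 * k + 1) = Q.coeff (2 * k + 1) := by
      rw [coeff_X_mul, E2, coeff_expand (by norm_num), if_pos (Dvd.intro k rfl), o0,
        coeff_contract (by norm_num), coeff_divX]
      congr 1
      omega
    rw [h1, h2, zero_add]

lemma e0_of (a b : R2) : e0 (E2 a + X * E2 b) = a := by
  ext1 n
  rw [e0, coeff_contract (by norm_num), coeff_add, E2, coeff_expand (by norm_num),
    if_pos (Dvd.intro_left n rfl)]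
  have h2 : (X * expand ℂ[X] 2 b).coeff (n * 2) = 0 := by
    cases n with
    | zero => simp
    | succ n =>
      rw [show (n + 1) * 2 = (2 * n + 1) + 1 by ring, coeff_X_mul, coeff_expand (by norm_num),
        if_neg (by omega)]
  rw [h2, add_zero]
  congr 1
  omega

lemma o0_of (a b : R2) : o0 (E2 a + X * E2 b) = b := by
  ext1 n
  rw [o0, coeff_contract (by norm_num), coeff_divX, coeff_add, E2, coeff_expand (by norm_num),
    if_neg (by omega), zero_add, coeff_X_mul, coeff_expand (by norm_num),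
    if_pos (Dvd.intro_left n rfl)]
  congr 1
  omega

lemma E2_inj {a b a' b' : R2} (h : E2 a + X * E2 b = E2 a' + X * E2 b') : a = a' ∧ b = b' := by
  constructor
  · rw [← e0_of a b, h, e0_of]
  · rw [← o0_of a b, h, o0_of]

lemma E2_X : E2 X = X ^ 2 := expand_X 2

lemma prod_decomp (g0 g1 h0 h1 : R2) : (E2 g0 + X * E2 g1) * (E2 h0 + X * E2 h1) =
    E2 (g0 * h0 + X * (g1 * h1)) + X * E2 (g0 * h1 + g1 * h0) := by
  simp only [map_add, map_mul, E2_X]
  ring

lemma parts_mem {J : Ideal R2} {Q : R2} (h : Q ∈ J.map (E2 : R2 →+* R2)) : e0 Q ∈ J ∧ o0 Q ∈ J := by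
  rw [Ideal.map] at h
  induction h using Submodule.span_induction with
  | mem x hx =>
    obtain ⟨g, hg, rfl⟩ := hx
    have e : (E2 : R2 →+* R2) g = E2 g + X * E2 0 := by simp
    rw [e, e0_of, o0_of]
    exact ⟨hg, zero_mem _⟩
  | zero =>
    have e : (0 : R2) = E2 0 + X * E2 0 := by simp
    rw [e, e0_of, o0_of]
    exact ⟨zero_mem _, zero_mem _⟩
  | add x y _ _ hx hy =>
    have e : x + y = E2 (e0 x + e0 y) + X * E2 (o0 x + o0 y) := by
      conv_lhs => rw [decomp x, decomp y]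
      simp only [map_add]
      ring
    rw [e, e0_of, o0_of]
    exact ⟨add_mem hx.1 hy.1, add_mem hx.2 hy.2⟩
  | smul a x _ hx =>
    have e : a • x = E2 (e0 a * e0 x + X * (o0 a * o0 x)) + X * E2 (e0 a * o0 x + o0 a * e0 x) := by
      rw [smul_eq_mul, ← prod_decomp, ← decomp, ← decomp]
    rw [e, e0_of, o0_of]
    exact ⟨add_mem (Ideal.mul_mem_left _ _ hx.1) (Ideal.mul_mem_left _ _ (Ideal.mul_mem_left _ _ hx.2)),
      add_mem (Ideal.mul_mem_left _ _ hx.2) (Ideal.mul_mem_left _ _ hx.1)⟩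

lemma mm_coprime (x s : ℂ) (hs : s ≠ 0) : IsCoprime (mm x s) (mm x (-s)) := by
  rw [Ideal.isCoprime_iff_exists]
  refine ⟨C (C (-(2 * s)⁻¹)) * (X - C (C s)), Ideal.mul_mem_left _ _ (Ideal.subset_span (by simp)),
    C (C ((2 * s)⁻¹)) * (X - C (C (-s))), Ideal.mul_mem_left _ _ (Ideal.subset_span (by simp)), ?_⟩
  have h1 : (C (C (-(2 * s)⁻¹)) : R2) = - C (C ((2 * s)⁻¹)) := by rw [C_neg, C_neg]
  have h2 : (C (C (-s)) : R2) = - C (C s) := by rw [C_neg, C_neg]
  have h3 : (C (C ((2 * s)⁻¹)) : R2) * C (C s) * 2 = 1 := by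
    rw [show (2 : R2) = C (C 2) from rfl, ← C_mul, ← C_mul, ← C_mul, ← C_mul]
    have : (2 * s)⁻¹ * s * 2 = 1 := by field_simp
    rw [this, C_1, C_1]
  rw [h1, h2]
  linear_combination h3

lemma mm_mul_le (x s : ℂ) : mm x s * mm x (-s) ≤ (mm x (s ^ 2)).map (E2 : R2 →+* R2) := by
  rw [Ideal.mul_le]
  intro r hr t ht
  rw [mm, Ideal.mem_span_pair] at hr ht
  obtain ⟨a, b, rfl⟩ := hr
  obtain ⟨c, d, rfl⟩ := ht
  have g1 : C (X - C x) ∈ (mm x (s ^ 2)).map (E2 : R2 →+* R2) := by
    have h1 : (C (X - C x) : R2) ∈ mm x (s ^ 2) := Ideal.subset_span (by simp)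
    have h2 := Ideal.mem_map_of_mem (E2 : R2 →+* R2) h1
    have h3 : (E2 : R2 →+* R2) (C (X - C x)) = C (X - C x) := expand_C 2 _
    rwa [h3] at h2
  have g2 : X ^ 2 - C (C (s ^ 2)) ∈ (mm x (s ^ 2)).map (E2 : R2 →+* R2) := by
    have h1 : (X - C (C (s ^ 2)) : R2) ∈ mm x (s ^ 2) := Ideal.subset_span (by simp)
    have h2 := Ideal.mem_map_of_mem (E2 : R2 →+* R2) h1
    have h3 : (E2 : R2 →+* R2) (X - C (C (s ^ 2))) = X ^ 2 - C (C (s ^ 2)) := by
      rw [map_sub]
      congr 1
      · exact E2_X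
      · exact expand_C 2 _
    rwa [h3] at h2
  have h2 : (C (C (-s)) : R2) = - C (C s) := by rw [C_neg, C_neg]
  have h3 : (C (C (s ^ 2)) : R2) = C (C s) * C (C s) := by rw [← C_mul, ← C_mul, sq]
  have e : (a * C (X - C x) + b * (X - C (C s))) * (c * C (X - C x) + d * (X - C (C (-s)))) =
      (a * (c * C (X - C x) + d * (X - C (C (-s)))) + b * (X - C (C s)) * c) * C (X - C x) +
      (b * d) * (X ^ 2 - C (C (s ^ 2))) := by
    rw [h2, h3]
    ring
  rw [e]
  exact add_mem (Ideal.mul_mem_left _ _ g1) (Ideal.mul_mem_left _ _ g2)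

lemma mem_map_of_both {x s : ℂ} (hs : s ≠ 0) {n : ℕ} {Q : R2} (h1 : Q ∈ mm x s ^ n)
    (h2 : Q ∈ mm x (-s) ^ n) : Q ∈ (mm x (s ^ 2) ^ n).map (E2 : R2 →+* R2) := by
  have hc : IsCoprime (mm x s ^ n) (mm x (-s) ^ n) := (mm_coprime x s hs).pow
  have h3 : Q ∈ mm x s ^ n * mm x (-s) ^ n := by
    rw [Ideal.mul_eq_inf_of_coprime (Ideal.isCoprime_iff_sup_eq.1 hc)]
    exact ⟨h1, h2⟩
  have e1 : mm x s ^ n * mm x (-s) ^ n = (mm x s * mm x (-s)) ^ n := (mul_pow (mm x s) (mm x (-s)) n).symm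
  rw [e1] at h3
  rw [Ideal.map_pow]
  exact Ideal.pow_right_mono (mm_mul_le x s) n h3

lemma mem_cover {x s : ℂ} {n : ℕ} {P : R2} (h : P ∈ mm x (s ^ 2) ^ n) : E2 P ∈ mm x s ^ n := by
  have h3 := Ideal.mem_map_of_mem (E2 : R2 →+* R2) h
  rw [Ideal.map_pow] at h3
  refine Ideal.pow_right_mono ?_ n h3
  rw [mm, Ideal.map_span, Ideal.span_le]
  rintro _ ⟨g, hg, rfl⟩
  simp only [Set.mem_insert_iff, Set.mem_singleton_iff] at hg
  have g1 : (C (X - C x) : R2) ∈ mm x s := Ideal.subset_span (by simp)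
  have g2 : (X - C (C s) : R2) ∈ mm x s := Ideal.subset_span (by simp)
  rcases hg with rfl | rfl
  · have h3 : (E2 : R2 →+* R2) (C (X - C x)) = C (X - C x) := expand_C 2 _
    rw [h3]
    exact g1
  · have h3 : (E2 : R2 →+* R2) (X - C (C (s ^ 2))) = (X + C (C s)) * (X - C (C s)) := by
      rw [map_sub]
      have e1 : (E2 : R2 →+* R2) X = X ^ 2 := E2_X
      have e2 : (E2 : R2 →+* R2) (C (C (s ^ 2))) = C (C (s ^ 2)) := expand_C 2 _
      rw [e1, e2, C_pow, C_pow]
      ring
    rw [h3]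
    exact Ideal.mul_mem_left _ _ g2

lemma cover_irr {P : R2} (hP : Irreducible P) (hs : Squarefree (P.coeff 0))
    (hu : ¬ IsUnit (P.coeff 0)) : Irreducible (E2 P) := by
  have hnu : ¬ IsUnit (E2 P) := by
    intro h
    have := isLocalHom_expand ℂ[X] (p := 2) (by norm_num)
    exact hP.not_isUnit ((isUnit_map_iff (expand ℂ[X] 2) P).1 h)
  refine ⟨hnu, ?_⟩
  intro G H hGH
  have hp : Prime P := hP.prime
  have hG := decomp G
  have hH := decomp H
  set g0 := e0 G with hg0
  set g1 := o0 G with hg1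
  set h0 := e0 H with hh0
  set h1 := o0 H with hh1
  have e1 : E2 P + X * E2 0 = E2 (g0 * h0 + X * (g1 * h1)) + X * E2 (g0 * h1 + g1 * h0) := by
    rw [← prod_decomp, ← hG, ← hH, ← hGH]
    simp
  obtain ⟨f1, f2⟩ := E2_inj e1
  have hN : (g0 ^ 2 - X * g1 ^ 2) * (h0 ^ 2 - X * h1 ^ 2) = P * P := by
    rw [f1]
    linear_combination X * (g0 * h1 + g1 * h0) * f2
  -- a factor whose conjugate product is a unit is a unit
  have unit_of : ∀ a b : R2, IsUnit (a ^ 2 - X * b ^ 2) → IsUnit (E2 a + X * E2 b) := by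
    intro a b h
    have h2 := h.map E2
    have h3 : E2 (a ^ 2 - X * b ^ 2) = (E2 a + X * E2 b) * (E2 a - X * E2 b) := by
      simp only [map_sub, map_mul, map_pow, E2_X]
      ring
    rw [h3] at h2
    exact isUnit_of_mul_isUnit_left h2
  have main : ∀ a b c d : R2, (a ^ 2 - X * b ^ 2) * (c ^ 2 - X * d ^ 2) = P * P →
      P ∣ (a ^ 2 - X * b ^ 2) → IsUnit (E2 c + X * E2 d) := by
    rintro a b c d hab ⟨K, hK⟩
    have h2 : K * (c ^ 2 - X * d ^ 2) = P := by
      rw [hK, mul_assoc] at hab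
      exact mul_left_cancel₀ hP.ne_zero hab
    rcases hP.isUnit_or_isUnit h2.symm with h3 | h3
    · exfalso
      apply hu
      have h4 := congrArg (fun f => Polynomial.coeff f 0) hK
      simp only [coeff_sub, mul_coeff_zero, coeff_X_zero, zero_mul, sub_zero] at h4
      have h5 : IsUnit (K.coeff 0) := by
        have := h3.map (constantCoeff (R := ℂ[X]))
        simpa using this
      have h6 : (a ^ 2).coeff 0 = a.coeff 0 * a.coeff 0 := by
        rw [sq, mul_coeff_zero]
      rw [h6] at h4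
      have h7 : a.coeff 0 * a.coeff 0 ∣ P.coeff 0 := by
        obtain ⟨v, hv⟩ := h5
        rw [← hv] at h4
        exact ⟨↑v⁻¹, by rw [h4, mul_assoc, Units.mul_inv, mul_one]⟩
      have h8 := hs _ h7
      have h9 : IsUnit (P.coeff 0 * K.coeff 0) := by
        rw [← h4]
        exact h8.mul h8
      exact isUnit_of_mul_isUnit_left h9
    · exact unit_of c d h3
  have h2 : P ∣ (g0 ^ 2 - X * g1 ^ 2) * (h0 ^ 2 - X * h1 ^ 2) := by
    rw [hN]
    exact dvd_mul_right _ _
  rcases hp.dvd_or_dvd h2 with h3 | h3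
  · right
    rw [hH]
    exact main g0 g1 h0 h1 hN h3
  · left
    rw [hG]
    exact main h0 h1 g0 g1 (by rw [mul_comm]; exact hN) h3

theorem Aff.cover {P : R2} {A B : ℕ} {ι : Type} {xs vs : ι → ℂ} {m : ι → ℕ}
    (h : Aff P A B xs vs m) (ss : ι → ℂ) (hss : ∀ i, ss i ^ 2 = vs i) (hss0 : ∀ i, ss i ≠ 0)
    (hs : Squarefree (P.coeff 0)) (hu : ¬ IsUnit (P.coeff 0)) :
    Aff (E2 P) A (2 * B) (Sum.elim xs xs) (Sum.elim ss (fun i => - ss i)) (Sum.elim m m) where
  irr := cover_irr h.irr hs hu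
  dX := by
    have key : ∀ k, ((E2 P).coeff k).natDegree ≤ A := by
      intro k
      rw [E2, coeff_expand (by norm_num)]
      split_ifs
      · exact degX_le_iff.1 (le_of_eq h.dX) _
      · simp
    apply le_antisymm (degX_le_iff.2 key)
    rw [← h.dX, degX_le_iff]
    intro k
    have h1 := degX_le_iff.1 (le_refl (degX (E2 P))) (k * 2)
    rw [E2, coeff_expand_mul (by norm_num)] at h1
    exact h1
  dY := by rw [E2, natDegree_expand, h.dY]; ring
  mem := by
    rintro (i | i)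
    · apply mem_cover
      show P ∈ mm (xs i) (ss i ^ 2) ^ m i
      rw [hss i]
      exact h.mem i
    · apply mem_cover
      show P ∈ mm (xs i) ((- ss i) ^ 2) ^ m i
      rw [neg_sq, hss i]
      exact h.mem i
  uniq := by
    intro Q hQ hm
    rw [mem_Box_iff] at hQ
    obtain ⟨hQ1, hQ2⟩ := hQ
    rw [degX_le_iff] at hQ1
    have hparts : ∀ i, e0 Q ∈ mm (xs i) (vs i) ^ m i ∧ o0 Q ∈ mm (xs i) (vs i) ^ m i := by
      intro i
      apply parts_mem
      rw [← hss i]
      exact mem_map_of_both (hss0 i) (hm (Sum.inl i)) (hm (Sum.inr i))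
    have he : e0 Q ∈ Box A B := by
      rw [mem_Box_iff, degX_le_iff]
      constructor
      · intro k
        rw [e0, coeff_contract (by norm_num)]
        exact hQ1 _
      · rw [natDegree_le_iff_coeff_eq_zero]
        intro N hN
        rw [e0, coeff_contract (by norm_num)]
        exact coeff_eq_zero_of_natDegree_lt (by omega)
    have ho : X * o0 Q ∈ Box A B := by
      rw [mem_Box_iff, degX_le_iff]
      constructor
      · intro k
        cases k with
        | zero => simp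
        | succ k =>
          rw [coeff_X_mul, o0, coeff_contract (by norm_num), coeff_divX]
          exact hQ1 _
      · rw [natDegree_le_iff_coeff_eq_zero]
        intro N hN
        cases N with
        | zero => simp
        | succ N =>
          rw [coeff_X_mul, o0, coeff_contract (by norm_num), coeff_divX]
          exact coeff_eq_zero_of_natDegree_lt (by omega)
    obtain ⟨t, ht⟩ := h.uniq _ he (fun i => (hparts i).1)
    obtain ⟨t', ht'⟩ := h.uniq _ ho (fun i => Ideal.mul_mem_left _ _ (hparts i).2)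
    have h0 : P.coeff 0 ≠ 0 := hs.ne_zero
    have h1 := congrArg (fun f => Polynomial.coeff f 0) ht'
    simp only [mul_coeff_zero, coeff_X_zero, zero_mul, coeff_C_zero] at h1
    have h2 : t' = 0 := by
      rcases mul_eq_zero.1 h1.symm with h3 | h3
      · simpa using h3
      · exact absurd h3 h0
    rw [h2, C_0, C_0, zero_mul] at ht'
    have h3 : o0 Q = 0 := (mul_eq_zero.1 ht').resolve_left X_ne_zero
    refine ⟨t, ?_⟩
    rw [decomp Q, h3, ht, map_mul]
    have : E2 (C (C t)) = C (C t) := expand_C 2 _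
    rw [this]
    simp

end

end Pool.Agent.W512.Harb
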