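import Mathlib

/-!
# Curves on a blow-up of the product of two projective lines

Let `Z` be a finite set of points of the affine plane `ℂ × ℂ`, contained in the product of two
projective lines, and let `X` be the blow-up of this product in the points of `Z`; it is a smooth
projective rational surface.  An irreducible polynomial `P` in two variables defines an irreducible
curve on `X`: the strict transform `D` of the closure of the curve `P = 0`.  Its class is
`(a, b) - ∑ m_p E_p`, where `a` and `b` are the degrees of `P` in the two variables, `m_p` is the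
multiplicity of `P` at `p` and `E_p` is the exceptional curve over `p`.  So

* `H⁰(X, 𝒪(D))` is the space of the polynomials of degree at most `a` in the first and at most `b` in
  the second variable whose Taylor coefficients at `p` of order less than `m_p` vanish, for all `p` in
  `Z`;
* `H¹(X, 𝒪(D))` is the cokernel of the map that sends a polynomial of degree at most `a` in the first
  and at most `b` in the second variable to the collection of its Taylor coefficients at `p` of order
  less than `m_p`, for all `p` in `Z` (as the first cohomology group of `𝒪(a, b)` vanishes).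
-/

set_option autoImplicit false

namespace Pool.Agent.W512.Harbourne

open MvPolynomial

noncomputable section

/-- The coefficient of `(x - p.1) ^ j * (y - p.2) ^ k` in the Taylor expansion of the polynomial
`P (x, y)` at the point `p`: the coefficient of `x ^ j * y ^ k` in `P (x + p.1, y + p.2)`. -/
def taylorCoeff (p : ℂ × ℂ) (j k : ℕ) : MvPolynomial (Fin 2) ℂ →ₗ[ℂ] ℂ :=
  (lcoeff ℂ (Finsupp.single (0 : Fin 2) j + Finsupp.single (1 : Fin 2) k)).comp
    (aeval (R := ℂ) ![(X 0 + C p.1 : MvPolynomial (Fin 2) ℂ), X 1 + C p.2]).toLinearMap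

/-- The multiplicity of `P` at the point `p`: the least order of a nonzero Taylor coefficient. -/
def mult (p : ℂ × ℂ) (P : MvPolynomial (Fin 2) ℂ) : ℕ :=
  sInf {n | ∃ j k, j + k = n ∧ taylorCoeff p j k P ≠ 0}

/-- The space of the polynomials of degree at most `a` in the first and at most `b` in the second
variable. -/
def Box (a b : ℕ) : Submodule ℂ (MvPolynomial (Fin 2) ℂ) where
  carrier := {P | degreeOf 0 P ≤ a ∧ degreeOf 1 P ≤ b}
  add_mem' := by
    rintro P Q ⟨h1, h2⟩ ⟨h3, h4⟩
    exact ⟨(degreeOf_add_le _ _ _).trans (max_le h1 h3), (degreeOf_add_le _ _ _).trans (max_le h2 h4)⟩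
  zero_mem' := by simp
  smul_mem' := by
    rintro c P ⟨h1, h2⟩
    rw [smul_eq_C_mul]
    exact ⟨(degreeOf_C_mul_le _ _ _).trans h1, (degreeOf_C_mul_le _ _ _).trans h2⟩

/-- The space of the jets: for each point `p` of `Z` one number for each pair `(j, k)` with
`j + k < m p`. -/
abbrev Jets (Z : Finset (ℂ × ℂ)) (m : ℂ × ℂ → ℕ) : Type :=
  (p : {p : ℂ × ℂ // p ∈ Z}) → {jk : ℕ × ℕ // jk.1 + jk.2 < m p} → ℂ

/-- The map that sends a polynomial in `Box a b` to its Taylor coefficients of order less than `m p` at
`p`, for all `p` in `Z`. -/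
def jetMap (Z : Finset (ℂ × ℂ)) (m : ℂ × ℂ → ℕ) (a b : ℕ) : Box a b →ₗ[ℂ] Jets Z m :=
  LinearMap.pi fun p => LinearMap.pi fun jk =>
    (taylorCoeff p jk.1.1 jk.1.2).comp (Box a b).subtype

/-- The dimension of `H⁰(X, 𝒪(D))`, for the curve `D` that is defined by `P` on the blow-up `X` of the
product of two projective lines in `Z`. -/
def h0 (Z : Finset (ℂ × ℂ)) (P : MvPolynomial (Fin 2) ℂ) : ℕ :=
  Module.finrank ℂ (LinearMap.ker (jetMap Z (fun p => mult p P) (degreeOf 0 P) (degreeOf 1 P)))

/-- The dimension of `H¹(X, 𝒪(D))`, for the curve `D` that is defined by `P` on the blow-up `X` of the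
product of two projective lines in `Z`. -/
def h1 (Z : Finset (ℂ × ℂ)) (P : MvPolynomial (Fin 2) ℂ) : ℕ :=
  Module.finrank ℂ (Jets Z (fun p => mult p P) ⧸
    LinearMap.range (jetMap Z (fun p => mult p P) (degreeOf 0 P) (degreeOf 1 P)))

end

end Pool.Agent.W512.Harbourne
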