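import Mathlib
import Pool.Agent.W512.HI
import Pool.Agent.W512.HarbDefs

set_option autoImplicit false

namespace Pool.Agent.W512.Harb

open Pool.Agent.W512

noncomputable section

abbrev M2 := MvPolynomial (Fin 2) ℂ

/-- comparison of the two models of the polynomial ring -/
abbrev phi : R2 ≃ₐ[ℂ] M2 := Polynomial.Bivariate.equivMvPolynomial ℂ

lemma phi_coeff (P : R2) (m : Fin 2 →₀ ℕ) :
    MvPolynomial.coeff m (phi P) = (P.coeff (m 1)).coeff (m 0) := by
  induction P using Polynomial.induction_on' with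
  | add p q hp hq =>
    rw [map_add, MvPolynomial.coeff_add, hp, hq, Polynomial.coeff_add, Polynomial.coeff_add]
  | monomial n f =>
    induction f using Polynomial.induction_on' with
    | add p q hp hq =>
      rw [map_add (Polynomial.monomial n) p q, map_add, MvPolynomial.coeff_add, hp, hq,
        Polynomial.coeff_add, Polynomial.coeff_add]
    | monomial k r =>
      have h1 : (Polynomial.monomial n (Polynomial.monomial k r) : R2) =
          Polynomial.C (Polynomial.C r) * Polynomial.C Polynomial.X ^ k * Polynomial.X ^ n := by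
        rw [← Polynomial.C_mul_X_pow_eq_monomial, ← Polynomial.C_mul_X_pow_eq_monomial,
          Polynomial.C_mul, Polynomial.C_pow]
      have h2 : phi (Polynomial.monomial n (Polynomial.monomial k r)) =
          MvPolynomial.monomial (Finsupp.single 0 k + Finsupp.single 1 n) r := by
        rw [h1, map_mul, map_mul, map_pow, map_pow,
          Polynomial.Bivariate.equivMvPolynomial_C_C, Polynomial.Bivariate.equivMvPolynomial_C_X,
          Polynomial.Bivariate.equivMvPolynomial_X, MvPolynomial.monomial_eq]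
        rw [Finsupp.prod_fintype _ _ (fun _ => pow_zero _)]
        simp
        ring
      rw [h2, MvPolynomial.coeff_monomial, Polynomial.coeff_monomial]
      by_cases hn : n = m 1
      · by_cases hk : k = m 0
        · have : Finsupp.single (0 : Fin 2) k + Finsupp.single 1 n = m := by
            ext i
            fin_cases i <;> simp [hn, hk]
          rw [if_pos this, if_pos hn, Polynomial.coeff_monomial, if_pos hk]
        · rw [if_neg, if_pos hn, Polynomial.coeff_monomial, if_neg hk]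
          intro h
          apply hk
          rw [← h]
          simp
      · rw [if_neg, if_neg hn, Polynomial.coeff_zero]
        intro h
        apply hn
        rw [← h]
        simp

lemma phi_taylor (x y : ℂ) (P : R2) :
    MvPolynomial.aeval (R := ℂ) ![MvPolynomial.X 0 + MvPolynomial.C x,
      MvPolynomial.X 1 + MvPolynomial.C y] (phi P) = phi (tr x y P) := by
  have : ((MvPolynomial.aeval (R := ℂ) ![MvPolynomial.X 0 + MvPolynomial.C x,
      MvPolynomial.X 1 + MvPolynomial.C y] : M2 →ₐ[ℂ] M2) : M2 →+* M2).comp (phi : R2 →+* M2) =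
      (phi : R2 →+* M2).comp (tr x y) := by
    apply Polynomial.ringHom_ext'
    · apply Polynomial.ringHom_ext'
      · ext r
        simp [tr, Polynomial.Bivariate.equivMvPolynomial_C_C]
      · simp [tr, Polynomial.Bivariate.equivMvPolynomial_C_X, Polynomial.Bivariate.equivMvPolynomial_C_C]
    · simp [tr, Polynomial.Bivariate.equivMvPolynomial_X, Polynomial.Bivariate.equivMvPolynomial_C_C]
  exact congrArg (fun f => f P) this

lemma phi_taylorCoeff (x y : ℂ) (P : R2) (j k : ℕ) :
    Harbourne.taylorCoeff (x, y) j k (phi P) = HarbInt.taylorCoeff (x, y) P j k := by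
  rw [← tr_apply, Harbourne.taylorCoeff]
  have h := congrArg (MvPolynomial.coeff (Finsupp.single 0 j + Finsupp.single 1 k))
    (phi_taylor x y P)
  rw [phi_coeff] at h
  rw [LinearMap.comp_apply, AlgHom.toLinearMap_apply, MvPolynomial.lcoeff_apply]
  refine Eq.trans ?_ (h.trans (by simp))
  rfl

lemma phi_deg0_le (P : R2) (a : ℕ) :
    MvPolynomial.degreeOf 0 (phi P) ≤ a ↔ HarbInt.degX P ≤ a := by
  rw [MvPolynomial.degreeOf_le_iff, degX_le_iff]
  constructor
  · intro h k
    rw [Polynomial.natDegree_le_iff_coeff_eq_zero]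
    intro N hN
    by_contra hne
    have h1 : MvPolynomial.coeff (Finsupp.single 0 N + Finsupp.single 1 k) (phi P) ≠ 0 := by
      rw [phi_coeff]
      simpa using hne
    have h2 := h _ (MvPolynomial.mem_support_iff.2 h1)
    simp at h2
    omega
  · intro h m hm
    rw [MvPolynomial.mem_support_iff, phi_coeff] at hm
    exact (Polynomial.le_natDegree_of_ne_zero hm).trans (h _)

lemma phi_deg1_le (P : R2) (b : ℕ) :
    MvPolynomial.degreeOf 1 (phi P) ≤ b ↔ P.natDegree ≤ b := by
  rw [MvPolynomial.degreeOf_le_iff]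
  constructor
  · intro h
    rw [Polynomial.natDegree_le_iff_coeff_eq_zero]
    intro N hN
    ext j
    rw [Polynomial.coeff_zero]
    by_contra hne
    have h1 : MvPolynomial.coeff (Finsupp.single 0 j + Finsupp.single 1 N) (phi P) ≠ 0 := by
      rw [phi_coeff]
      simpa using hne
    have h2 := h _ (MvPolynomial.mem_support_iff.2 h1)
    simp at h2
    omega
  · intro h m hm
    rw [MvPolynomial.mem_support_iff, phi_coeff] at hm
    refine le_trans (Polynomial.le_natDegree_of_ne_zero ?_) h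
    intro h0
    rw [h0, Polynomial.coeff_zero] at hm
    exact hm rfl

lemma phi_deg0 (P : R2) : MvPolynomial.degreeOf 0 (phi P) = HarbInt.degX P :=
  le_antisymm ((phi_deg0_le P _).2 le_rfl) ((phi_deg0_le P _).1 le_rfl)

lemma phi_deg1 (P : R2) : MvPolynomial.degreeOf 1 (phi P) = P.natDegree :=
  le_antisymm ((phi_deg1_le P _).2 le_rfl) ((phi_deg1_le P _).1 le_rfl)

lemma phi_box {Q : R2} {a b : ℕ} : phi Q ∈ Harbourne.Box a b ↔ Q ∈ HarbInt.Box a b := by
  rw [mem_Box_iff]
  exact and_congr (phi_deg0_le Q a) (phi_deg1_le Q b)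

/-! ### dimensions -/

def triEquiv (m : ℕ) : {jk : ℕ × ℕ // jk.1 + jk.2 < m} ≃ (Σ n : Fin m, Fin (n + 1)) where
  toFun jk := ⟨⟨jk.1.1 + jk.1.2, jk.2⟩, ⟨jk.1.1, by simp⟩⟩
  invFun nj := ⟨(nj.2, nj.1 - nj.2), by
    have h1 := nj.1.2
    have h2 := nj.2.2
    simp only
    omega⟩
  left_inv := by
    rintro ⟨⟨j, k⟩, h⟩
    simp
  right_inv := by
    rintro ⟨⟨n, hn⟩, ⟨j, hj⟩⟩
    have h1 : j + (n - j) = n := by
      simp only at hj
      omega
    simp only [Sigma.mk.injEq, Fin.mk.injEq]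
    refine ⟨h1, ?_⟩
    rw [Fin.heq_ext_iff]
    simp [h1]

instance (m : ℕ) : Finite {jk : ℕ × ℕ // jk.1 + jk.2 < m} := Finite.of_equiv _ (triEquiv m).symm

lemma two_card (m : ℕ) : 2 * Nat.card {jk : ℕ × ℕ // jk.1 + jk.2 < m} = m * m + m := by
  rw [Nat.card_congr (triEquiv m), Nat.card_eq_fintype_card, Fintype.card_sigma]
  simp only [Fintype.card_fin]
  rw [Fin.sum_univ_eq_sum_range (fun n => n + 1) m]
  induction m with
  | zero => simp
  | succ m ih =>
    rw [Finset.sum_range_succ, mul_add, ih]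
    ring

lemma card_mono {m n : ℕ} (h : m ≤ n) :
    Nat.card {jk : ℕ × ℕ // jk.1 + jk.2 < m} ≤ Nat.card {jk : ℕ × ℕ // jk.1 + jk.2 < n} := by
  have h1 := two_card m
  have h2 := two_card n
  have h3 : m * m ≤ n * n := Nat.mul_le_mul h h
  omega

open Harbourne in
lemma finrank_jets (Z : Finset (ℂ × ℂ)) (m : ℂ × ℂ → ℕ) :
    Module.finrank ℂ (Jets Z m) = ∑ p ∈ Z, Nat.card {jk : ℕ × ℕ // jk.1 + jk.2 < m p} := by
  classical
  have inst : ∀ n : ℕ, Fintype {jk : ℕ × ℕ // jk.1 + jk.2 < n} := fun n => Fintype.ofFinite _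
  have h := Module.finrank_pi_fintype (R := ℂ) (ι := {p : ℂ × ℂ // p ∈ Z})
    (M := fun p => ({jk : ℕ × ℕ // jk.1 + jk.2 < m p} → ℂ))
  refine Eq.trans h ?_
  rw [← Finset.sum_coe_sort Z]
  refine Finset.sum_congr rfl fun p _ => ?_
  rw [Module.finrank_fintype_fun_eq_card, Nat.card_eq_fintype_card]

/-- the coefficients of a polynomial in the box -/
def coefMap (a b : ℕ) : Harbourne.Box a b →ₗ[ℂ] (Fin (a + 1) × Fin (b + 1) → ℂ) :=
  LinearMap.pi fun jk => (MvPolynomial.lcoeff ℂ
    (Finsupp.single 0 (jk.1 : ℕ) + Finsupp.single 1 (jk.2 : ℕ))).comp (Harbourne.Box a b).subtype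

lemma coefMap_inj (a b : ℕ) : Function.Injective (coefMap a b) := by
  rw [injective_iff_map_eq_zero]
  intro Q hQ
  obtain ⟨Q, hQ1, hQ2⟩ := Q
  rw [MvPolynomial.degreeOf_le_iff] at hQ1 hQ2
  apply Subtype.ext
  show Q = 0
  ext m
  rw [MvPolynomial.coeff_zero]
  by_contra hm
  have h1 := hQ1 m (MvPolynomial.mem_support_iff.2 hm)
  have h2 := hQ2 m (MvPolynomial.mem_support_iff.2 hm)
  have h3 := congrFun hQ (⟨m 0, by omega⟩, ⟨m 1, by omega⟩)
  apply hm
  have e : Finsupp.single (0 : Fin 2) (m 0) + Finsupp.single 1 (m 1) = m := by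
    ext i
    fin_cases i <;> simp
  have h4 : MvPolynomial.coeff (Finsupp.single (0 : Fin 2) (m 0) + Finsupp.single 1 (m 1)) Q = 0 := h3
  rwa [e] at h4

instance (a b : ℕ) : Module.Finite ℂ (Harbourne.Box a b) :=
  Module.Finite.of_injective _ (coefMap_inj a b)

lemma finrank_box (a b : ℕ) : Module.finrank ℂ (Harbourne.Box a b) ≤ (a + 1) * (b + 1) := by
  have h := LinearMap.finrank_le_finrank_of_injective (coefMap_inj a b)
  rwa [Module.finrank_fintype_fun_eq_card, Fintype.card_prod, Fintype.card_fin,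
    Fintype.card_fin] at h

lemma le_mult {P : R2} (hP : P ≠ 0) {x y : ℂ} {n : ℕ} (h : P ∈ mm x y ^ n) :
    n ≤ Harbourne.mult (x, y) (phi P) := by
  rw [Harbourne.mult]
  apply le_csInf
  · by_contra hne
    rw [Set.not_nonempty_iff_eq_empty] at hne
    have h0 : ∀ j k, HarbInt.taylorCoeff (x, y) P j k = 0 := by
      intro j k
      by_contra hc
      rw [← phi_taylorCoeff] at hc
      have : j + k ∈ {n | ∃ j k, j + k = n ∧ Harbourne.taylorCoeff (x, y) j k (phi P) ≠ 0} :=
        ⟨j, k, rfl, hc⟩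
      rw [hne] at this
      exact this
    apply hP
    have h1 : Polynomial.taylor (Polynomial.C y) P = 0 := by
      ext k j
      have h2 : Polynomial.taylor x ((Polynomial.taylor (Polynomial.C y) P).coeff k) = 0 := by
        ext i
        exact h0 i k
      rw [Polynomial.taylor_eq_zero] at h2
      rw [h2, Polynomial.coeff_zero, Polynomial.coeff_zero, Polynomial.coeff_zero]
    rwa [Polynomial.taylor_eq_zero] at h1
  · rintro m ⟨j, k, hjk, hne⟩
    by_contra hlt
    push Not at hlt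
    rw [phi_taylorCoeff] at hne
    exact hne (jets_of_mem h j k (by omega))

lemma coeff_of_lt_mult {P : M2} {p : ℂ × ℂ} (j k : ℕ) (h : j + k < Harbourne.mult p P) :
    Harbourne.taylorCoeff p j k P = 0 := by
  by_contra hne
  have : Harbourne.mult p P ≤ j + k := Nat.sInf_le ⟨j, k, rfl, hne⟩
  omega

/-- the dimensions -/
lemma dims {P : R2} {A B : ℕ} {ι : Type} [Fintype ι] {xs vs : ι → ℂ} {m : ι → ℕ}
    (h : Aff P A B xs vs m) (hinj : Function.Injective (fun i => (xs i, vs i)))
    (Z : Finset (ℂ × ℂ)) (hZ : ∀ i, (xs i, vs i) ∈ Z) :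
    Harbourne.h0 Z (phi P) = 1 ∧
      ∑ i, (m i * m i + m i) + 2 ≤ 2 * Harbourne.h1 Z (phi P) + 2 * ((A + 1) * (B + 1)) := by
  classical
  have hP0 := h.irr.ne_zero
  set P' := phi P with hP'
  have hP'0 : P' ≠ 0 := by
    rw [hP']
    simpa using hP0
  have hdX : MvPolynomial.degreeOf 0 P' = A := by rw [hP', phi_deg0]; exact h.dX
  have hdY : MvPolynomial.degreeOf 1 P' = B := by rw [hP', phi_deg1]; exact h.dY
  set mu : ℂ × ℂ → ℕ := fun p => Harbourne.mult p P' with hmu
  set f := Harbourne.jetMap Z mu (MvPolynomial.degreeOf 0 P') (MvPolynomial.degreeOf 1 P') with hf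
  have hmult : ∀ i, m i ≤ mu (xs i, vs i) := fun i => le_mult hP0 (h.mem i)
  -- the kernel
  have hPbox : P' ∈ Harbourne.Box (MvPolynomial.degreeOf 0 P') (MvPolynomial.degreeOf 1 P') :=
    ⟨le_rfl, le_rfl⟩
  have hPker : (⟨P', hPbox⟩ : Harbourne.Box (MvPolynomial.degreeOf 0 P')
      (MvPolynomial.degreeOf 1 P')) ∈ LinearMap.ker f := by
    rw [LinearMap.mem_ker]
    funext p jk
    exact coeff_of_lt_mult (P := P') (p := p) jk.1.1 jk.1.2 jk.2
  have hker : ∀ Q : LinearMap.ker f, ∃ t : ℂ, t • (⟨⟨P', hPbox⟩, hPker⟩ : LinearMap.ker f) = Q := by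
    rintro ⟨⟨Q, hQb⟩, hQ⟩
    rw [LinearMap.mem_ker] at hQ
    obtain ⟨Q0, rfl⟩ := phi.surjective Q
    have hQb' := hQb
    rw [phi_box, hdX, hdY] at hQb'
    obtain ⟨t, ht⟩ := h.uniq Q0 hQb' (fun i => by
      apply mem_of_jets
      intro j k hjk
      rw [← phi_taylorCoeff]
      exact congrFun (congrFun hQ ⟨(xs i, vs i), hZ i⟩) ⟨(j, k), lt_of_lt_of_le hjk (hmult i)⟩)
    refine ⟨t, ?_⟩
    apply Subtype.ext
    apply Subtype.ext
    show t • P' = phi Q0
    rw [ht, map_mul, Polynomial.Bivariate.equivMvPolynomial_C_C, MvPolynomial.smul_eq_C_mul]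
  have hk1 : Module.finrank ℂ (LinearMap.ker f) = 1 := by
    apply finrank_eq_one (⟨⟨P', hPbox⟩, hPker⟩ : LinearMap.ker f)
    · intro h0
      have h3 := congrArg (fun q : LinearMap.ker f =>
        ((q : Harbourne.Box (MvPolynomial.degreeOf 0 P') (MvPolynomial.degreeOf 1 P')) : M2)) h0
      exact hP'0 h3
    · exact hker
  refine ⟨hk1, ?_⟩
  -- the cokernel
  have inst : ∀ n : ℕ, Fintype {jk : ℕ × ℕ // jk.1 + jk.2 < n} := fun n => Fintype.ofFinite _
  have r1 := LinearMap.finrank_range_add_finrank_ker f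
  have r2 := Submodule.finrank_quotient_add_finrank (LinearMap.range f)
  have r3 := finrank_box (MvPolynomial.degreeOf 0 P') (MvPolynomial.degreeOf 1 P')
  have r4 := finrank_jets Z mu
  have r5 : ∑ i, Nat.card {jk : ℕ × ℕ // jk.1 + jk.2 < m i} ≤
      ∑ p ∈ Z, Nat.card {jk : ℕ × ℕ // jk.1 + jk.2 < mu p} := by
    calc ∑ i, Nat.card {jk : ℕ × ℕ // jk.1 + jk.2 < m i}
        ≤ ∑ i, Nat.card {jk : ℕ × ℕ // jk.1 + jk.2 < mu (xs i, vs i)} :=
          Finset.sum_le_sum fun i _ => card_mono (hmult i)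
      _ = ∑ p ∈ Finset.univ.image (fun i => (xs i, vs i)),
            Nat.card {jk : ℕ × ℕ // jk.1 + jk.2 < mu p} := by
          rw [Finset.sum_image (fun a _ b _ hab => hinj hab)]
      _ ≤ _ := Finset.sum_le_sum_of_subset (by
          intro p hp
          rw [Finset.mem_image] at hp
          obtain ⟨i, _, rfl⟩ := hp
          exact hZ i)
  have r6 : ∑ i, (m i * m i + m i) = 2 * ∑ i, Nat.card {jk : ℕ × ℕ // jk.1 + jk.2 < m i} := by
    rw [Finset.mul_sum]
    exact Finset.sum_congr rfl fun i _ => (two_card _).symm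
  have r7 : Harbourne.h1 Z P' =
      Module.finrank ℂ (Harbourne.Jets Z mu ⧸ LinearMap.range f) := rfl
  rw [r6, r7]
  rw [hdX, hdY] at r3
  have r8 : Module.finrank ℂ (Harbourne.Box (MvPolynomial.degreeOf 0 P')
      (MvPolynomial.degreeOf 1 P')) ≤ (A + 1) * (B + 1) := by
    rw [hdX, hdY]
    exact r3
  omega

end

end Pool.Agent.W512.Harb
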