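import Mathlib
import Pool.Agent.W512.HJ

set_option autoImplicit false

namespace Pool.Agent.W512.Harb

open Pool.Agent.W512

noncomputable section

lemma exists_lambda (r : ℕ → Polynomial ℂ) (hr : ∀ n, r n ≠ 0) (s : Finset ℂ) :
    ∃ l : ℂ, (∀ n, (r n).eval l ≠ 0) ∧ l ∉ s := by
  classical
  have hc : (⋃ n, ((r n).roots.toFinset : Set ℂ) ∪ (s : Set ℂ)).Countable :=
    Set.countable_iUnion fun n => (Finset.countable_toSet _).union (Finset.countable_toSet _)
  obtain ⟨l, hl⟩ := (hc.dense_compl ℝ).nonempty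
  simp only [Set.mem_compl_iff, Set.mem_iUnion, Set.mem_union, not_exists, not_or] at hl
  refine ⟨l, fun n h => (hl n).1 ?_, fun h => (hl 0).2 h⟩
  rw [Finset.mem_coe, Multiset.mem_toFinset, Polynomial.mem_roots (hr n)]
  exact h

lemma pts_inj {l : ℂ} (ss : Fin 4 ⊕ Fin 4 → ℂ)
    (hss : ∀ i, ss i ^ 2 = (Sum.elim ev ex : Fin 4 ⊕ Fin 4 → ℂ) i - l) (h0 : ∀ i, ss i ≠ 0) :
    Function.Injective (fun i : (Fin 4 ⊕ Fin 4) ⊕ (Fin 4 ⊕ Fin 4) =>
      ((Sum.elim (Sum.elim ex ev) (Sum.elim ex ev) i : ℂ), (Sum.elim ss (fun i => - ss i) i : ℂ))) := by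
  have key : ∀ i j : Fin 4 ⊕ Fin 4, (Sum.elim ex ev i : ℂ) = Sum.elim ex ev j →
      (Sum.elim ev ex i : ℂ) = Sum.elim ev ex j → i = j := by
    rintro (i | i) (j | j) h1 h2
    · simp only [Sum.elim_inl] at h1 h2
      by_contra hne
      exact ev_inj (fun h => hne (by rw [h])) h2
    · simp only [Sum.elim_inl, Sum.elim_inr] at h1 h2
      exact absurd h1 (ev_ne_ex j i)
    · simp only [Sum.elim_inl, Sum.elim_inr] at h1 h2
      exact absurd h1.symm (ev_ne_ex i j)
    · simp only [Sum.elim_inr] at h1 h2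
      by_contra hne
      exact ev_inj (fun h => hne (by rw [h])) h1
  have sq : ∀ i j : Fin 4 ⊕ Fin 4, ss i ^ 2 = ss j ^ 2 →
      (Sum.elim ev ex i : ℂ) = Sum.elim ev ex j := by
    intro i j h
    rw [hss, hss] at h
    exact sub_left_injective h
  rintro (i | i) (j | j) h
  · simp only [Sum.elim_inl, Prod.mk.injEq] at h
    rw [key i j h.1 (sq i j (by rw [h.2]))]
  · simp only [Sum.elim_inl, Sum.elim_inr, Prod.mk.injEq] at h
    exfalso
    have := key i j h.1 (sq i j (by rw [h.2, neg_sq]))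
    subst this
    have h2 : ss i + ss i = 0 := by linear_combination h.2
    exact h0 i (by linear_combination (1/2 : ℂ) * h2)
  · simp only [Sum.elim_inl, Sum.elim_inr, Prod.mk.injEq] at h
    exfalso
    have := key i j h.1 (sq i j (by rw [← h.2, neg_sq]))
    subst this
    have h2 : ss i + ss i = 0 := by linear_combination -h.2
    exact h0 i (by linear_combination (1/2 : ℂ) * h2)
  · simp only [Sum.elim_inr, Prod.mk.injEq, neg_inj] at h
    rw [key i j h.1 (sq i j (by rw [h.2]))]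

theorem main : ∃ Z : Finset (ℂ × ℂ), Z.card = 16 ∧ ∀ n : ℕ, ∃ P : MvPolynomial (Fin 2) ℂ,
    Irreducible P ∧ Harbourne.h0 Z P = 1 ∧ n ≤ Harbourne.h1 Z P := by
  classical
  choose F A B u w hF hn hA using fun n : ℕ => exists_good (max n 2)
  have hA2 : ∀ n, 2 ≤ A n := fun n => (le_max_right _ _).trans (hA n)
  have haff := fun n => (hF n).aff (hA2 n)
  have hgen := fun n => generic (dh (F n)) (haff n).irr (by
    rw [(haff n).dX]
    have := hA2 n
    omega)
  choose r hr0 hr using hgen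
  obtain ⟨l, hl, hls⟩ := exists_lambda r hr0
    (Finset.univ.image (Sum.elim ev ex : Fin 4 ⊕ Fin 4 → ℂ))
  have hroot : ∀ i : Fin 4 ⊕ Fin 4, ∃ z : ℂ, z ^ 2 = (Sum.elim ev ex : Fin 4 ⊕ Fin 4 → ℂ) i - l :=
    fun i => IsAlgClosed.exists_pow_nat_eq _ (by norm_num)
  choose ss hss using hroot
  have hss0 : ∀ i, ss i ≠ 0 := by
    intro i h
    apply hls
    have h1 := hss i
    rw [h] at h1
    rw [Finset.mem_image]
    exact ⟨i, Finset.mem_univ _, by linear_combination -h1⟩
  have hinj := pts_inj ss hss hss0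
  refine ⟨Finset.univ.image (fun i : (Fin 4 ⊕ Fin 4) ⊕ (Fin 4 ⊕ Fin 4) =>
      ((Sum.elim (Sum.elim ex ev) (Sum.elim ex ev) i : ℂ),
        (Sum.elim ss (fun i => - ss i) i : ℂ))), ?_, ?_⟩
  · rw [Finset.card_image_of_injective _ hinj]
    simp
  · intro n
    have h1 := (haff n).translate l
    have hc : (Polynomial.taylor (Polynomial.C l) (dh (F n))).coeff 0 =
        (dh (F n)).eval (Polynomial.C l) := Polynomial.taylor_coeff_zero _ _
    obtain ⟨hsf, hun⟩ := hr n l (hl n)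
    have h2 := h1.cover ss hss hss0 (by rw [hc]; exact hsf) (by rw [hc]; exact hun)
    obtain ⟨h3, h4⟩ := dims h2 hinj _ (fun i => Finset.mem_image_of_mem _ (Finset.mem_univ i))
    refine ⟨_, ?_, h3, ?_⟩
    · exact (MulEquiv.irreducible_iff phi).2 h2.irr
    · refine le_trans ((le_max_left n 2).trans (hA n)) ?_
      have e1 := (hn n).lin
      have e2 := (hn n).quad
      have e3 : ∑ i : (Fin 4 ⊕ Fin 4) ⊕ (Fin 4 ⊕ Fin 4),
          ((Sum.elim (Sum.elim (u n) (w n)) (Sum.elim (u n) (w n)) i : ℕ) *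
            (Sum.elim (Sum.elim (u n) (w n)) (Sum.elim (u n) (w n)) i : ℕ) +
            (Sum.elim (Sum.elim (u n) (w n)) (Sum.elim (u n) (w n)) i : ℕ)) =
          2 * ((∑ i, u n i ^ 2 + ∑ i, w n i ^ 2) + (∑ i, u n i + ∑ i, w n i)) := by
        simp only [Fintype.sum_sum_type, Sum.elim_inl, Sum.elim_inr, Finset.sum_add_distrib, pow_two]
        ring
      rw [e3, e2] at h4
      have e4 : 2 * ((A n + 1) * (2 * B n + 1)) = 2 * (2 * A n * B n) + 2 * A n + 4 * B n + 2 := by
        ring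
      rw [e4] at h4
      omega

end

end Pool.Agent.W512.Harb
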