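import Mathlib

/-!
# The surface of Ramanujam and once-punctured curves

Let `C` be the cuspidal plane cubic `y = x³ - 5x²` and let `Q` be the smooth conic
`y² + 15xy + 55x² - 5y - 32x = 0`.  On `C`, with the parameter `x = t`, the equation of `Q` becomes
`t (t - 2)⁵ = 0`.  So the two curves meet in two points: in the origin `r = (0, 0)` with multiplicity
one and in `p = (2, -12)` with multiplicity five; the cusp of `C` lies at infinity, outside of `Q`.
Let `F` be the blow-up of the projective plane in `r`, let `C'` and `Q'` be the strict transforms of
`C` and of `Q`.  The surface `X = F \ (C' ∪ Q')` is the surface of Ramanujam; it is smooth,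
affine, contractible and of logarithmic general type.

The divisor `C' + Q'` is ample, of class `5 L - 2 E`, where `L` is the class of a line and `E` is the
exceptional curve.  The sections of its `n`-th multiple are the polynomials of degree at most `5 n`
which vanish in the origin to the order `2 n` at least.  They are the sums of the products of `n`
monomials `x ^ i * y ^ j` with `2 ≤ i + j ≤ 5`.  So the coordinate ring of `X` is generated by the
functions `x ^ i * y ^ j / (c * q)` with `2 ≤ i + j ≤ 5`, where `c` and `q` are the equations of `C`
and of `Q`.
-/

set_option autoImplicit false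

namespace Pool.Agent.W512.Ramanujam

open MvPolynomial

noncomputable section

/-- The equation of the cuspidal cubic `C`. -/
def cubic : MvPolynomial (Fin 2) ℂ := X 1 - X 0 ^ 3 + 5 * X 0 ^ 2

/-- The equation of the conic `Q`. -/
def conic : MvPolynomial (Fin 2) ℂ := X 1 ^ 2 + 15 * X 0 * X 1 + 55 * X 0 ^ 2 - 5 * X 1 - 32 * X 0

/-- The coordinate ring of the surface of Ramanujam: the subalgebra of the field of the rational
functions in two variables that is generated by the functions `x ^ i * y ^ j / (c * q)` with
`2 ≤ i + j ≤ 5`, where `c = 0` and `q = 0` are the cubic and the conic. -/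
def coordinateRing : Subalgebra ℂ (FractionRing (MvPolynomial (Fin 2) ℂ)) :=
  Algebra.adjoin ℂ {f | ∃ i j : ℕ, 2 ≤ i + j ∧ i + j ≤ 5 ∧
    f = algebraMap _ _ (X 0 ^ i * X 1 ^ j : MvPolynomial (Fin 2) ℂ) /
      algebraMap _ _ (cubic * conic)}

/-- The points at infinity of the normalization of the affine curve with the coordinate ring `B`: the
valuation rings of the function field that contain `ℂ` but do not contain `B`.  They correspond to the
points of the smooth projective model of the curve which do not lie over the affine curve. -/
def pointsAtInfinity (B : Type) [CommRing B] [IsDomain B] [Algebra ℂ B] :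
    Set (ValuationSubring (FractionRing B)) :=
  {V | (∀ z : ℂ, algebraMap B (FractionRing B) (algebraMap ℂ B z) ∈ V) ∧
    ∃ b : B, algebraMap B (FractionRing B) b ∉ V}

/-- The affine curve with the coordinate ring `B` is a once-punctured curve: its normalization is a
smooth projective curve without one point. -/
def OncePunctured (B : Type) [CommRing B] [IsDomain B] [Algebra ℂ B] : Prop :=
  ∃! V : ValuationSubring (FractionRing B), V ∈ pointsAtInfinity B

/-- On the cubic `C`, with the parameter `x = t`, the equation of the conic `Q` is `t (t - 2)⁵`.  So
`C` and `Q` meet in `(0, 0)` with multiplicity one, and in `(2, -12)` with multiplicity five. -/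
lemma conic_on_cubic (t : ℂ) : eval ![t, t ^ 3 - 5 * t ^ 2] cubic = 0 ∧
    eval ![t, t ^ 3 - 5 * t ^ 2] conic = t * (t - 2) ^ 5 := by
  rw [cubic, conic]
  simp only [map_add, map_sub, map_mul, map_pow, map_ofNat, eval_X, Matrix.cons_val_zero,
    Matrix.cons_val_one]
  constructor <;> ring

end

end Pool.Agent.W512.Ramanujam
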