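import Mathlib
import Pool.Agent.W512.RB

set_option autoImplicit false

namespace Pool.Agent.W512.Ram

open MvPolynomial
open Pool.Agent.W512.Ramanujam (cubic conic)

noncomputable section

/-! ### polynomials on the lines through the origin and on the conic -/

/-- the restriction to the lines `y = (s - 6) x` -/
def lin : P →ₐ[ℂ] Polynomial (Polynomial ℂ) :=
  aeval ![Polynomial.X, Polynomial.C (Polynomial.X - 6) * Polynomial.X]

lemma lin_monomial (m : Fin 2 →₀ ℕ) (c : ℂ) :
    lin (monomial m c) =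
      Polynomial.monomial m.degree (Polynomial.C c * (Polynomial.X - 6) ^ (m 1)) := by
  rw [lin, aeval_monomial, Finsupp.prod_fintype _ _ (fun _ => pow_zero _), Finsupp.degree_eq_sum]
  simp only [Fin.prod_univ_two, Fin.sum_univ_two, mul_pow, Matrix.cons_val_zero,
    Matrix.cons_val_one, Matrix.cons_val_fin_one]
  rw [← Polynomial.C_mul_X_pow_eq_monomial, Polynomial.C_mul, Polynomial.C_pow, pow_add]
  have : (algebraMap ℂ (Polynomial (Polynomial ℂ))) c = Polynomial.C (Polynomial.C c) := rfl
  rw [this]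
  ring

/-- the component of degree `m` -/
def Hc (F : P) (m : ℕ) : Polynomial ℂ := (lin F).coeff m

lemma natDegree_X_sub_six_pow (n : ℕ) : ((Polynomial.X - 6 : Polynomial ℂ) ^ n).natDegree = n := by
  have h : (Polynomial.X - 6 : Polynomial ℂ) = Polynomial.X - Polynomial.C 6 := by
    rw [map_ofNat]
  rw [h, Polynomial.natDegree_pow, Polynomial.natDegree_X_sub_C, mul_one]

lemma monic_X_sub_six_pow (n : ℕ) : ((Polynomial.X - 6 : Polynomial ℂ) ^ n).Monic := by
  have h : (Polynomial.X - 6 : Polynomial ℂ) = Polynomial.X - Polynomial.C 6 := by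
    rw [map_ofNat]
  rw [h]
  exact (Polynomial.monic_X_sub_C _).pow n

lemma Hc_add (F G : P) (m : ℕ) : Hc (F + G) m = Hc F m + Hc G m := by
  rw [Hc, map_add, Polynomial.coeff_add]; rfl

lemma Hc_natDegree (F : P) (m : ℕ) : (Hc F m).natDegree ≤ m := by
  induction F using MvPolynomial.induction_on' with
  | add p q hp hq =>
    rw [Hc_add]
    exact (Polynomial.natDegree_add_le _ _).trans (max_le hp hq)
  | monomial n b =>
    rw [Hc, lin_monomial, Polynomial.coeff_monomial]
    split_ifs with h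
    · refine (Polynomial.natDegree_C_mul_le _ _).trans ?_
      rw [natDegree_X_sub_six_pow, ← h]
      exact Finsupp.le_degree 1 n
    · simp

lemma ray_eq_eval (s : ℂ) (F : P) (m : ℕ) :
    (ray ![1, s - 6] F).coeff m = (Hc F m).eval s := by
  have h : (ray ![1, s - 6] : P →ₐ[ℂ] Polynomial ℂ) =
      (Polynomial.mapAlgHom (Polynomial.aeval s)).comp lin := by
    apply MvPolynomial.algHom_ext
    intro i
    fin_cases i <;> simp [ray, lin]
  rw [h, AlgHom.comp_apply, Polynomial.coe_mapAlgHom, Polynomial.coeff_map]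
  rfl

lemma wt_eq_eval (s : ℂ) (F : P) (m : ℕ) :
    eval ![1, s - 6] ((wt 1 1 F).coeff m) = (Hc F m).eval s := by
  have h : (Polynomial.mapAlgHom (aeval ![1, s - 6] : P →ₐ[ℂ] ℂ)).comp (wt 1 1) =
      (Polynomial.mapAlgHom (Polynomial.aeval s)).comp lin := by
    apply MvPolynomial.algHom_ext
    intro i
    fin_cases i <;> simp [wt, lin]
  have h1 := congrArg (fun f : P →ₐ[ℂ] Polynomial ℂ => (f F).coeff m) h
  simp only [AlgHom.comp_apply, Polynomial.coe_mapAlgHom, Polynomial.coeff_map] at h1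
  have h2 : ((aeval ![1, s - 6] : P →ₐ[ℂ] ℂ) : P →+* ℂ) ((wt 1 1 F).coeff m) =
      eval ![1, s - 6] ((wt 1 1 F).coeff m) := by
    show aeval ![1, s - 6] ((wt 1 1 F).coeff m) = _
    rw [aeval_eq_eval]
  rw [← h2, h1]
  rfl

/-- the order in the origin -/
def ord (F : P) : ℕ := (wt 1 1 F).natTrailingDegree

lemma Hc_lt_ord (F : P) {m : ℕ} (hm : m < ord F) : Hc F m = 0 := by
  have h1 : (wt 1 1 F).coeff m = 0 := Polynomial.coeff_eq_zero_of_lt_natTrailingDegree hm
  apply Polynomial.funext
  intro s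
  rw [← wt_eq_eval, h1, map_zero, Polynomial.eval_zero]

lemma Hc_gt_deg (F : P) {m : ℕ} (hm : F.totalDegree < m) : Hc F m = 0 := by
  apply Polynomial.funext
  intro s
  rw [← ray_eq_eval, Polynomial.coeff_eq_zero_of_natDegree_lt ((natDegree_ray_le _ F).trans_lt hm),
    Polynomial.eval_zero]

lemma eval_line (F : P) (s x : ℂ) :
    eval ![x, (s - 6) * x] F = ∑ m ∈ Finset.Icc (ord F) F.totalDegree, (Hc F m).eval s * x ^ m := by
  have h1 : eval ![x, (s - 6) * x] F = (ray ![1, s - 6] F).eval x := by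
    rw [← Polynomial.coe_aeval_eq_eval, ray]
    have : ((Polynomial.aeval x : Polynomial ℂ →ₐ[ℂ] ℂ).comp
        (aeval (fun i => Polynomial.C ((![1, s - 6] : Fin 2 → ℂ) i) * Polynomial.X) :
          P →ₐ[ℂ] Polynomial ℂ)) = (aeval ![x, (s - 6) * x] : P →ₐ[ℂ] ℂ) := by
      apply MvPolynomial.algHom_ext
      intro i
      fin_cases i <;> simp
    have h2 := congrArg (fun f : P →ₐ[ℂ] ℂ => f F) this
    simp only [AlgHom.comp_apply] at h2
    rw [h2, aeval_eq_eval]
  rw [h1, Polynomial.eval_eq_sum_range' (n := F.totalDegree + 1)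
    (Nat.lt_succ_of_le (natDegree_ray_le _ F))]
  symm
  apply Finset.sum_subset_zero_on_sdiff
  · intro m hm
    rw [Finset.mem_Icc] at hm
    rw [Finset.mem_range]
    omega
  · intro m hm
    rw [Finset.mem_sdiff, Finset.mem_range, Finset.mem_Icc] at hm
    rw [ray_eq_eval, Hc_lt_ord F (by omega), Polynomial.eval_zero, zero_mul]
  · intro m hm
    rw [ray_eq_eval]

lemma coeff_wt (a b : ℕ) (F : P) (m : ℕ) (n : Fin 2 →₀ ℕ) :
    coeff n ((wt a b F).coeff m) = if a * n 0 + b * n 1 = m then coeff n F else 0 := by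
  induction F using MvPolynomial.induction_on' with
  | add p q hp hq =>
    rw [map_add, Polynomial.coeff_add, coeff_add, hp, hq, coeff_add]
    split_ifs <;> simp
  | monomial u c =>
    have h1 : wt a b (monomial u c) =
        Polynomial.monomial (a * u 0 + b * u 1) (monomial u c) := by
      rw [wt, aeval_monomial, Finsupp.prod_fintype _ _ (fun _ => pow_zero _)]
      simp only [Fin.prod_univ_two, Matrix.cons_val_zero, Matrix.cons_val_one,
        Matrix.cons_val_fin_one, mul_pow, ← pow_mul]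
      have h2 : (monomial u c : P) = C c * (X 0 ^ (u 0) * X 1 ^ (u 1)) := by
        rw [monomial_eq, Finsupp.prod_fintype _ _ (fun _ => pow_zero _), Fin.prod_univ_two]
      have h3 : (algebraMap ℂ (Polynomial P)) c = Polynomial.C (C c) := rfl
      rw [h2, ← Polynomial.C_mul_X_pow_eq_monomial, h3, pow_add]
      simp only [Polynomial.C_mul, Polynomial.C_pow]
      ring
    rw [h1, Polynomial.coeff_monomial]
    by_cases h : a * u 0 + b * u 1 = m
    · rw [if_pos h, coeff_monomial]
      by_cases h2 : u = n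
      · subst h2
        rw [if_pos rfl, if_pos h]
      · rw [if_neg h2, ite_self]
    · rw [if_neg h, coeff_zero, coeff_monomial]
      by_cases h2 : u = n
      · subst h2
        rw [if_neg h]
      · rw [if_neg h2, ite_self]

lemma ord_le {F : P} {n : Fin 2 →₀ ℕ} (hn : coeff n F ≠ 0) : ord F ≤ n.degree := by
  have h1 : (wt 1 1 F).coeff n.degree ≠ 0 := by
    intro h
    apply hn
    have h2 := coeff_wt 1 1 F n.degree n
    rw [h, coeff_zero, if_pos] at h2
    · exact h2.symm
    · rw [Finsupp.degree_eq_sum, Fin.sum_univ_two]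
      ring
  exact Polynomial.natTrailingDegree_le_of_ne_zero h1

/-! ### the conic -/

def rho : Polynomial ℂ := 5 * Polynomial.X + 2
def Del : Polynomial ℂ := Polynomial.X ^ 2 + 3 * Polynomial.X + 1

lemma rho_eval (s : ℂ) : rho.eval s = 5 * s + 2 := by simp [rho]
lemma Del_eval (s : ℂ) : Del.eval s = s ^ 2 + 3 * s + 1 := by simp [Del]

lemma rho_natDegree : rho.natDegree ≤ 1 := by
  rw [rho]
  compute_degree

lemma Del_natDegree : Del.natDegree ≤ 2 := by
  rw [Del]
  compute_degree

lemma rho_coeff : rho.coeff 1 = 5 := by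
  rw [rho, ← map_ofNat (Polynomial.C : ℂ →+* Polynomial ℂ) 5,
    ← map_ofNat (Polynomial.C : ℂ →+* Polynomial ℂ) 2]
  simp [Polynomial.coeff_C]

lemma Del_coeff : Del.coeff 2 = 1 := by
  rw [Del, ← map_ofNat (Polynomial.C : ℂ →+* Polynomial ℂ) 3]
  simp [Polynomial.coeff_X, Polynomial.coeff_one]

lemma rho_pow_natDegree (n : ℕ) : (rho ^ n).natDegree ≤ n := by
  have := Polynomial.natDegree_pow_le_of_le n rho_natDegree
  omega

lemma Del_pow_natDegree (n : ℕ) : (Del ^ n).natDegree ≤ 2 * n := by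
  have := Polynomial.natDegree_pow_le_of_le n Del_natDegree
  omega

lemma rho_pow_coeff (n : ℕ) : (rho ^ n).coeff n = 5 ^ n := by
  have := Polynomial.coeff_pow_of_natDegree_le (m := n) rho_natDegree
  rwa [mul_one, rho_coeff] at this

lemma Del_pow_coeff (n : ℕ) : (Del ^ n).coeff (2 * n) = 1 := by
  have := Polynomial.coeff_pow_of_natDegree_le (m := n) Del_natDegree
  rwa [mul_comm, Del_coeff, one_pow] at this

/-- the restriction to the conic -/
def G0 (F : P) : Polynomial ℂ :=
  ∑ m ∈ Finset.Icc (ord F) F.totalDegree,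
    Hc F m * rho ^ (m - ord F) * Del ^ (F.totalDegree - m)

lemma G0_eval (F : P) (s : ℂ) : (G0 F).eval s =
    ∑ m ∈ Finset.Icc (ord F) F.totalDegree,
      (Hc F m).eval s * (rho.eval s) ^ (m - ord F) * (Del.eval s) ^ (F.totalDegree - m) := by
  rw [G0, Polynomial.eval_finsetSum]
  simp only [Polynomial.eval_mul, Polynomial.eval_pow]

lemma G0_rel (F : P) {s : ℂ} (hs : Del.eval s ≠ 0) :
    (Del.eval s) ^ F.totalDegree *
      eval ![rho.eval s / Del.eval s, (s - 6) * (rho.eval s / Del.eval s)] F =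
    (rho.eval s) ^ ord F * (G0 F).eval s := by
  rw [eval_line, G0_eval, Finset.mul_sum, Finset.mul_sum]
  refine Finset.sum_congr rfl fun m hm => ?_
  rw [Finset.mem_Icc] at hm
  obtain ⟨a, ha⟩ : ∃ a, m = ord F + a := ⟨m - ord F, by omega⟩
  obtain ⟨b, hb⟩ : ∃ b, F.totalDegree = m + b := ⟨F.totalDegree - m, by omega⟩
  rw [show m - ord F = a by omega, show F.totalDegree - m = b by omega, hb, div_pow]
  rw [show rho.eval s ^ m = rho.eval s ^ ord F * rho.eval s ^ a by rw [ha, pow_add], pow_add]
  field_simp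

lemma G0_term_natDegree (F : P) {m : ℕ} (hm : m ∈ Finset.Icc (ord F) F.totalDegree) :
    (Hc F m * rho ^ (m - ord F) * Del ^ (F.totalDegree - m)).natDegree ≤
      2 * F.totalDegree - ord F := by
  rw [Finset.mem_Icc] at hm
  have h1 := Hc_natDegree F m
  have h2 := rho_pow_natDegree (m - ord F)
  have h3 := Del_pow_natDegree (F.totalDegree - m)
  have h4 : (Hc F m * rho ^ (m - ord F)).natDegree ≤ m + (m - ord F) :=
    Polynomial.natDegree_mul_le_of_le h1 h2
  refine (Polynomial.natDegree_mul_le_of_le h4 h3).trans ?_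
  omega

lemma G0_natDegree (F : P) : (G0 F).natDegree ≤ 2 * F.totalDegree - ord F :=
  Polynomial.natDegree_sum_le_of_forall_le _ _ (fun _ hm => G0_term_natDegree F hm)

lemma Hc_top (F : P) (m : ℕ) : (Hc F m).coeff m = (ray ![0, 1] F).coeff m := by
  induction F using MvPolynomial.induction_on' with
  | add p q hp hq =>
    rw [Hc_add, Polynomial.coeff_add, hp, hq, map_add, Polynomial.coeff_add]
  | monomial n c =>
    rw [Hc, lin_monomial, ray_monomial, Polynomial.coeff_monomial, Polynomial.coeff_monomial,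
      eval_monomial, Finsupp.prod_fintype _ _ (fun _ => pow_zero _), Fin.prod_univ_two]
    by_cases h : n.degree = m
    · rw [if_pos h, if_pos h, Polynomial.coeff_C_mul]
      rw [Finsupp.degree_eq_sum, Fin.sum_univ_two] at h
      by_cases h0 : n 0 = 0
      · have h1 : n 1 = m := by omega
        have h2 := (monic_X_sub_six_pow (n 1)).coeff_natDegree
        rw [natDegree_X_sub_six_pow] at h2
        rw [h0, ← h1, h2]
        simp
      · rw [Polynomial.coeff_eq_zero_of_natDegree_lt]
        · simp [h0]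
        · rw [natDegree_X_sub_six_pow]
          omega
    · rw [if_neg h, if_neg h]
      simp

lemma eval_05 (F : P) : eval ![0, 5] F =
    ∑ m ∈ Finset.Icc (ord F) F.totalDegree, (ray ![0, 1] F).coeff m * 5 ^ m := by
  have h1 : eval ![0, 5] F = (ray ![0, 1] F).eval 5 := by
    rw [← Polynomial.coe_aeval_eq_eval, ray]
    have : ((Polynomial.aeval 5 : Polynomial ℂ →ₐ[ℂ] ℂ).comp
        (aeval (fun i => Polynomial.C ((![0, 1] : Fin 2 → ℂ) i) * Polynomial.X) :
          P →ₐ[ℂ] Polynomial ℂ)) = (aeval ![0, 5] : P →ₐ[ℂ] ℂ) := by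
      apply MvPolynomial.algHom_ext
      intro i
      fin_cases i <;> simp
    have h2 := congrArg (fun f : P →ₐ[ℂ] ℂ => f F) this
    simp only [AlgHom.comp_apply] at h2
    rw [h2, aeval_eq_eval]
  rw [h1, Polynomial.eval_eq_sum_range' (n := F.totalDegree + 1)
    (Nat.lt_succ_of_le (natDegree_ray_le _ F))]
  symm
  apply Finset.sum_subset_zero_on_sdiff
  · intro m hm
    rw [Finset.mem_Icc] at hm
    rw [Finset.mem_range]
    omega
  · intro m hm
    rw [Finset.mem_sdiff, Finset.mem_range, Finset.mem_Icc] at hm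
    rw [← Hc_top, Hc_lt_ord F (by omega), Polynomial.coeff_zero, zero_mul]
  · intro m hm
    rfl

lemma G0_coeff (F : P) :
    5 ^ ord F * (G0 F).coeff (2 * F.totalDegree - ord F) = eval ![0, 5] F := by
  rw [eval_05, G0, Polynomial.finsetSum_coeff, Finset.mul_sum]
  refine Finset.sum_congr rfl fun m hm => ?_
  rw [Finset.mem_Icc] at hm
  have h1 := Hc_natDegree F m
  have h2 := rho_pow_natDegree (m - ord F)
  have h3 := Del_pow_natDegree (F.totalDegree - m)
  have h4 : (Hc F m * rho ^ (m - ord F)).natDegree ≤ m + (m - ord F) :=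
    Polynomial.natDegree_mul_le_of_le h1 h2
  have e : 2 * F.totalDegree - ord F = (m + (m - ord F)) + 2 * (F.totalDegree - m) := by omega
  rw [e, Polynomial.coeff_mul_add_eq_of_natDegree_le h4 h3,
    Polynomial.coeff_mul_add_eq_of_natDegree_le h1 h2, Del_pow_coeff, rho_pow_coeff, Hc_top,
    mul_one]
  have e2 : (5 : ℂ) ^ m = 5 ^ ord F * 5 ^ (m - ord F) := by
    rw [← pow_add]
    congr 1
    omega
  rw [e2]
  ring

end

end Pool.Agent.W512.Ram
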