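import Mathlib
import Pool.Agent.W512.RC

set_option autoImplicit false

namespace Pool.Agent.W512.Ram

open MvPolynomial
open Pool.Agent.W512.Ramanujam (cubic conic)

noncomputable section

/-! ### the cubic -/

/-- the restriction to the cubic -/
def cub : P →ₐ[ℂ] Polynomial ℂ := aeval ![Polynomial.X, Polynomial.X ^ 3 - 5 * Polynomial.X ^ 2]

lemma cub_monomial (n : Fin 2 →₀ ℕ) (c : ℂ) : cub (monomial n c) =
    Polynomial.C c * ((Polynomial.X + Polynomial.C (-5)) ^ (n 1) *
      Polynomial.X ^ (n 0 + 2 * n 1)) := by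
  rw [cub, aeval_monomial, Finsupp.prod_fintype _ _ (fun _ => pow_zero _)]
  simp only [Fin.prod_univ_two, Matrix.cons_val_zero, Matrix.cons_val_one, Matrix.cons_val_fin_one]
  have h1 : (Polynomial.X ^ 3 - 5 * Polynomial.X ^ 2 : Polynomial ℂ) =
      (Polynomial.X + Polynomial.C (-5)) * Polynomial.X ^ 2 := by
    rw [map_neg, map_ofNat]
    ring
  rw [h1, mul_pow, pow_add, pow_mul, Polynomial.algebraMap_eq]
  ring

lemma ray01_monomial (n : Fin 2 →₀ ℕ) (c : ℂ) (d : ℕ) :
    (ray ![0, 1] (monomial n c)).coeff d = if n 0 = 0 ∧ n 1 = d then c else 0 := by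
  rw [ray_monomial, Polynomial.coeff_monomial, eval_monomial,
    Finsupp.prod_fintype _ _ (fun _ => pow_zero _), Fin.prod_univ_two, Finsupp.degree_eq_sum,
    Fin.sum_univ_two]
  by_cases h0 : n 0 = 0
  · rw [h0]
    by_cases h1 : n 1 = d
    · simp [h1]
    · simp [h1]
  · rw [if_neg (show ¬ (n 0 = 0 ∧ n 1 = d) from fun h => h0 h.1)]
    simp [h0]

lemma cub_mon_coeff (n : Fin 2 →₀ ℕ) (c : ℂ) {d : ℕ} (h : n.degree ≤ d) :
    (cub (monomial n c)).coeff (3 * d) = (ray ![0, 1] (monomial n c)).coeff d := by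
  rw [Finsupp.degree_eq_sum, Fin.sum_univ_two] at h
  rw [cub_monomial, ray01_monomial, Polynomial.coeff_C_mul, Polynomial.coeff_mul_X_pow',
    if_pos (by omega), Polynomial.coeff_X_add_C_pow]
  split_ifs with h1
  · obtain ⟨h1, h2⟩ := h1
    rw [h1, h2, show 3 * d - (0 + 2 * d) = d by omega, Nat.sub_self, Nat.choose_self]
    simp
  · rw [Nat.choose_eq_zero_of_lt (by omega)]
    simp

lemma cub_mon_coeff' (n : Fin 2 →₀ ℕ) (c : ℂ) {d : ℕ} (h : n.degree ≤ d) (hd : 1 ≤ d) :
    (cub (monomial n c)).coeff (3 * d - 1) =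
      -5 * d * (ray ![0, 1] (monomial n c)).coeff d := by
  rw [Finsupp.degree_eq_sum, Fin.sum_univ_two] at h
  rw [cub_monomial, ray01_monomial, Polynomial.coeff_C_mul, Polynomial.coeff_mul_X_pow',
    if_pos (by omega), Polynomial.coeff_X_add_C_pow]
  split_ifs with h1
  · obtain ⟨h1, h2⟩ := h1
    obtain ⟨e, rfl⟩ : ∃ e, d = e + 1 := ⟨d - 1, by omega⟩
    rw [h1, h2, show 3 * (e + 1) - 1 - (0 + 2 * (e + 1)) = e by omega,
      show e + 1 - e = 1 by omega, Nat.choose_succ_self_right]
    ring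
  · rw [Nat.choose_eq_zero_of_lt (by omega)]
    simp

lemma cub_mon_natDegree (n : Fin 2 →₀ ℕ) (c : ℂ) {d : ℕ} (h : n.degree ≤ d) :
    (cub (monomial n c)).natDegree ≤ 3 * d := by
  rw [Finsupp.degree_eq_sum, Fin.sum_univ_two] at h
  rw [Polynomial.natDegree_le_iff_coeff_eq_zero]
  intro N hN
  rw [cub_monomial, Polynomial.coeff_C_mul, Polynomial.coeff_mul_X_pow',
    if_pos (by omega), Polynomial.coeff_X_add_C_pow, Nat.choose_eq_zero_of_lt (by omega)]
  simp

lemma cub_coeff (F : P) : (cub F).coeff (3 * F.totalDegree) =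
    (ray ![0, 1] F).coeff F.totalDegree := by
  set d := F.totalDegree with hd
  rw [F.as_sum, map_sum, map_sum, Polynomial.finsetSum_coeff, Polynomial.finsetSum_coeff]
  exact Finset.sum_congr rfl fun n hn => cub_mon_coeff n _ (le_totalDegree hn)

lemma cub_coeff' (F : P) (h : 1 ≤ F.totalDegree) : (cub F).coeff (3 * F.totalDegree - 1) =
    -5 * F.totalDegree * (ray ![0, 1] F).coeff F.totalDegree := by
  set d := F.totalDegree with hd
  rw [F.as_sum, map_sum, map_sum, Polynomial.finsetSum_coeff, Polynomial.finsetSum_coeff,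
    Finset.mul_sum]
  exact Finset.sum_congr rfl fun n hn => cub_mon_coeff' n _ (le_totalDegree hn) h

lemma cub_natDegree (F : P) : (cub F).natDegree ≤ 3 * F.totalDegree := by
  set d := F.totalDegree with hd
  rw [F.as_sum, map_sum]
  exact Polynomial.natDegree_sum_le_of_forall_le _ _
    (fun n hn => cub_mon_natDegree n _ (le_totalDegree hn))

lemma cub_low (F : P) : (∀ j < ord F, (cub F).coeff j = 0) ∧
    (cub F).coeff (ord F) = (Hc F (ord F)).eval 6 := by
  set k := ord F with hk
  have hsupp : ∀ n ∈ F.support, k ≤ n.degree := fun n hn => ord_le (mem_support_iff.1 hn)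
  constructor
  · intro j hj
    rw [F.as_sum, map_sum, Polynomial.finsetSum_coeff]
    refine Finset.sum_eq_zero fun n hn => ?_
    have h1 := hsupp n hn
    rw [Finsupp.degree_eq_sum, Fin.sum_univ_two] at h1
    rw [cub_monomial, Polynomial.coeff_C_mul, Polynomial.coeff_mul_X_pow', if_neg (by omega),
      mul_zero]
  · rw [← ray_eq_eval, F.as_sum, map_sum, map_sum, Polynomial.finsetSum_coeff,
      Polynomial.finsetSum_coeff]
    refine Finset.sum_congr rfl fun n hn => ?_
    have h1 := hsupp n hn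
    rw [Finsupp.degree_eq_sum, Fin.sum_univ_two] at h1
    rw [cub_monomial, Polynomial.coeff_C_mul, Polynomial.coeff_mul_X_pow', ray_monomial,
      Polynomial.coeff_monomial, eval_monomial, Finsupp.prod_fintype _ _ (fun _ => pow_zero _),
      Fin.prod_univ_two, Finsupp.degree_eq_sum, Fin.sum_univ_two]
    by_cases h2 : n 1 = 0
    · rw [h2]
      by_cases h3 : n 0 = k
      · simp [h3]
      · rw [if_neg (by omega), if_neg (by omega), mul_zero]
    · rw [if_neg (by omega)]
      simp [h2]

/-- a polynomial with one root -/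
lemma one_root {p : Polynomial ℂ} {r : ℂ} (h : ∀ z, p.eval z = 0 → z = r) :
    p = Polynomial.C p.leadingCoeff * (Polynomial.X - Polynomial.C r) ^ p.natDegree := by
  have h0 : p.Splits := IsAlgClosed.splits p
  have h1 := h0.eq_prod_roots
  have h2 : p.roots = Multiset.replicate p.natDegree r := by
    rw [Multiset.eq_replicate]
    refine ⟨h0.natDegree_eq_card_roots.symm, ?_⟩
    intro z hz
    exact h z (Polynomial.isRoot_of_mem_roots hz)
  rw [h2, Multiset.map_replicate, Multiset.prod_replicate] at h1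
  exact h1

end

end Pool.Agent.W512.Ram
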