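import Mathlib
import Pool.Agent.W512.RF

set_option autoImplicit false

namespace Pool.Agent.W512.Ram

open MvPolynomial
open Pool.Agent.W512.Ramanujam (cubic conic)

noncomputable section

variable {K : Type} [Field K] [Algebra ℂ K] {θ : P →ₐ[ℂ] K} {h : P}

/-- the place at infinity is the point `p` -/
structure Cen (θ : P →ₐ[ℂ] K) (V : ValuationSubring K) : Prop where
  cst : Cst V
  inf : Inf θ V
  x : At V (θ (X 0)) 2
  y : At V (θ (X 1)) (-12)

lemma exists_cen (H : Hyp θ h) (hx : θ (X 0) ≠ 0) (hy : θ (X 1) ≠ 0) :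
    ∃ V : ValuationSubring K, Cen θ V := by
  obtain ⟨V, hV, h1⟩ := exQ H hx
  obtain ⟨V', hV', h2⟩ := exC H hy
  have e := H.uniq V V' hV hV' (h1.inf H hx hV) (h2.inf H hx hy hV')
  subst e
  obtain ⟨h3, h4⟩ := center hx hy hV h2 h1
  exact ⟨V, hV, h1.inf H hx hV, h3, h4⟩

lemma cen_of_Q (H : Hyp θ h) (hx : θ (X 0) ≠ 0) (hy : θ (X 1) ≠ 0) {V : ValuationSubring K}
    (hV : Cst V) (hQ : OnQ θ V) : Cen θ V := by
  obtain ⟨V', hV'⟩ := exists_cen H hx hy
  have e := H.uniq V V' hV hV'.cst (hQ.inf H hx hV) hV'.inf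
  rwa [e]

lemma cen_of_C (H : Hyp θ h) (hx : θ (X 0) ≠ 0) (hy : θ (X 1) ≠ 0) {V : ValuationSubring K}
    (hV : Cst V) (hC : OnC θ V) : Cen θ V := by
  obtain ⟨V', hV'⟩ := exists_cen H hx hy
  have e := H.uniq V V' hV hV'.cst (hC.inf H hx hy hV) hV'.inf
  rwa [e]

lemma st_a (H : Hyp θ h) (hx : θ (X 0) ≠ 0) (hy : θ (X 1) ≠ 0) :
    (ray ![0, 1] h).coeff h.totalDegree ≠ 0 := by
  intro h0
  obtain ⟨V, hV, h1, h2⟩ := cusp_place H hy h0
  have h3 := cen_of_C H hx hy hV (Or.inr (Or.inl ⟨h1, h2⟩))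
  exact h3.y.not_inv hV hy h2

lemma st_b (H : Hyp θ h) (hx : θ (X 0) ≠ 0) (hy : θ (X 1) ≠ 0) {t : ℂ}
    (ht : (cub h).eval t = 0) : t = 0 ∨ t = 2 := by
  by_cases h0 : t = 0
  · exact Or.inl h0
  · right
    obtain ⟨V, hV, h1, h2⟩ := cub_place H ht
    have h3 := cen_of_C H hx hy hV (Or.inl ⟨t, h0, h1, h2⟩)
    exact h1.unique hV h3.x

lemma st_c (H : Hyp θ h) (hx : θ (X 0) ≠ 0) (hy : θ (X 1) ≠ 0) :
    (Hc h (ord h)).eval 6 ≠ 0 := by
  intro h0
  rw [← wt_eq_eval, sub_self] at h0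
  obtain ⟨V, hV, h2, -, h3⟩ := place_wt H.ker 1 1 one_pos one_pos 0 hx h0
  rw [pow_one, pow_one, pow_one] at h3
  have h4 := cen_of_C H hx hy hV (Or.inr (Or.inr ⟨h2, h3⟩))
  have := h2.unique hV h4.x
  norm_num at this

lemma st_d (H : Hyp θ h) (hx : θ (X 0) ≠ 0) (hy : θ (X 1) ≠ 0) {s : ℂ}
    (hs : (G0 h).eval s = 0) : s = 0 := by
  obtain ⟨V, hV, h1, h2⟩ := root_place H hx hs
  have h3 := cen_of_Q H hx hy hV h1
  rcases h2 with ⟨-, h4⟩ | ⟨-, h4⟩ | ⟨h4, h5⟩
  · exact (h3.x.not_inv hV hx h4).elim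
  · have := h4.unique hV h3.x
    norm_num at this
  · have e1 := h4.unique hV h3.x
    have e2 := h5.unique hV h3.y
    rw [e1] at e2
    linear_combination (1 / 2 : ℂ) * e2

lemma st_e (H : Hyp θ h) (hx : θ (X 0) ≠ 0) (hy : θ (X 1) ≠ 0) :
    (G0 h).coeff (2 * h.totalDegree - ord h) ≠ 0 := by
  intro h0
  have h1 := G0_coeff h
  rw [h0, mul_zero] at h1
  obtain ⟨V, hV, h3⟩ := place_affine H.ker h1.symm
  have h4 := cen_of_Q H hx hy hV (Or.inl ⟨0, 5, Or.inr (by norm_num), h3 0, h3 1, by norm_num⟩)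
  have h5 : At V (θ (X 0)) 0 := h3 0
  have := h5.unique hV h4.x
  norm_num at this

/-- the class of the curve and the restrictions to the cubic and to the conic -/
lemma class_eq (H : Hyp θ h) (hx : θ (X 0) ≠ 0) (hy : θ (X 1) ≠ 0) :
    1 ≤ ord h ∧ h.totalDegree = 2 * ord h ∧
    (∃ c : ℂ, c ≠ 0 ∧ cub h = Polynomial.C c * Polynomial.X ^ ord h *
      (Polynomial.X - Polynomial.C 2) ^ (5 * ord h)) ∧
    (∃ c : ℂ, c ≠ 0 ∧ G0 h = Polynomial.C c * Polynomial.X ^ (3 * ord h)) := by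
  have hd := totalDegree_pos H
  have hkd : ord h ≤ h.totalDegree := by
    obtain ⟨n, hn⟩ := MvPolynomial.ne_zero_iff.1 H.irr.ne_zero
    exact (ord_le hn).trans (le_totalDegree (mem_support_iff.2 hn))
  obtain ⟨hl1, hl2⟩ := cub_low h
  have ha := st_a H hx hy
  have hc := st_c H hx hy
  -- the cubic
  have hdvd : Polynomial.X ^ ord h ∣ cub h := Polynomial.X_pow_dvd_iff.2 hl1
  obtain ⟨g, hg⟩ := hdvd
  have hg0 : g.eval 0 ≠ 0 := by
    rw [← hl2, hg, Polynomial.coeff_X_pow_mul', if_pos le_rfl, Nat.sub_self,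
      Polynomial.coeff_zero_eq_eval_zero] at hc
    exact hc
  have hgr : ∀ z, g.eval z = 0 → z = 2 := by
    intro z hz
    have h1 : (cub h).eval z = 0 := by rw [hg, Polynomial.eval_mul, hz, mul_zero]
    rcases st_b H hx hy h1 with h2 | h2
    · subst h2
      exact (hg0 hz).elim
    · exact h2
  have hg1 := one_root hgr
  have hgne : g ≠ 0 := by
    rintro rfl
    exact hg0 Polynomial.eval_zero
  have hnd : (cub h).natDegree = 3 * h.totalDegree := by
    apply le_antisymm (cub_natDegree h)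
    apply Polynomial.le_natDegree_of_ne_zero
    rw [cub_coeff]
    exact ha
  have hgnd : g.natDegree = 3 * h.totalDegree - ord h := by
    have h1 := congrArg Polynomial.natDegree hg
    rw [hnd, Polynomial.natDegree_mul (pow_ne_zero _ Polynomial.X_ne_zero) hgne,
      Polynomial.natDegree_X_pow] at h1
    omega
  have hlc : g.leadingCoeff = (ray ![0, 1] h).coeff h.totalDegree := by
    rw [← cub_coeff, ← hnd]
    show _ = (cub h).leadingCoeff
    rw [hg, Polynomial.leadingCoeff_mul, Polynomial.leadingCoeff_X_pow, one_mul]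
  have h2 := cub_coeff' h hd
  have h3 : (cub h).coeff (3 * h.totalDegree - 1) =
      g.leadingCoeff * (-2 * (3 * h.totalDegree - ord h : ℕ)) := by
    obtain ⟨n, hn⟩ : ∃ n, 3 * h.totalDegree - ord h = n + 1 :=
      ⟨3 * h.totalDegree - ord h - 1, by omega⟩
    have e : 3 * h.totalDegree - 1 = n + ord h := by omega
    rw [hg, e, mul_comm, Polynomial.coeff_mul_X_pow, hg1, hgnd, hn,
      Polynomial.leadingCoeff_C_mul_of_isUnit]
    · rw [(Polynomial.monic_X_sub_C _).pow _ |>.leadingCoeff, mul_one, Polynomial.coeff_C_mul,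
        sub_eq_add_neg, ← Polynomial.C_neg, Polynomial.coeff_X_add_C_pow,
        Nat.choose_succ_self_right, show n + 1 - n = 1 by omega]
      ring
    · rw [isUnit_iff_ne_zero]
      exact Polynomial.leadingCoeff_ne_zero.2 hgne
  rw [h3, hlc] at h2
  have h4 : ((-2 : ℂ) * (3 * h.totalDegree - ord h : ℕ)) = -5 * h.totalDegree := by
    apply mul_left_cancel₀ ha
    rw [h2]
    ring
  rw [Nat.cast_sub (by omega)] at h4
  push_cast at h4
  have h5 : ((h.totalDegree : ℕ) : ℂ) = ((2 * ord h : ℕ) : ℂ) := by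
    push_cast
    linear_combination -h4
  have h6 : h.totalDegree = 2 * ord h := by exact_mod_cast h5
  have h7 : 1 ≤ ord h := by omega
  refine ⟨h7, h6, ⟨g.leadingCoeff, Polynomial.leadingCoeff_ne_zero.2 hgne, ?_⟩, ?_⟩
  · have e : 5 * ord h = g.natDegree := by
      rw [hgnd, h6]
      omega
    rw [hg, e]
    conv_lhs => rw [hg1]
    ring
  · have h8 := one_root (p := G0 h) (r := 0) (fun z hz => st_d H hx hy hz)
    have h9 : (G0 h).natDegree = 3 * ord h := by
      have h10 := G0_natDegree h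
      have h11 := Polynomial.le_natDegree_of_ne_zero (st_e H hx hy)
      omega
    rw [h9, Polynomial.C_0, sub_zero] at h8
    refine ⟨(G0 h).leadingCoeff, ?_, h8⟩
    intro h0
    rw [h0, Polynomial.C_0, zero_mul] at h8
    apply st_e H hx hy
    rw [h8, Polynomial.coeff_zero]

end

end Pool.Agent.W512.Ram
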