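import Mathlib
import Pool.Agent.W512.RG

set_option autoImplicit false

namespace Pool.Agent.W512.Ram

open MvPolynomial
open Pool.Agent.W512.Ramanujam (cubic conic)

noncomputable section

variable {K : Type} [Field K] [Algebra ℂ K] {θ : P →ₐ[ℂ] K} {h : P}

/-! ### local coordinates in the point `p` -/

/-- the change of coordinates -/
def tau : P →ₐ[ℂ] P := aeval ![X 0 + 2, X 1 + X 0 ^ 3 + X 0 ^ 2 - 8 * X 0 - 12]

/-- the inverse change of coordinates -/
def tau' : P →ₐ[ℂ] P := aeval ![X 0 - 2, cubic]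

lemma tau_X1 : tau' (X 1) = cubic := by simp [tau']
lemma tau_X0 : tau' (X 0) = X 0 - 2 := by simp [tau']
lemma tau_x1 : tau (X 1) = X 1 + X 0 ^ 3 + X 0 ^ 2 - 8 * X 0 - 12 := by simp [tau]
lemma tau_x0 : tau (X 0) = X 0 + 2 := by simp [tau]

lemma tau_tau' (F : P) : tau (tau' F) = F := by
  have : tau.comp tau' = AlgHom.id ℂ P := by
    apply MvPolynomial.algHom_ext
    intro i
    fin_cases i
    · show tau (tau' (X 0)) = X 0
      rw [tau_X0, map_sub, map_ofNat, tau_x0]
      ring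
    · show tau (tau' (X 1)) = X 1
      rw [tau_X1, cubic]
      simp only [map_add, map_sub, map_mul, map_pow, map_ofNat, tau_x0, tau_x1]
      ring
  exact congrArg (fun f : P →ₐ[ℂ] P => f F) this

lemma tau'_tau (F : P) : tau' (tau F) = F := by
  have : tau'.comp tau = AlgHom.id ℂ P := by
    apply MvPolynomial.algHom_ext
    intro i
    fin_cases i
    · show tau' (tau (X 0)) = X 0
      rw [tau_x0, map_add, map_ofNat, tau_X0]
      ring
    · show tau' (tau (X 1)) = X 1
      rw [tau_x1]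
      simp only [map_add, map_sub, map_mul, map_pow, map_ofNat, tau_X0, tau_X1]
      rw [cubic]
      ring
  exact congrArg (fun f : P →ₐ[ℂ] P => f F) this

lemma ker_tau (H : Hyp θ h) (F : P) (hF : (θ.comp tau') F = 0) : tau h ∣ F := by
  obtain ⟨g, hg⟩ := H.ker (tau' F) hF
  refine ⟨tau g, ?_⟩
  rw [← tau_tau' F, hg, map_mul]

lemma comp_X0 (θ : P →ₐ[ℂ] K) : (θ.comp tau') (X 0) = θ (X 0) - 2 := by
  rw [AlgHom.comp_apply, tau_X0, map_sub, map_ofNat]

lemma comp_X1 (θ : P →ₐ[ℂ] K) : (θ.comp tau') (X 1) = θ cubic := by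
  rw [AlgHom.comp_apply, tau_X1]

lemma X0_ne_two (H : Hyp θ h) (hx : θ (X 0) ≠ 0) (hy : θ (X 1) ≠ 0) : θ (X 0) - 2 ≠ 0 := by
  intro h0
  obtain ⟨h1, h2, -, -⟩ := class_eq H hx hy
  have h3 : θ (X 0 - 2) = 0 := by rw [map_sub, map_ofNat]; exact h0
  obtain ⟨g, hg⟩ := H.ker _ h3
  have hne : (X 0 - 2 : P) ≠ 0 := by
    intro h4
    have h5 := congrArg (eval (fun _ => (0 : ℂ))) h4
    rw [map_sub, map_ofNat, eval_X, map_zero] at h5
    norm_num at h5
  rw [hg] at hne
  have h6 := mul_ne_zero_iff.1 hne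
  have h7 := MvPolynomial.totalDegree_mul_of_isDomain h6.1 h6.2
  rw [← hg] at h7
  have h8 : (X 0 - 2 : P).totalDegree ≤ 1 := by
    refine (totalDegree_sub _ _).trans (max_le (totalDegree_X _).le ?_)
    have : (2 : P) = C 2 := by rw [map_ofNat]
    rw [this, totalDegree_C]
    exact Nat.zero_le _
  omega

/-- a place over the point `p` is the unique place at infinity -/
lemma local_unique (H : Hyp θ h) {V V' : ValuationSubring K} (hV' : Cen θ V') (hV : Cst V)
    (h0 : At V ((θ.comp tau') (X 0)) 0) (h1 : At V ((θ.comp tau') (X 1)) 0) : V = V' := by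
  rw [comp_X0] at h0
  rw [comp_X1, theta_cubic] at h1
  have hx : At V (θ (X 0)) 2 := by
    have := h0.add (At.ofNat hV 2)
    rwa [sub_add_cancel, zero_add] at this
  have hy : At V (θ (X 1)) (-12) := by
    have h2 := (h1.add (hx.pow hV 3)).sub ((At.ofNat hV 5).mul hV (hx.pow hV 2))
    convert h2 using 1
    · ring
    · norm_num
  refine H.uniq V V' hV hV'.cst (inf_affine H hV hx hy (Or.inl (by norm_num)) ?_) hV'.inf
  rw [map_mul, eval_cubic]
  norm_num

/-- the slopes of two places agree -/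
lemma slope_unique {V : ValuationSubring K} (hV : Cst V) {x y : K} (hx : x ≠ 0)
    (hx1 : At V x 0) {a b a' b' : ℕ} {c c' : ℂ} (hc : c ≠ 0) (hc' : c' ≠ 0)
    (h1 : At V (y ^ a / x ^ b) c) (h2 : At V (y ^ a' / x ^ b') c') : a * b' = a' * b := by
  have hv0 : 0 < V.valuation x := zero_lt_iff.2 ((Valuation.ne_zero_iff _).2 hx)
  have hv1 : V.valuation x < 1 := hx1.val_lt_one
  have e1 : V.valuation y ^ a = V.valuation x ^ b := by
    have := h1.val_eq_one hV hc
    rw [map_div₀, map_pow, map_pow, div_eq_one_iff_eq (pow_ne_zero _ hv0.ne')] at this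
    exact this
  have e2 : V.valuation y ^ a' = V.valuation x ^ b' := by
    have := h2.val_eq_one hV hc'
    rw [map_div₀, map_pow, map_pow, div_eq_one_iff_eq (pow_ne_zero _ hv0.ne')] at this
    exact this
  have e3 : V.valuation x ^ (b * a') = V.valuation x ^ (b' * a) := by
    rw [pow_mul, ← e1, pow_mul, ← e2, ← pow_mul, ← pow_mul, mul_comm]
  rcases lt_trichotomy (b * a') (b' * a) with h | h | h
  · exact absurd e3 (pow_lt_pow_right_of_lt_one₀ hv0 hv1 h).ne'
  · rw [mul_comm a b', mul_comm a' b]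
    exact h.symm
  · exact absurd e3 (pow_lt_pow_right_of_lt_one₀ hv0 hv1 h).ne

/-! ### restriction to `x = 1` -/

/-- the substitution `x = 1` -/
def res1 : P →ₐ[ℂ] Polynomial ℂ := aeval ![1, Polynomial.X]

lemma res1_monomial (n : Fin 2 →₀ ℕ) (c : ℂ) : res1 (monomial n c) = Polynomial.monomial (n 1) c := by
  rw [res1, aeval_monomial, Finsupp.prod_fintype _ _ (fun _ => pow_zero _)]
  simp only [Fin.prod_univ_two, Matrix.cons_val_zero, Matrix.cons_val_one, Matrix.cons_val_fin_one,
    one_pow, one_mul]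
  rw [Polynomial.algebraMap_eq, Polynomial.C_mul_X_pow_eq_monomial]

lemma res1_coeff (T : P) (n : Fin 2 →₀ ℕ) (hn : ∀ n' ∈ T.support, n' 1 = n 1 → n' = n) :
    (res1 T).coeff (n 1) = coeff n T := by
  conv_lhs => rw [T.as_sum, map_sum, Polynomial.finsetSum_coeff]
  rw [Finset.sum_eq_single n]
  · rw [res1_monomial, Polynomial.coeff_monomial, if_pos rfl]
  · intro n' hn' hne
    rw [res1_monomial, Polynomial.coeff_monomial, if_neg]
    exact fun h => hne (hn n' hn' h)
  · intro h0
    rw [notMem_support_iff.1 h0, res1_monomial]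
    simp

lemma res1_eval (T : P) (y : ℂ) : (res1 T).eval y = eval ![1, y] T := by
  rw [← Polynomial.coe_aeval_eq_eval, res1]
  have : ((Polynomial.aeval y : Polynomial ℂ →ₐ[ℂ] ℂ).comp
      (aeval ![1, Polynomial.X] : P →ₐ[ℂ] Polynomial ℂ)) = (aeval ![1, y] : P →ₐ[ℂ] ℂ) := by
    apply MvPolynomial.algHom_ext
    intro i
    fin_cases i <;> simp
  have h2 := congrArg (fun f : P →ₐ[ℂ] ℂ => f T) this
  simp only [AlgHom.comp_apply] at h2
  rw [h2, aeval_eq_eval]

lemma two_terms {q : Polynomial ℂ} {i j : ℕ} (hi : q.coeff i ≠ 0) (hj : q.coeff j ≠ 0)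
    (hij : i ≠ j) : ∃ y : ℂ, y ≠ 0 ∧ q.eval y = 0 := by
  by_contra hcon
  push Not at hcon
  have h1 := one_root (p := q) (r := 0) (fun z hz => by
    by_contra hne
    exact hcon z hne hz)
  rw [Polynomial.C_0, sub_zero] at h1
  rw [h1, Polynomial.coeff_C_mul_X_pow] at hi hj
  apply hij
  by_contra hne
  by_cases h2 : i = q.natDegree
  · rw [if_neg (by omega)] at hj
    exact hj rfl
  · rw [if_neg h2] at hi
    exact hi rfl

/-- an edge of the Newton polygon gives a place -/
lemma edge_place (H : Hyp θ h) (hx : θ (X 0) ≠ 0) (hy : θ (X 1) ≠ 0) {V : ValuationSubring K}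
    (hV : Cen θ V) {a b w : ℕ} (ha : 0 < a) (hb : 0 < b)
    (hw : ∀ n ∈ (tau h).support, w ≤ a * n 0 + b * n 1) (n n' : Fin 2 →₀ ℕ)
    (hn : n ∈ (tau h).support) (hn' : n' ∈ (tau h).support) (h1 : a * n 0 + b * n 1 = w)
    (h2 : a * n' 0 + b * n' 1 = w) (hne : n 1 ≠ n' 1) :
    ∃ c : ℂ, c ≠ 0 ∧ At V ((θ.comp tau') (X 1) ^ a / (θ.comp tau') (X 0) ^ b) c := by
  set T := (wt a b (tau h)).coeff w with hT
  have hTc : ∀ m, coeff m T = if a * m 0 + b * m 1 = w then coeff m (tau h) else 0 :=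
    fun m => coeff_wt a b _ _ _
  have hTn : coeff n T ≠ 0 := by
    rw [hTc, if_pos h1]
    exact mem_support_iff.1 hn
  have hTn' : coeff n' T ≠ 0 := by
    rw [hTc, if_pos h2]
    exact mem_support_iff.1 hn'
  have hT0 : T ≠ 0 := by
    intro h0
    rw [h0, coeff_zero] at hTn
    exact hTn rfl
  have hlow : ∀ m < w, (wt a b (tau h)).coeff m = 0 := by
    intro m hm
    ext u
    rw [coeff_wt, coeff_zero]
    split_ifs with h3
    · by_contra h4
      have := hw u (mem_support_iff.2 h4)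
      omega
    · rfl
  have htr : (wt a b (tau h)).natTrailingDegree = w := by
    apply le_antisymm (Polynomial.natTrailingDegree_le_of_ne_zero hT0)
    apply Polynomial.le_natTrailingDegree
    · intro h0
      apply hT0
      rw [hT, h0, Polynomial.coeff_zero]
    · exact hlow
  have htc : (wt a b (tau h)).trailingCoeff = T := by
    rw [Polynomial.trailingCoeff, htr]
  have huniq : ∀ m, coeff m T ≠ 0 → ∀ m' ∈ T.support, m' 1 = m 1 → m' = m := by
    intro m hm m' hm' he
    rw [mem_support_iff] at hm'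
    rw [hTc] at hm hm'
    have e1 : a * m 0 + b * m 1 = w := by
      by_contra h0
      rw [if_neg h0] at hm
      exact hm rfl
    have e2 : a * m' 0 + b * m' 1 = w := by
      by_contra h0
      rw [if_neg h0] at hm'
      exact hm' rfl
    rw [he] at e2
    have e3 : a * m' 0 = a * m 0 := by omega
    ext i
    fin_cases i
    · exact Nat.eq_of_mul_eq_mul_left ha e3
    · exact he
  have hq1 := res1_coeff T n (huniq n hTn)
  have hq2 := res1_coeff T n' (huniq n' hTn')
  obtain ⟨y, hy0, hy1⟩ := two_terms (q := res1 T) (i := n 1) (j := n' 1) (by rw [hq1]; exact hTn)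
    (by rw [hq2]; exact hTn') hne
  rw [res1_eval] at hy1
  have hx0 : (θ.comp tau') (X 0) ≠ 0 := by
    rw [comp_X0]
    exact X0_ne_two H hx hy
  obtain ⟨V', hV', e1, e2, e3⟩ := place_wt (ker_tau H) a b ha hb y hx0 (by rw [htc]; exact hy1)
  have e := local_unique H hV hV' e1 e2
  subst e
  exact ⟨y ^ a, pow_ne_zero _ hy0, e3⟩

end

end Pool.Agent.W512.Ram
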