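import Mathlib
import Pool.Agent.W512.RI

set_option autoImplicit false

namespace Pool.Agent.W512.Ram

open MvPolynomial
open Pool.Agent.W512.Ramanujam (cubic conic)

noncomputable section

/-- the restriction to a line, with values in an algebra -/
lemma aeval_line {R : Type} [CommRing R] [Algebra ℂ R] (s x : R) (F : P) :
    aeval ![x, (s - 6) * x] F =
      ∑ m ∈ Finset.Icc (ord F) F.totalDegree, Polynomial.aeval s (Hc F m) * x ^ m := by
  have h1 : aeval ![x, (s - 6) * x] F =
      (lin F).eval₂ ((Polynomial.aeval s : Polynomial ℂ →ₐ[ℂ] R) : Polynomial ℂ →+* R) x := by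
    have : ((aeval ![x, (s - 6) * x] : P →ₐ[ℂ] R) : P →+* R) =
        (Polynomial.eval₂RingHom
          ((Polynomial.aeval s : Polynomial ℂ →ₐ[ℂ] R) : Polynomial ℂ →+* R) x).comp
          (lin : P →+* Polynomial (Polynomial ℂ)) := by
      apply MvPolynomial.ringHom_ext
      · intro r
        have e : (lin : P →+* Polynomial (Polynomial ℂ)) (C r) =
            Polynomial.C (Polynomial.C r) := by
          show lin (C r) = _
          rw [lin, aeval_C]
          rfl
        rw [RingHom.comp_apply, e]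
        simp
      · intro i
        fin_cases i
        · simp [lin]
        · simp [lin, map_ofNat (Polynomial.aeval s : Polynomial ℂ →ₐ[ℂ] R) 6]
    exact congrArg (fun f : P →+* R => f F) this
  have h2 : (lin F).natDegree < F.totalDegree + 1 := by
    rw [Nat.lt_succ_iff, Polynomial.natDegree_le_iff_coeff_eq_zero]
    intro N hN
    exact Hc_gt_deg F hN
  rw [h1, Polynomial.eval₂_eq_sum_range' _ h2]
  symm
  apply Finset.sum_subset_zero_on_sdiff
  · intro m hm
    rw [Finset.mem_Icc] at hm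
    rw [Finset.mem_range]
    omega
  · intro m hm
    rw [Finset.mem_sdiff, Finset.mem_range, Finset.mem_Icc] at hm
    have : (lin F).coeff m = 0 := Hc_lt_ord F (by omega)
    rw [this, map_zero, zero_mul]
  · intro m hm
    rfl

/-! ### power series -/

abbrev O := PowerSeries ℂ

abbrev sg : O := PowerSeries.X

/-- a polynomial as a power series -/
def cs : Polynomial ℂ →ₐ[ℂ] O := Polynomial.aeval sg

lemma cs_X : cs Polynomial.X = sg := Polynomial.aeval_X _

lemma cs_eq (p : Polynomial ℂ) : cs p = (p : O) := by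
  have : cs = Polynomial.coeToPowerSeries.algHom (R := ℂ) ℂ := by
    apply Polynomial.algHom_ext
    rw [cs_X]
    simp
  rw [this]
  simp

lemma cs_coeff (p : Polynomial ℂ) (n : ℕ) : PowerSeries.coeff n (cs p) = p.coeff n := by
  rw [cs_eq, Polynomial.coeff_coe]

def r : O := cs rho
def D : O := cs Del

lemma r_eq : r = 5 * sg + 2 := by
  rw [r, rho]
  simp only [map_add, map_mul, map_ofNat, cs_X]

lemma D_eq : D = sg ^ 2 + 3 * sg + 1 := by
  rw [D, Del]
  simp only [map_add, map_mul, map_pow, map_ofNat, map_one, cs_X]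

lemma r_const : PowerSeries.constantCoeff r = (2 : ℂ) := by
  rw [r_eq, map_add, map_mul, PowerSeries.constantCoeff_X, mul_zero, zero_add, map_ofNat]

lemma D_const : PowerSeries.constantCoeff D = (1 : ℂ) := by
  rw [D_eq]
  simp

def Di : O := D⁻¹

lemma D_mul_Di : D * Di = 1 := PowerSeries.mul_inv_cancel _ (by rw [D_const]; exact one_ne_zero)

lemma Di_const : PowerSeries.constantCoeff Di = (1 : ℂ) := by
  have h := congrArg PowerSeries.constantCoeff D_mul_Di
  rw [map_mul, D_const, one_mul, map_one] at h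
  exact h

lemma r_unit : IsUnit r := by
  rw [PowerSeries.isUnit_iff_constantCoeff, r_const]
  exact (isUnit_iff_ne_zero).2 (by norm_num)

lemma D_unit : IsUnit D := IsUnit.of_mul_eq_one _ D_mul_Di

lemma Di_unit : IsUnit Di := IsUnit.of_mul_eq_one _ (by rw [mul_comm]; exact D_mul_Di)

/-- the first coordinate on the conic -/
def xq : O := r * Di
/-- the first local coordinate on the conic -/
def Xq : O := xq - 2
/-- the second local coordinate on the conic -/
def Yq : O := (sg - 6) * xq - xq ^ 3 + 5 * xq ^ 2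
/-- the derivative of the second local coordinate -/
def dq : O := (sg - 6) - 3 * xq ^ 2 + 10 * xq

lemma Xq_eq : Xq = sg * (-(1 + 2 * sg) * Di) := by
  have h := D_mul_Di
  have h1 := r_eq
  have h2 := D_eq
  rw [Xq, xq]
  calc r * Di - 2 = (r - 2 * D) * Di + 2 * (D * Di - 1) := by ring
    _ = (r - 2 * D) * Di := by rw [h]; ring
    _ = _ := by rw [h1, h2]; ring

lemma Yq_eq : Yq = sg ^ 5 * (r * Di ^ 3) := by
  have h := D_mul_Di
  have h1 := r_eq
  have h2 := D_eq
  have e : Yq = (((sg - 6) * D ^ 2 - r ^ 2 + 5 * r * D) * (r * Di ^ 3)) +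
      (1 - D * Di) * ((sg - 6) * r * Di * (1 + D * Di) + 5 * r ^ 2 * Di ^ 2) := by
    rw [Yq, xq]
    ring
  rw [e, h]
  have e2 : (sg - 6) * D ^ 2 - r ^ 2 + 5 * r * D = sg ^ 5 := by
    rw [h1, h2]
    ring
  rw [e2]
  ring

lemma dq_eq : dq * D ^ 2 = sg ^ 5 + 25 * sg ^ 3 + 35 * sg ^ 2 + 15 * sg + 2 := by
  have h := D_mul_Di
  have h1 := r_eq
  have h2 := D_eq
  have e : dq * D ^ 2 = (sg - 6) * D ^ 2 - 3 * r ^ 2 * (D * Di) ^ 2 + 10 * r * D * (D * Di) := by
    rw [dq, xq]
    ring
  rw [e, h, h1, h2]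
  ring

/-- the first order neighbourhood of the conic -/
def Psi : P →ₐ[ℂ] Polynomial O :=
  aeval ![Polynomial.X + Polynomial.C xq,
    (Polynomial.C sg - 6) * (Polynomial.X + Polynomial.C xq)]

def T0 (F : P) : O := (Psi F).coeff 0
def T1 (F : P) : O := (Psi F).coeff 1

lemma aeval_C_sg (p : Polynomial ℂ) :
    Polynomial.aeval (Polynomial.C sg : Polynomial O) p = Polynomial.C (cs p) := by
  have : (Polynomial.aeval (Polynomial.C sg : Polynomial O) : Polynomial ℂ →ₐ[ℂ] Polynomial O) =
      ((Algebra.ofId O (Polynomial O)).restrictScalars ℂ).comp cs := by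
    apply Polynomial.algHom_ext
    rw [Polynomial.aeval_X, AlgHom.comp_apply, cs_X]
    rfl
  rw [this]
  rfl

lemma Psi_eq (F : P) : Psi F = ∑ m ∈ Finset.Icc (ord F) F.totalDegree,
    Polynomial.C (cs (Hc F m)) * (Polynomial.X + Polynomial.C xq) ^ m := by
  rw [Psi, aeval_line]
  simp only [aeval_C_sg]

lemma T0_eq (F : P) : T0 F = ∑ m ∈ Finset.Icc (ord F) F.totalDegree,
    cs (Hc F m) * xq ^ m := by
  rw [T0, Psi_eq, Polynomial.finsetSum_coeff]
  refine Finset.sum_congr rfl fun m _ => ?_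
  rw [Polynomial.coeff_C_mul, Polynomial.coeff_X_add_C_pow, Nat.choose_zero_right, Nat.sub_zero,
    Nat.cast_one, mul_one]

lemma T1_eq (F : P) : xq * T1 F = ∑ m ∈ Finset.Icc (ord F) F.totalDegree,
    m * (cs (Hc F m) * xq ^ m) := by
  rw [T1, Psi_eq, Polynomial.finsetSum_coeff, Finset.mul_sum]
  refine Finset.sum_congr rfl fun m _ => ?_
  rw [Polynomial.coeff_C_mul, Polynomial.coeff_X_add_C_pow, Nat.choose_one_right]
  rcases m with _ | m
  · simp
  · rw [Nat.add_sub_cancel, pow_succ]
    ring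

/-- the second polynomial on the conic -/
def G1 (F : P) : Polynomial ℂ :=
  ∑ m ∈ Finset.Icc (ord F) F.totalDegree,
    (m : Polynomial ℂ) * (Hc F m * rho ^ (m - ord F) * Del ^ (F.totalDegree - m))

lemma term_eq {F : P} {m : ℕ} (hm : m ∈ Finset.Icc (ord F) F.totalDegree) :
    D ^ F.totalDegree * (cs (Hc F m) * xq ^ m) =
      r ^ ord F * cs (Hc F m * rho ^ (m - ord F) * Del ^ (F.totalDegree - m)) := by
  rw [Finset.mem_Icc] at hm
  rw [map_mul, map_mul, map_pow, map_pow, ← r, ← D, xq, mul_pow]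
  obtain ⟨a, ha⟩ : ∃ a, m = ord F + a := ⟨m - ord F, by omega⟩
  obtain ⟨b, hb⟩ : ∃ b, F.totalDegree = m + b := ⟨F.totalDegree - m, by omega⟩
  rw [show m - ord F = a by omega, show F.totalDegree - m = b by omega, hb, pow_add]
  have h1 : D ^ m * Di ^ m = 1 := by rw [← mul_pow, D_mul_Di, one_pow]
  have h2 : r ^ m = r ^ ord F * r ^ a := by rw [← pow_add, ← ha]
  calc D ^ m * D ^ b * (cs (Hc F m) * (r ^ m * Di ^ m))
      = (D ^ m * Di ^ m) * (D ^ b * cs (Hc F m) * r ^ m) := by ring
    _ = _ := by rw [h1, h2]; ring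

lemma T0_G0 (F : P) : D ^ F.totalDegree * T0 F = r ^ ord F * cs (G0 F) := by
  rw [T0_eq, G0, map_sum, Finset.mul_sum, Finset.mul_sum]
  exact Finset.sum_congr rfl fun m hm => term_eq hm

lemma T1_G1 (F : P) : D ^ F.totalDegree * (xq * T1 F) = r ^ ord F * cs (G1 F) := by
  rw [T1_eq, G1, map_sum, Finset.mul_sum, Finset.mul_sum]
  refine Finset.sum_congr rfl fun m hm => ?_
  rw [map_mul, map_natCast, mul_left_comm, term_eq hm]
  ring

lemma G1_natDegree (F : P) : (G1 F).natDegree ≤ 2 * F.totalDegree - ord F := by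
  apply Polynomial.natDegree_sum_le_of_forall_le
  intro m hm
  have h1 := G0_term_natDegree F hm
  rw [← Polynomial.C_eq_natCast]
  exact (Polynomial.natDegree_C_mul_le _ _).trans h1

lemma G1_rho (F : P) {s : ℂ} (hs : rho.eval s = 0) : (G1 F).eval s = ord F * (G0 F).eval s := by
  rw [G1, G0, Polynomial.eval_finsetSum, Polynomial.eval_finsetSum, Finset.mul_sum]
  refine Finset.sum_congr rfl fun m hm => ?_
  rw [Finset.mem_Icc] at hm
  rw [Polynomial.eval_mul, Polynomial.eval_natCast]
  by_cases h : m = ord F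
  · rw [h]
  · rw [Polynomial.eval_mul, Polynomial.eval_mul, Polynomial.eval_pow, hs,
      zero_pow (by omega)]
    ring

lemma G1_Del (F : P) {s : ℂ} (hs : Del.eval s = 0) :
    (G1 F).eval s = F.totalDegree * (G0 F).eval s := by
  rw [G1, G0, Polynomial.eval_finsetSum, Polynomial.eval_finsetSum, Finset.mul_sum]
  refine Finset.sum_congr rfl fun m hm => ?_
  rw [Finset.mem_Icc] at hm
  rw [Polynomial.eval_mul, Polynomial.eval_natCast]
  by_cases h : m = F.totalDegree
  · rw [h]
  · rw [Polynomial.eval_mul, Polynomial.eval_mul, Polynomial.eval_pow, Polynomial.eval_pow, hs,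
      zero_pow (n := F.totalDegree - m) (by omega)]
    ring

end

end Pool.Agent.W512.Ram
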