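import Mathlib
import Pool.Agent.W512.RJ

set_option autoImplicit false

namespace Pool.Agent.W512.Ram

open MvPolynomial
open Pool.Agent.W512.Ramanujam (cubic conic)

noncomputable section

variable {K : Type} [Field K] [Algebra ℂ K] {θ : P →ₐ[ℂ] K} {h : P}

/-- the first order neighbourhood of the conic in the local coordinates -/
def Psi' : P →ₐ[ℂ] Polynomial O := Psi.comp tau'

lemma Psi'_tau (F : P) : Psi' (tau F) = Psi F := by rw [Psi', AlgHom.comp_apply, tau'_tau]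

lemma Psi'_X0 : Psi' (X 0) = Polynomial.X + Polynomial.C Xq := by
  rw [Psi', AlgHom.comp_apply, tau_X0, map_sub, map_ofNat, Psi, aeval_X, Xq, map_sub, map_ofNat]
  simp only [Matrix.cons_val_zero]
  ring

lemma Psi_X0 : Psi (X 0) = Polynomial.X + Polynomial.C xq := by
  rw [Psi, aeval_X]
  rfl

lemma Psi_X1 : Psi (X 1) = (Polynomial.C sg - 6) * (Polynomial.X + Polynomial.C xq) := by
  rw [Psi, aeval_X]
  rfl

lemma Psi'_X1 : Psi' (X 1) = Polynomial.C Yq + Polynomial.C dq * Polynomial.X +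
    Polynomial.C (5 - 3 * xq) * Polynomial.X ^ 2 - Polynomial.X ^ 3 := by
  rw [Psi', AlgHom.comp_apply, tau_X1, cubic]
  simp only [map_add, map_sub, map_mul, map_pow, map_ofNat]
  rw [Psi_X0, Psi_X1, Yq, dq]
  simp only [map_add, map_sub, map_mul, map_pow, map_ofNat]
  ring

lemma Psi'_X1_coeff : (Psi' (X 1)).coeff 0 = Yq ∧ (Psi' (X 1)).coeff 1 = dq := by
  rw [Psi'_X1]
  constructor
  · rw [Polynomial.coeff_sub, Polynomial.coeff_add, Polynomial.coeff_add, Polynomial.coeff_C_zero,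
      Polynomial.coeff_C_mul_X, Polynomial.coeff_C_mul_X_pow, Polynomial.coeff_X_pow]
    norm_num
  · rw [Polynomial.coeff_sub, Polynomial.coeff_add, Polynomial.coeff_add, Polynomial.coeff_C,
      Polynomial.coeff_C_mul_X, Polynomial.coeff_C_mul_X_pow, Polynomial.coeff_X_pow]
    norm_num

lemma Psi'_X0_coeff : (Psi' (X 0)).coeff 0 = Xq ∧ (Psi' (X 0)).coeff 1 = 1 := by
  rw [Psi'_X0]
  constructor <;> simp [Polynomial.coeff_C]

lemma coeff_zero_pow' (p : Polynomial O) (n : ℕ) : (p ^ n).coeff 0 = p.coeff 0 ^ n := by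
  rw [Polynomial.coeff_zero_eq_eval_zero, Polynomial.eval_pow, Polynomial.coeff_zero_eq_eval_zero]

lemma coeff_one_pow' (p : Polynomial O) (n : ℕ) :
    (p ^ n).coeff 1 = n * p.coeff 0 ^ (n - 1) * p.coeff 1 := by
  induction n with
  | zero =>
    rw [pow_zero, Polynomial.coeff_one]
    simp
  | succ n ih =>
    rw [pow_succ, Polynomial.mul_coeff_one, coeff_zero_pow', ih, Nat.add_sub_cancel]
    rcases n with _ | n
    · simp
    · rw [Nat.add_sub_cancel]
      push_cast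
      ring

lemma coeff_one_pow (p : Polynomial O) (n : ℕ) :
    p.coeff 0 * (p ^ n).coeff 1 = n * p.coeff 0 ^ n * p.coeff 1 := by
  rw [coeff_one_pow']
  rcases n with _ | n
  · simp
  · rw [Nat.add_sub_cancel, pow_succ]
    ring

lemma Psi'_monomial (n : Fin 2 →₀ ℕ) (c : ℂ) : Psi' (monomial n c) =
    Polynomial.C (algebraMap ℂ O c) * (Psi' (X 0) ^ n 0 * Psi' (X 1) ^ n 1) := by
  have h2 : (monomial n c : P) = C c * (X 0 ^ (n 0) * X 1 ^ (n 1)) := by
    rw [monomial_eq, Finsupp.prod_fintype _ _ (fun _ => pow_zero _), Fin.prod_univ_two]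
  rw [h2, map_mul, map_mul, map_pow, map_pow]
  congr 1
  rw [← MvPolynomial.algebraMap_eq, AlgHom.commutes]
  rfl

lemma mon0 (n : Fin 2 →₀ ℕ) (c : ℂ) : (Psi' (monomial n c)).coeff 0 =
    algebraMap ℂ O c * (Xq ^ n 0 * Yq ^ n 1) := by
  rw [Psi'_monomial, Polynomial.coeff_C_mul, Polynomial.mul_coeff_zero, coeff_zero_pow',
    coeff_zero_pow', Psi'_X0_coeff.1, Psi'_X1_coeff.1]

lemma mon1 (n : Fin 2 →₀ ℕ) (c : ℂ) : Yq * (Psi' (monomial n c)).coeff 1 =
    algebraMap ℂ O c * (n 0 * Xq ^ (n 0 - 1) * Yq ^ (n 1 + 1) +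
      n 1 * dq * (Xq ^ n 0 * Yq ^ n 1)) := by
  rw [Psi'_monomial, Polynomial.coeff_C_mul, Polynomial.mul_coeff_one, coeff_zero_pow',
    coeff_zero_pow', coeff_one_pow' (Psi' (X 0)), Psi'_X0_coeff.1, Psi'_X0_coeff.2,
    Psi'_X1_coeff.1]
  have h1 := coeff_one_pow (Psi' (X 1)) (n 1)
  rw [Psi'_X1_coeff.1, Psi'_X1_coeff.2] at h1
  calc Yq * (algebraMap ℂ O c * (Xq ^ n 0 * (Psi' (X 1) ^ n 1).coeff 1 +
        n 0 * Xq ^ (n 0 - 1) * 1 * Yq ^ n 1))
      = algebraMap ℂ O c * (Xq ^ n 0 * (Yq * (Psi' (X 1) ^ n 1).coeff 1) +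
        n 0 * Xq ^ (n 0 - 1) * (Yq ^ n 1 * Yq)) := by ring
    _ = _ := by rw [h1, ← pow_succ]; ring

lemma Xq_dvd (a : ℕ) : sg ^ a ∣ Xq ^ a := by
  apply pow_dvd_pow_of_dvd
  rw [Xq_eq]
  exact Dvd.intro _ rfl

lemma Yq_dvd (b : ℕ) : sg ^ (5 * b) ∣ Yq ^ b := by
  rw [pow_mul]
  apply pow_dvd_pow_of_dvd
  rw [Yq_eq]
  exact Dvd.intro _ rfl

lemma XY_dvd (a b : ℕ) : sg ^ (a + 5 * b) ∣ Xq ^ a * Yq ^ b := by
  rw [pow_add]
  exact mul_dvd_mul (Xq_dvd a) (Yq_dvd b)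

lemma key1 (N w : ℕ) (F : P) (h1 : ∀ n ∈ F.support, n 0 = 0 ∨ w ≤ n 0 - 1 + 5 * (n 1 + 1))
    (h2 : ∀ n ∈ F.support, n 1 = N ∨ w ≤ n 0 + 5 * n 1) :
    sg ^ w ∣ Yq * (Psi' F).coeff 1 - N * dq * (Psi' F).coeff 0 := by
  rw [F.as_sum, map_sum, Polynomial.finsetSum_coeff, Polynomial.finsetSum_coeff, Finset.mul_sum,
    Finset.mul_sum, ← Finset.sum_sub_distrib]
  apply Finset.dvd_sum
  intro n hn
  rw [mon1, mon0]
  have e : algebraMap ℂ O (coeff n F) * (n 0 * Xq ^ (n 0 - 1) * Yq ^ (n 1 + 1) +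
      n 1 * dq * (Xq ^ n 0 * Yq ^ n 1)) -
      N * dq * (algebraMap ℂ O (coeff n F) * (Xq ^ n 0 * Yq ^ n 1)) =
      algebraMap ℂ O (coeff n F) * n 0 * (Xq ^ (n 0 - 1) * Yq ^ (n 1 + 1)) +
      algebraMap ℂ O (coeff n F) * dq * ((n 1 - N) * (Xq ^ n 0 * Yq ^ n 1)) := by ring
  rw [e]
  apply dvd_add
  · rcases h1 n hn with h3 | h3
    · rw [h3]
      simp
    · exact Dvd.dvd.mul_left ((pow_dvd_pow _ h3).trans (XY_dvd _ _)) _
  · apply Dvd.dvd.mul_left
    rcases h2 n hn with h3 | h3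
    · rw [h3, sub_self, zero_mul]
      exact dvd_zero _
    · exact Dvd.dvd.mul_left ((pow_dvd_pow _ h3).trans (XY_dvd _ _)) _

lemma key0 (w : ℕ) (F : P) (h1 : ∀ n ∈ F.support, w ≤ n 0 + 5 * n 1) :
    sg ^ w ∣ (Psi' F).coeff 0 := by
  rw [F.as_sum, map_sum, Polynomial.finsetSum_coeff]
  apply Finset.dvd_sum
  intro n hn
  rw [mon0]
  exact Dvd.dvd.mul_left ((pow_dvd_pow _ (h1 n hn)).trans (XY_dvd _ _)) _

/-- the final computation -/
lemma final_comp {l : ℂ} (hl : l ≠ 0) {j : ℕ} (hj : 1 ≤ j) {G : Polynomial ℂ}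
    (hdeg : G.natDegree ≤ 15 * j)
    (hdvd : sg ^ (15 * j + 4) ∣ sg ^ 5 * cs G - 3 * (j : O) * (dq * D ^ 2) *
      (algebraMap ℂ O l * sg ^ (15 * j)))
    (hrho : ∀ s : ℂ, rho.eval s = 0 → G.eval s = 5 * j * (l * s ^ (15 * j)))
    (hDel : ∀ s : ℂ, Del.eval s = 0 → G.eval s = 10 * j * (l * s ^ (15 * j))) : False := by
  obtain ⟨N, hN⟩ : ∃ N, 15 * j = N + 5 := ⟨15 * j - 5, by omega⟩
  rw [hN] at hdeg hdvd hrho hDel
  -- the coefficients of `G`
  have hco : ∀ i, i < N + 4 → G.coeff i =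
      3 * j * l * (if i < N then 0 else
        (if i = N then 2 else if i = N + 1 then 15 else if i = N + 2 then 35 else 25)) := by
    intro i hi
    have h1 := PowerSeries.X_pow_dvd_iff.1 hdvd (i + 5) (by omega)
    rw [map_sub, sub_eq_zero] at h1
    have e1 : PowerSeries.coeff (i + 5) (sg ^ 5 * cs G) = G.coeff i := by
      rw [PowerSeries.coeff_X_pow_mul, cs_coeff]
    rw [e1, dq_eq] at h1
    rw [h1]
    have e2 : (3 * (j : O) * (sg ^ 5 + 25 * sg ^ 3 + 35 * sg ^ 2 + 15 * sg + 2) *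
        (algebraMap ℂ O l * sg ^ (N + 5))) =
        cs (Polynomial.C (3 * j * l) * (Polynomial.X ^ 5 + Polynomial.C 25 * Polynomial.X ^ 3 +
          Polynomial.C 35 * Polynomial.X ^ 2 + Polynomial.C 15 * Polynomial.X + Polynomial.C 2) *
          Polynomial.X ^ (N + 5)) := by
      have e3 : cs (Polynomial.C l) = algebraMap ℂ O l := by
        rw [cs, Polynomial.aeval_C]
      simp only [map_mul, map_add, map_pow, cs_X, e3, map_ofNat, map_natCast]
      ring
    rw [e2, cs_coeff, Polynomial.coeff_mul_X_pow']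
    split_ifs with g1 g2 g3 g4 g5 g6
    all_goals try omega
    · rw [show i + 5 - (N + 5) = 0 by omega, Polynomial.coeff_C_mul]
      simp
    · rw [show i + 5 - (N + 5) = 1 by omega, Polynomial.coeff_C_mul]
      simp [Polynomial.coeff_X, Polynomial.coeff_C]
    · rw [show i + 5 - (N + 5) = 2 by omega, Polynomial.coeff_C_mul]
      simp [Polynomial.coeff_X, Polynomial.coeff_C]
    · rw [show i + 5 - (N + 5) = 3 by omega, Polynomial.coeff_C_mul]
      simp [Polynomial.coeff_X, Polynomial.coeff_C]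
    · simp
  have hlow : ∀ i < N, G.coeff i = 0 := by
    intro i hi
    rw [hco i (by omega), if_pos hi, mul_zero]
  obtain ⟨R, hR⟩ := Polynomial.X_pow_dvd_iff.2 hlow
  have hRc : ∀ i, R.coeff i = G.coeff (i + N) := by
    intro i
    rw [hR, Polynomial.coeff_X_pow_mul]
  have hRd : R.natDegree < 6 := by
    rw [Nat.lt_iff_add_one_le]
    apply Nat.succ_le_succ
    rw [Polynomial.natDegree_le_iff_coeff_eq_zero]
    intro i hi
    rw [hRc]
    exact Polynomial.coeff_eq_zero_of_natDegree_lt (by omega)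
  have r0 : R.coeff 0 = 6 * (j * l) := by
    rw [hRc, hco _ (by omega), if_neg (by omega), if_pos (by omega)]
    ring
  have r1 : R.coeff 1 = 45 * (j * l) := by
    rw [hRc, hco _ (by omega), if_neg (by omega), if_neg (by omega), if_pos (by omega)]
    ring
  have r2 : R.coeff 2 = 105 * (j * l) := by
    rw [hRc, hco _ (by omega), if_neg (by omega), if_neg (by omega), if_neg (by omega),
      if_pos (by omega)]
    ring
  have r3 : R.coeff 3 = 75 * (j * l) := by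
    rw [hRc, hco _ (by omega), if_neg (by omega), if_neg (by omega), if_neg (by omega),
      if_neg (by omega)]
    ring
  have hev : ∀ s : ℂ, s ≠ 0 → ∀ c : ℂ, G.eval s = c * (l * s ^ (N + 5)) →
      6 * (j * l) + 45 * (j * l) * s + 105 * (j * l) * s ^ 2 + 75 * (j * l) * s ^ 3 +
        R.coeff 4 * s ^ 4 + R.coeff 5 * s ^ 5 = c * l * s ^ 5 := by
    intro s hs c hc
    rw [hR, Polynomial.eval_mul, Polynomial.eval_pow, Polynomial.eval_X,
      Polynomial.eval_eq_sum_range' hRd, pow_add] at hc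
    simp only [Finset.sum_range_succ, Finset.sum_range_zero, r0, r1, r2, r3] at hc
    apply mul_left_cancel₀ (pow_ne_zero N hs)
    linear_combination hc
  have E1 := hev (-2 / 5) (by norm_num) (5 * j) (hrho _ (by rw [rho_eval]; norm_num))
  obtain ⟨w, hw⟩ : ∃ w : ℂ, w ^ 2 = 5 := IsAlgClosed.exists_pow_nat_eq 5 (by norm_num)
  have hw0 : w ≠ 0 := by
    rintro rfl
    norm_num at hw
  have E2 : ∀ s : ℂ, s ^ 2 + 3 * s + 1 = 0 →
      (-84 * (j * l) - 8 * R.coeff 4 + 21 * R.coeff 5) +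
        (-220 * (j * l) - 21 * R.coeff 4 + 55 * R.coeff 5) * s = 0 := by
    intro s hs
    have hs0 : s ≠ 0 := by
      rintro rfl
      norm_num at hs
    have h1 := hev s hs0 (10 * j) (hDel _ (by rw [Del_eval]; exact hs))
    set u := (j : ℂ) * l with hu
    set a := R.coeff 4
    set b := R.coeff 5
    have h2 : 6 * u + 45 * u * s + 105 * u * s ^ 2 + 75 * u * s ^ 3 + a * s ^ 4 +
        (b - 10 * u) * s ^ 5 = 0 := by
      linear_combination h1
    linear_combination h2 - ((b - 10 * u) * s ^ 3 + (a - 3 * (b - 10 * u)) * s ^ 2 +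
      (75 * u - 3 * (a - 3 * (b - 10 * u)) - (b - 10 * u)) * s +
      (105 * u - 3 * (75 * u - 3 * (a - 3 * (b - 10 * u)) - (b - 10 * u)) -
        (a - 3 * (b - 10 * u)))) * hs
  have F1 := E2 ((-3 + w) / 2) (by linear_combination (1 / 4 : ℂ) * hw)
  have F2 := E2 ((-3 - w) / 2) (by linear_combination (1 / 4 : ℂ) * hw)
  have F3 : (-220 * (j * l) - 21 * R.coeff 4 + 55 * R.coeff 5) = 0 := by
    apply mul_left_cancel₀ hw0
    linear_combination F1 - F2
  rw [F3] at F1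
  have hju : (j : ℂ) * l ≠ 0 := mul_ne_zero (Nat.cast_ne_zero.2 (by omega)) hl
  apply hju
  linear_combination (-1 / 2 : ℂ) * (-(3125 / 16 : ℂ) * E1 + 233 * F1 - 89 * F3)

end

end Pool.Agent.W512.Ram
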