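import Mathlib
import Pool.Agent.W512.RL

set_option autoImplicit false

namespace Pool.Agent.W512.Ram

open MvPolynomial
open Pool.Agent.W512.Ramanujam (cubic conic coordinateRing)

noncomputable section

variable {K : Type} [Field K] [Algebra ℂ K]

lemma const_of_algebraic {b : K} (hb : IsAlgebraic ℂ b) : ∃ z, b = algebraMap ℂ K z := by
  have h1 : (minpoly ℂ b).degree = 1 :=
    IsAlgClosed.degree_eq_one_of_irreducible ℂ (minpoly.irreducible hb.isIntegral)
  obtain ⟨z, hz⟩ := minpoly.mem_range_of_degree_eq_one ℂ b h1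
  exact ⟨z, hz.symm⟩

lemma place_zero {b : K} (hnc : ¬ ∃ z, b = algebraMap ℂ K z) :
    ∃ V : ValuationSubring K, Cst V ∧ At V b 0 := by
  obtain ⟨V, hV, h⟩ := exists_place (ι := Unit) (fun _ => b) (fun _ => 0) (by
    intro G hG
    have h1 : Transcendental ℂ b := fun h => hnc (const_of_algebraic h)
    have h2 : AlgebraicIndependent ℂ (fun _ : Unit => b) :=
      algebraicIndependent_unique_type_iff.2 h1
    have h3 : G = 0 := h2 (by rw [hG, map_zero])
    rw [h3, map_zero])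
  exact ⟨V, hV, h ()⟩

lemma inv_not_mem {b b' : K} (hb : b * b' = 1) {V : ValuationSubring K}
    (h : At V b 0) : b' ∉ V := by
  intro h'
  have h1 := h.val_lt_one
  have h2 := (V.valuation_le_one_iff _).2 h'
  have h3 : V.valuation (b * b') < 1 := by
    rw [map_mul]
    exact mul_lt_one_of_lt_of_le h1 h2
  rw [hb, map_one] at h3
  exact lt_irrefl _ h3

lemma two_places {b b' : K} (hb : b * b' = 1) (hnc : ¬ ∃ z, b = algebraMap ℂ K z) :
    ∃ V V' : ValuationSubring K, Cst V ∧ Cst V' ∧ b ∉ V ∧ b' ∉ V' ∧ V ≠ V' := by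
  obtain ⟨V, hV, h⟩ := place_zero hnc
  have hnc' : ¬ ∃ z, b' = algebraMap ℂ K z := by
    rintro ⟨z, hz⟩
    apply hnc
    refine ⟨z⁻¹, ?_⟩
    rw [map_inv₀, ← hz]
    exact eq_inv_of_mul_eq_one_left hb
  obtain ⟨V', hV', h'⟩ := place_zero hnc'
  have h1 := inv_not_mem hb h
  have h2 := inv_not_mem (by rwa [mul_comm]) h'
  refine ⟨V', V, hV', hV, h2, h1, ?_⟩
  rintro rfl
  exact h1 ((V'.valuation_le_one_iff _).1 h'.val_lt_one.le)

lemma ker_principal (θ : P →ₐ[ℂ] K) (h0 : RingHom.ker θ ≠ ⊥)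
    (hnc : ¬ ∀ i, ∃ z, θ (X i) = algebraMap ℂ K z) :
    ∃ h, Irreducible h ∧ ∀ F, θ F = 0 → h ∣ F := by
  have hp : (RingHom.ker θ).IsPrime := RingHom.ker_isPrime θ
  obtain ⟨h, hh, hprime⟩ := Ideal.IsPrime.exists_mem_prime_of_ne_bot hp h0
  refine ⟨h, hprime.irreducible, ?_⟩
  by_contra hF
  push Not at hF
  obtain ⟨F, hF0, hF1⟩ := hF
  obtain ⟨M, hM, hle⟩ := Ideal.exists_le_maximal (RingHom.ker θ) hp.ne_top
  have hne : RingHom.ker θ ≠ M := by
    intro e
    apply hnc
    obtain ⟨x, hx⟩ := MvPolynomial.isMaximal_iff_eq_vanishingIdeal_singleton.1 hM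
    intro i
    refine ⟨x i, ?_⟩
    have h1 : X i - C (x i) ∈ M := by
      rw [hx, MvPolynomial.mem_vanishingIdeal_singleton_iff]
      simp
    rw [← e, RingHom.mem_ker, map_sub, sub_eq_zero] at h1
    rw [h1]
    exact θ.commutes _
  let p0 : PrimeSpectrum P := ⟨⊥, Ideal.isPrime_bot⟩
  let p1 : PrimeSpectrum P := ⟨Ideal.span {h}, (Ideal.span_singleton_prime hprime.ne_zero).2 hprime⟩
  let p2 : PrimeSpectrum P := ⟨RingHom.ker θ, hp⟩
  let p3 : PrimeSpectrum P := ⟨M, hM.isPrime⟩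
  have h01 : p0 < p1 := by
    rw [← PrimeSpectrum.asIdeal_lt_asIdeal]
    rw [bot_lt_iff_ne_bot]
    intro e
    rw [Ideal.span_singleton_eq_bot] at e
    exact hprime.ne_zero e
  have h12 : p1 < p2 := by
    rw [← PrimeSpectrum.asIdeal_lt_asIdeal]
    refine lt_of_le_of_ne ((Ideal.span_singleton_le_iff_mem _).2 hh) ?_
    intro e
    apply hF1
    rw [← Ideal.mem_span_singleton]
    have : F ∈ p2.asIdeal := hF0
    rw [← e] at this
    exact this
  have h23 : p2 < p3 := by
    rw [← PrimeSpectrum.asIdeal_lt_asIdeal]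
    exact lt_of_le_of_ne hle hne
  let s : LTSeries (PrimeSpectrum P) :=
    { length := 3
      toFun := ![p0, p1, p2, p3]
      step := by
        intro i
        fin_cases i
        · exact h01
        · exact h12
        · exact h23 }
  have h1 := Order.LTSeries.length_le_krullDim s
  have h2 : ringKrullDim P = ringKrullDim ℂ + 2 := by
    have := MvPolynomial.ringKrullDim_of_isNoetherianRing (R := ℂ) (ι := Fin 2)
    rw [Nat.card_eq_fintype_card, Fintype.card_fin] at this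
    exact_mod_cast this
  rw [ringKrullDim_eq_zero_of_field, zero_add] at h2
  rw [ringKrullDim] at h2
  rw [h2] at h1
  have h3 : ((3 : ℕ) : WithBot ℕ∞) ≤ ((2 : ℕ) : WithBot ℕ∞) := h1
  have h4 : (3 : ℕ) ≤ 2 := by exact_mod_cast h3
  omega

end

end Pool.Agent.W512.Ram
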