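import Mathlib
import Pool.Agent.W512.RM

set_option autoImplicit false

namespace Pool.Agent.W512.Ram

open MvPolynomial
open Pool.Agent.W512.Ramanujam (cubic conic coordinateRing)

noncomputable section

variable {K : Type} [Field K] [Algebra ℂ K]

abbrev FF := FractionRing (MvPolynomial (Fin 2) ℂ)

abbrev toF : P →+* FF := algebraMap P FF

/-- the generators of the coordinate ring -/
def gen (i j : ℕ) : coordinateRing :=
  if h : 2 ≤ i + j ∧ i + j ≤ 5 then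
    ⟨algebraMap _ _ (X 0 ^ i * X 1 ^ j : MvPolynomial (Fin 2) ℂ) / algebraMap _ _ (cubic * conic),
      Algebra.subset_adjoin ⟨i, j, h.1, h.2, rfl⟩⟩
  else 0

lemma gen_val {i j : ℕ} (h : 2 ≤ i + j ∧ i + j ≤ 5) :
    (gen i j : FF) = toF (X 0 ^ i * X 1 ^ j) / toF (cubic * conic) := by
  rw [gen, dif_pos h]

lemma toF_inj {F G : P} (h : toF F = toF G) : F = G := IsFractionRing.injective P FF h

lemma cubic_ne : (cubic : P) ≠ 0 := by
  intro h
  have := congrArg (eval ![0, 1]) h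
  rw [eval_cubic, map_zero] at this
  norm_num at this

lemma conic_ne : (conic : P) ≠ 0 := by
  intro h
  have := congrArg (eval ![0, 1]) h
  rw [eval_conic, map_zero] at this
  norm_num at this

lemma cq_ne : toF (cubic * conic) ≠ 0 := by
  intro h
  have h1 : (cubic * conic : P) = 0 := toF_inj (by rw [h, map_zero])
  exact mul_ne_zero cubic_ne conic_ne h1

lemma gen_mul {a b c d a' b' c' d' : ℕ} (h1 : 2 ≤ a + b ∧ a + b ≤ 5) (h2 : 2 ≤ c + d ∧ c + d ≤ 5)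
    (h3 : 2 ≤ a' + b' ∧ a' + b' ≤ 5) (h4 : 2 ≤ c' + d' ∧ c' + d' ≤ 5) (e1 : a + c = a' + c')
    (e2 : b + d = b' + d') : gen a b * gen c d = gen a' b' * gen c' d' := by
  apply Subtype.ext
  rw [MulMemClass.coe_mul, MulMemClass.coe_mul, gen_val h1, gen_val h2, gen_val h3, gen_val h4,
    div_mul_div_comm, div_mul_div_comm, ← map_mul toF (X 0 ^ a * X 1 ^ b),
    ← map_mul toF (X 0 ^ a' * X 1 ^ b')]
  congr 2
  have e3 : (X 0 : P) ^ a * X 1 ^ b * (X 0 ^ c * X 1 ^ d) = X 0 ^ (a + c) * X 1 ^ (b + d) := by ring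
  have e4 : (X 0 : P) ^ a' * X 1 ^ b' * (X 0 ^ c' * X 1 ^ d') = X 0 ^ (a' + c') * X 1 ^ (b' + d') := by
    ring
  rw [e3, e4, e1, e2]

lemma gen_sum : -(5 * gen 0 2) - 32 * gen 1 1 + gen 0 3 + 15 * gen 1 2 + 30 * gen 2 1 -
    160 * gen 3 0 + 5 * gen 2 2 + 80 * gen 3 1 + 307 * gen 4 0 - gen 3 2 - 15 * gen 4 1 -
    55 * gen 5 0 = 1 := by
  have hinj : Function.Injective coordinateRing.val := Subtype.val_injective
  apply hinj
  simp only [map_add, map_sub, map_mul, map_neg, map_ofNat, map_one]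
  have key2 : (cubic * conic : P) = -(5 * (X 0 ^ 0 * X 1 ^ 2)) - 32 * (X 0 ^ 1 * X 1 ^ 1) +
      X 0 ^ 0 * X 1 ^ 3 + 15 * (X 0 ^ 1 * X 1 ^ 2) + 30 * (X 0 ^ 2 * X 1 ^ 1) -
      160 * (X 0 ^ 3 * X 1 ^ 0) + 5 * (X 0 ^ 2 * X 1 ^ 2) + 80 * (X 0 ^ 3 * X 1 ^ 1) +
      307 * (X 0 ^ 4 * X 1 ^ 0) - X 0 ^ 3 * X 1 ^ 2 - 15 * (X 0 ^ 4 * X 1 ^ 1) -
      55 * (X 0 ^ 5 * X 1 ^ 0) := by
    rw [cubic, conic]
    ring
  have key3 : toF (cubic * conic) = -(5 * toF (X 0 ^ 0 * X 1 ^ 2)) - 32 * toF (X 0 ^ 1 * X 1 ^ 1) +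
      toF (X 0 ^ 0 * X 1 ^ 3) + 15 * toF (X 0 ^ 1 * X 1 ^ 2) + 30 * toF (X 0 ^ 2 * X 1 ^ 1) -
      160 * toF (X 0 ^ 3 * X 1 ^ 0) + 5 * toF (X 0 ^ 2 * X 1 ^ 2) + 80 * toF (X 0 ^ 3 * X 1 ^ 1) +
      307 * toF (X 0 ^ 4 * X 1 ^ 0) - toF (X 0 ^ 3 * X 1 ^ 2) - 15 * toF (X 0 ^ 4 * X 1 ^ 1) -
      55 * toF (X 0 ^ 5 * X 1 ^ 0) := by
    rw [key2]
    simp only [map_add, map_sub, map_mul, map_neg, map_ofNat, map_pow]
  have h0 := cq_ne
  have hv : ∀ i j, coordinateRing.val (gen i j) = (gen i j : FF) := fun i j => rfl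
  simp only [hv]
  rw [gen_val (by norm_num), gen_val (by norm_num), gen_val (by norm_num), gen_val (by norm_num),
    gen_val (by norm_num), gen_val (by norm_num), gen_val (by norm_num), gen_val (by norm_num),
    gen_val (by norm_num), gen_val (by norm_num), gen_val (by norm_num), gen_val (by norm_num)]
  field_simp
  rw [key3]

end

end Pool.Agent.W512.Ram
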