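import Mathlib
import Pool.Agent.W512.RO

set_option autoImplicit false

namespace Pool.Agent.W512.Ram

open MvPolynomial
open Pool.Agent.W512.Ramanujam (cubic conic coordinateRing)

noncomputable section

variable {K : Type} [Field K] [Algebra ℂ K]

section hom

variable (ψ : coordinateRing →ₐ[ℂ] K)

/-- there is at most one place at infinity -/
def Uniq : Prop := ∀ V V' : ValuationSubring K, Cst V → Cst V' →
  (∃ a, ψ a ∉ V) → (∃ a, ψ a ∉ V') → V = V'

variable {ψ}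

lemma kill (hu : Uniq ψ) {b b' : coordinateRing} (hb : ψ b * ψ b' = 1) : ψ b ∈ Fc K := by
  by_contra h
  rw [mem_Fc] at h
  obtain ⟨V, V', h1, h2, h3, h4, h5⟩ := two_places hb h
  exact h5 (hu V V' h1 h2 ⟨b, h3⟩ ⟨b', h4⟩)

lemma hR (ψ : coordinateRing →ₐ[ℂ] K) (a b c d a' b' c' d' : ℕ) (h1 : 2 ≤ a + b ∧ a + b ≤ 5)
    (h2 : 2 ≤ c + d ∧ c + d ≤ 5)
    (h3 : 2 ≤ a' + b' ∧ a' + b' ≤ 5) (h4 : 2 ≤ c' + d' ∧ c' + d' ≤ 5) (e1 : a + c = a' + c')
    (e2 : b + d = b' + d') :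
    ψ (gen a b) * ψ (gen c d) = ψ (gen a' b') * ψ (gen c' d') := by
  rw [← map_mul, gen_mul h1 h2 h3 h4 e1 e2, map_mul]

lemma hS (ψ : coordinateRing →ₐ[ℂ] K) :
    -(5 * ψ (gen 0 2)) - 32 * ψ (gen 1 1) + ψ (gen 0 3) + 15 * ψ (gen 1 2) + 30 * ψ (gen 2 1) -
    160 * ψ (gen 3 0) + 5 * ψ (gen 2 2) + 80 * ψ (gen 3 1) + 307 * ψ (gen 4 0) - ψ (gen 3 2) -
    15 * ψ (gen 4 1) - 55 * ψ (gen 5 0) = 1 := by
  have := congrArg ψ gen_sum
  simpa only [map_add, map_sub, map_mul, map_neg, map_ofNat, map_one] using this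

lemma case_a (hu : Uniq ψ) (hz : ∀ i j, 2 ≤ i + j → i + j ≤ 4 → ψ (gen i j) = 0)
    (i j : ℕ) (h1 : 2 ≤ i + j) (h2 : i + j ≤ 5) : ψ (gen i j) ∈ Fc K := by
  have hs := hS ψ
  rw [hz 0 2 (by norm_num) (by norm_num), hz 1 1 (by norm_num) (by norm_num),
    hz 0 3 (by norm_num) (by norm_num), hz 1 2 (by norm_num) (by norm_num),
    hz 2 1 (by norm_num) (by norm_num), hz 3 0 (by norm_num) (by norm_num),
    hz 2 2 (by norm_num) (by norm_num), hz 3 1 (by norm_num) (by norm_num),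
    hz 4 0 (by norm_num) (by norm_num)] at hs
  have r1 := hR ψ 5 0 1 4 3 2 3 2 (by norm_num) (by norm_num) (by norm_num) (by norm_num)
    (by norm_num) (by norm_num)
  have r2 := hR ψ 5 0 2 3 4 1 3 2 (by norm_num) (by norm_num) (by norm_num) (by norm_num)
    (by norm_num) (by norm_num)
  have r3 := hR ψ 5 0 3 2 4 1 4 1 (by norm_num) (by norm_num) (by norm_num) (by norm_num)
    (by norm_num) (by norm_num)
  have r4 := hR ψ 5 0 0 5 4 1 1 4 (by norm_num) (by norm_num) (by norm_num) (by norm_num)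
    (by norm_num) (by norm_num)
  have hb : ψ (gen 5 0) * ψ (gen 1 4 + 30 * gen 2 3 + 335 * gen 3 2 + 1650 * gen 4 1 +
      3025 * gen 5 0) = 1 := by
    simp only [map_add, map_mul, map_ofNat]
    linear_combination r1 + 30 * r2 + 225 * r3 +
      (-ψ (gen 3 2) - 15 * ψ (gen 4 1) - 55 * ψ (gen 5 0) + 1) * hs
  have h50 := kill hu hb
  have h0 : ψ (gen 5 0) ≠ 0 := by
    intro h
    rw [h, zero_mul] at hb
    exact zero_ne_one hb
  have h41 : ψ (gen 4 1) ∈ Fc K := by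
    apply quad_const (p := 15 * ψ (gen 5 0)) (q := ψ (gen 5 0) * (1 + 55 * ψ (gen 5 0)))
    · exact mul_mem (ofNat_mem _ 15) h50
    · exact mul_mem h50 (add_mem (one_mem _) (mul_mem (ofNat_mem _ 55) h50))
    · linear_combination -r3 - ψ (gen 5 0) * hs
  have h32 : ψ (gen 3 2) ∈ Fc K := by
    have : ψ (gen 3 2) = -1 - 15 * ψ (gen 4 1) - 55 * ψ (gen 5 0) := by linear_combination -hs
    rw [this]
    exact sub_mem (sub_mem (neg_mem (one_mem _)) (mul_mem (ofNat_mem _ 15) h41))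
      (mul_mem (ofNat_mem _ 55) h50)
  have h23 : ψ (gen 2 3) ∈ Fc K := by
    have : ψ (gen 2 3) = ψ (gen 4 1) * ψ (gen 3 2) / ψ (gen 5 0) := by
      rw [eq_div_iff h0, mul_comm]
      exact r2
    rw [this]
    exact div_mem (mul_mem h41 h32) h50
  have h14 : ψ (gen 1 4) ∈ Fc K := by
    have : ψ (gen 1 4) = ψ (gen 3 2) * ψ (gen 3 2) / ψ (gen 5 0) := by
      rw [eq_div_iff h0, mul_comm]
      exact r1
    rw [this]
    exact div_mem (mul_mem h32 h32) h50
  have h05 : ψ (gen 0 5) ∈ Fc K := by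
    have : ψ (gen 0 5) = ψ (gen 4 1) * ψ (gen 1 4) / ψ (gen 5 0) := by
      rw [eq_div_iff h0, mul_comm]
      exact r4
    rw [this]
    exact div_mem (mul_mem h41 h14) h50
  by_cases h : i + j ≤ 4
  · rw [hz i j h1 h]
    exact zero_mem _
  · obtain rfl : j = 5 - i := by omega
    have hi : i ≤ 5 := by omega
    interval_cases i
    · exact h05
    · exact h14
    · exact h23
    · exact h32
    · exact h41
    · exact h50

lemma case_b (hu : Uniq ψ) (hz : ∀ i j, 3 ≤ i + j → i + j ≤ 5 → ψ (gen i j) = 0)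
    (i j : ℕ) (h1 : 2 ≤ i + j) (h2 : i + j ≤ 5) : ψ (gen i j) ∈ Fc K := by
  have hs := hS ψ
  rw [hz 0 3 (by norm_num) (by norm_num), hz 1 2 (by norm_num) (by norm_num),
    hz 2 1 (by norm_num) (by norm_num), hz 3 0 (by norm_num) (by norm_num),
    hz 2 2 (by norm_num) (by norm_num), hz 3 1 (by norm_num) (by norm_num),
    hz 4 0 (by norm_num) (by norm_num), hz 3 2 (by norm_num) (by norm_num),
    hz 4 1 (by norm_num) (by norm_num), hz 5 0 (by norm_num) (by norm_num)] at hs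
  have r1 := hR ψ 2 0 0 2 1 1 1 1 (by norm_num) (by norm_num) (by norm_num) (by norm_num)
    (by norm_num) (by norm_num)
  have hb : ψ (gen 0 2) * ψ (1024 * gen 2 0 + 320 * gen 1 1 + 25 * gen 0 2) = 1 := by
    simp only [map_add, map_mul, map_ofNat]
    linear_combination 1024 * r1 + (-(5 * ψ (gen 0 2)) - 32 * ψ (gen 1 1) + 1) * hs
  have h02 := kill hu hb
  have h0 : ψ (gen 0 2) ≠ 0 := by
    intro h
    rw [h, zero_mul] at hb
    exact zero_ne_one hb
  have h32 : (32 : K) ≠ 0 := by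
    have : (32 : K) = algebraMap ℂ K 32 := by rw [map_ofNat]
    rw [this]
    exact (map_ne_zero _).2 (by norm_num)
  have h11 : ψ (gen 1 1) ∈ Fc K := by
    have : ψ (gen 1 1) = (-1 - 5 * ψ (gen 0 2)) / 32 := by
      rw [eq_div_iff h32]
      linear_combination -hs
    rw [this]
    exact div_mem (sub_mem (neg_mem (one_mem _)) (mul_mem (ofNat_mem _ 5) h02)) (ofNat_mem _ 32)
  have h20 : ψ (gen 2 0) ∈ Fc K := by
    have : ψ (gen 2 0) = ψ (gen 1 1) * ψ (gen 1 1) / ψ (gen 0 2) := by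
      rw [eq_div_iff h0]
      exact r1
    rw [this]
    exact div_mem (mul_mem h11 h11) h02
  by_cases h : 3 ≤ i + j
  · rw [hz i j h h2]
    exact zero_mem _
  · obtain rfl : j = 2 - i := by omega
    have hi : i ≤ 2 := by omega
    interval_cases i
    · exact h02
    · exact h11
    · exact h20

lemma case_c (ha : ∃ i j, 2 ≤ i + j ∧ i + j ≤ 4 ∧ ψ (gen i j) ≠ 0)
    (hb : ∃ i j, 3 ≤ i + j ∧ i + j ≤ 5 ∧ ψ (gen i j) ≠ 0) :
    ∃ x y κ : K, ∀ i j, 2 ≤ i + j → i + j ≤ 5 → ψ (gen i j) = κ * (x ^ i * y ^ j) := by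
  obtain ⟨i₀, j₀, h1, h2, h3⟩ := ha
  obtain ⟨i₁, j₁, h4, h5, h6⟩ := hb
  obtain ⟨x, hx⟩ : ∃ x, x = ψ (gen (i₀ + 1) j₀) / ψ (gen i₀ j₀) := ⟨_, rfl⟩
  obtain ⟨y, hy⟩ : ∃ y, y = ψ (gen i₀ (j₀ + 1)) / ψ (gen i₀ j₀) := ⟨_, rfl⟩
  have hX : ∀ a b, 2 ≤ a + b → a + b ≤ 4 → ψ (gen (a + 1) b) = x * ψ (gen a b) := by
    intro a b ha hb
    have := hR ψ (a + 1) b i₀ j₀ a b (i₀ + 1) j₀ (by omega) (by omega) (by omega) (by omega)
      (by omega) (by omega)
    rw [hx]
    field_simp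
    linear_combination this
  have hY : ∀ a b, 2 ≤ a + b → a + b ≤ 4 → ψ (gen a (b + 1)) = y * ψ (gen a b) := by
    intro a b ha hb
    have := hR ψ a (b + 1) i₀ j₀ a b i₀ (j₀ + 1) (by omega) (by omega) (by omega) (by omega)
      (by omega) (by omega)
    rw [hy]
    field_simp
    linear_combination this
  have e1 : y * ψ (gen 2 0) = x * ψ (gen 1 1) := by
    rw [← hX 1 1 (by norm_num) (by norm_num), ← hY 2 0 (by norm_num) (by norm_num)]
  have e2 : y * ψ (gen 1 1) = x * ψ (gen 0 2) := by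
    rw [← hX 0 2 (by norm_num) (by norm_num), ← hY 1 1 (by norm_num) (by norm_num)]
  have hxy : x ≠ 0 ∨ y ≠ 0 := by
    by_contra hxy
    push Not at hxy
    obtain ⟨hx0, hy0⟩ := hxy
    apply h6
    rcases Nat.eq_zero_or_pos i₁ with hi | hi
    · subst hi
      obtain ⟨j, rfl⟩ : ∃ j, j₁ = j + 1 := ⟨j₁ - 1, by omega⟩
      rw [hY 0 j (by omega) (by omega), hy0, zero_mul]
    · obtain ⟨i, rfl⟩ : ∃ i, i₁ = i + 1 := ⟨i₁ - 1, by omega⟩
      rw [hX i j₁ (by omega) (by omega), hx0, zero_mul]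
  obtain ⟨κ, k1, k2, k3⟩ : ∃ κ, ψ (gen 2 0) = κ * (x ^ 2 * y ^ 0) ∧
      ψ (gen 1 1) = κ * (x ^ 1 * y ^ 1) ∧ ψ (gen 0 2) = κ * (x ^ 0 * y ^ 2) := by
    rcases hxy with h | h
    · have f1 : ψ (gen 1 1) = y * ψ (gen 2 0) / x := by
        rw [eq_div_iff h]
        linear_combination -e1
      have f2 : ψ (gen 0 2) = y * ψ (gen 1 1) / x := by
        rw [eq_div_iff h]
        linear_combination -e2
      refine ⟨ψ (gen 2 0) / x ^ 2, ?_, ?_, ?_⟩
      · field_simp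
      · rw [f1]
        field_simp
      · rw [f2, f1]
        field_simp
    · have f1 : ψ (gen 1 1) = x * ψ (gen 0 2) / y := by
        rw [eq_div_iff h]
        linear_combination e2
      have f2 : ψ (gen 2 0) = x * ψ (gen 1 1) / y := by
        rw [eq_div_iff h]
        linear_combination e1
      refine ⟨ψ (gen 0 2) / y ^ 2, ?_, ?_, ?_⟩
      · rw [f2, f1]
        field_simp
      · rw [f1]
        field_simp
      · field_simp
  refine ⟨x, y, κ, ?_⟩
  have key : ∀ n i j, i + j = n + 2 → n + 2 ≤ 5 → ψ (gen i j) = κ * (x ^ i * y ^ j) := by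
    intro n
    induction n with
    | zero =>
      intro i j hij _
      obtain rfl : j = 2 - i := by omega
      have hi : i ≤ 2 := by omega
      interval_cases i
      · exact k3
      · exact k2
      · exact k1
    | succ n ih =>
      intro i j hij hn
      rcases Nat.eq_zero_or_pos i with hi | hi
      · subst hi
        obtain ⟨j, rfl⟩ : ∃ j', j = j' + 1 := ⟨j - 1, by omega⟩
        rw [hY 0 j (by omega) (by omega), ih 0 j (by omega) (by omega)]
        ring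
      · obtain ⟨i, rfl⟩ : ∃ i', i = i' + 1 := ⟨i - 1, by omega⟩
        rw [hX i j (by omega) (by omega), ih i j (by omega) (by omega)]
        ring
  intro i j hi hj
  obtain ⟨n, hn⟩ : ∃ n, i + j = n + 2 := ⟨i + j - 2, by omega⟩
  exact key n i j hn (by omega)

/-- there is no curve with one place at infinity -/
theorem no_hom (hu : Uniq ψ) (h0 : ∃ a, a ≠ 0 ∧ ψ a = 0) (hnc : ¬ ∀ a, ψ a ∈ Fc K) : False := by
  by_cases ha : ∀ i j, 2 ≤ i + j → i + j ≤ 4 → ψ (gen i j) = 0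
  · exact hnc (all_const ψ (case_a hu ha))
  by_cases hb : ∀ i j, 3 ≤ i + j → i + j ≤ 5 → ψ (gen i j) = 0
  · exact hnc (all_const ψ (case_b hu hb))
  push Not at ha hb
  obtain ⟨x, y, κ, hxy⟩ := case_c ha hb
  obtain ⟨θ, hθ⟩ : ∃ θ : P →ₐ[ℂ] K, θ = aeval ![x, y] := ⟨_, rfl⟩
  have hx : θ (X 0) = x := by
    rw [hθ, aeval_X]
    rfl
  have hy : θ (X 1) = y := by
    rw [hθ, aeval_X]
    rfl
  have hκ : κ * θ (cubic * conic) = 1 := by
    have hs := hS ψ
    rw [hxy 0 2 (by norm_num) (by norm_num), hxy 1 1 (by norm_num) (by norm_num),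
      hxy 0 3 (by norm_num) (by norm_num), hxy 1 2 (by norm_num) (by norm_num),
      hxy 2 1 (by norm_num) (by norm_num), hxy 3 0 (by norm_num) (by norm_num),
      hxy 2 2 (by norm_num) (by norm_num), hxy 3 1 (by norm_num) (by norm_num),
      hxy 4 0 (by norm_num) (by norm_num), hxy 3 2 (by norm_num) (by norm_num),
      hxy 4 1 (by norm_num) (by norm_num), hxy 5 0 (by norm_num) (by norm_num)] at hs
    rw [map_mul, theta_cubic, theta_conic, hx, hy]
    linear_combination hs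
  have hcq : θ (cubic * conic) ≠ 0 := by
    intro h
    rw [h, mul_zero] at hκ
    exact zero_ne_one hκ
  have hμ : ∀ i j, 2 ≤ i + j → i + j ≤ 5 →
      ψ (gen i j) * θ (cubic * conic) = θ (X 0 ^ i * X 1 ^ j) := by
    intro i j h1 h2
    rw [hxy i j h1 h2, map_mul θ (X 0 ^ i), map_pow, map_pow, hx, hy]
    linear_combination (x ^ i * y ^ j) * hκ
  have hker : RingHom.ker θ ≠ ⊥ := by
    intro hk
    obtain ⟨a, ha0, ha1⟩ := h0
    obtain ⟨n, F, h1, h2⟩ := adjoin_form ψ θ hμ a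
    rw [ha1, zero_mul] at h2
    have h3 : F ∈ RingHom.ker θ := h2.symm
    rw [hk, Ideal.mem_bot] at h3
    rw [h3, map_zero] at h1
    rcases mul_eq_zero.1 h1 with h4 | h4
    · exact ha0 (Subtype.ext h4)
    · exact pow_ne_zero n cq_ne h4
  obtain ⟨h, hirr, hdiv⟩ := ker_principal θ hker (by
    intro hc
    apply hnc
    apply all_const
    intro i j h1 h2
    have h3 : ψ (gen i j) = θ (X 0) ^ i * θ (X 1) ^ j / (θ cubic * θ conic) := by
      rw [← map_mul, ← map_pow, ← map_pow, ← map_mul, ← hμ i j h1 h2, mul_div_cancel_right₀ _ hcq]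
    have h4 : θ (X 0) ∈ Fc K := mem_Fc.2 (hc 0)
    have h5 : θ (X 1) ∈ Fc K := mem_Fc.2 (hc 1)
    rw [h3, theta_cubic, theta_conic]
    refine div_mem (mul_mem (pow_mem h4 _) (pow_mem h5 _)) (mul_mem ?_ ?_)
    · exact add_mem (sub_mem h5 (pow_mem h4 _)) (mul_mem (ofNat_mem _ 5) (pow_mem h4 _))
    · exact sub_mem (sub_mem (add_mem (add_mem (pow_mem h5 _)
        (mul_mem (mul_mem (ofNat_mem _ 15) h4) h5)) (mul_mem (ofNat_mem _ 55) (pow_mem h4 _)))
        (mul_mem (ofNat_mem _ 5) h5)) (mul_mem (ofNat_mem _ 32) h4))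
  have hinf : ∀ V : ValuationSubring K, Inf θ V → ∃ a, ψ a ∉ V := by
    rintro V ⟨i, j, h1, h2, h3⟩
    refine ⟨gen i j, ?_⟩
    rwa [← hμ i j h1 h2, mul_div_cancel_right₀ _ hcq] at h3
  have H : Hyp θ h := by
    refine ⟨hirr, hdiv, ?_, ?_, ?_⟩
    · intro h
      exact hcq (by rw [map_mul, h, zero_mul])
    · intro h
      exact hcq (by rw [map_mul, h, mul_zero])
    · intro V V' h1 h2 h3 h4
      exact hu V V' h1 h2 (hinf V h3) (hinf V' h4)
  exact no_hyp H

end hom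

end

end Pool.Agent.W512.Ram
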