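import Mathlib
import Pool.Agent.W512.RP

set_option autoImplicit false

namespace Pool.Agent.W512.Ram

open Pool.Agent.W512.Ramanujam (coordinateRing pointsAtInfinity OncePunctured)

lemma quotient_aux (A : Type) [CommRing A] [Algebra ℂ A] (𝔭 : Ideal A) [𝔭.IsPrime] (h₀ : 𝔭 ≠ ⊥)
    (h₁ : ¬ 𝔭.IsMaximal) (hp : OncePunctured (A ⧸ 𝔭)) :
    ∃ ψ : A →ₐ[ℂ] FractionRing (A ⧸ 𝔭),
      (∀ V V' : ValuationSubring (FractionRing (A ⧸ 𝔭)), Cst V → Cst V' →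
        (∃ a, ψ a ∉ V) → (∃ a, ψ a ∉ V') → V = V') ∧ (∃ a, a ≠ 0 ∧ ψ a = 0) ∧
        ¬ ∀ a, ψ a ∈ Fc (FractionRing (A ⧸ 𝔭)) := by
  obtain ⟨W, -, hW⟩ := hp
  let ψ : A →ₐ[ℂ] FractionRing (A ⧸ 𝔭) :=
    (IsScalarTower.toAlgHom ℂ (A ⧸ 𝔭) (FractionRing (A ⧸ 𝔭))).comp (Ideal.Quotient.mkₐ ℂ 𝔭)
  have hψ : ∀ a : A, ψ a = algebraMap (A ⧸ 𝔭) (FractionRing (A ⧸ 𝔭)) (Ideal.Quotient.mk 𝔭 a) :=
    fun a => rfl
  have hinj : Function.Injective (algebraMap (A ⧸ 𝔭) (FractionRing (A ⧸ 𝔭))) :=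
    IsFractionRing.injective _ _
  refine ⟨ψ, ?_, ?_, ?_⟩
  · intro V V' h1 h2 h3 h4
    have key : ∀ V : ValuationSubring (FractionRing (A ⧸ 𝔭)), Cst V → (∃ a, ψ a ∉ V) →
        V ∈ pointsAtInfinity (A ⧸ 𝔭) := by
      intro V hV ⟨a, ha⟩
      refine ⟨?_, Ideal.Quotient.mk 𝔭 a, ha⟩
      intro z
      rw [← IsScalarTower.algebraMap_apply ℂ (A ⧸ 𝔭) (FractionRing (A ⧸ 𝔭))]
      exact hV z
    rw [hW V (key V h1 h3), hW V' (key V' h2 h4)]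
  · obtain ⟨a, ha, ha0⟩ := Submodule.exists_mem_ne_zero_of_ne_bot h₀
    refine ⟨a, ha0, ?_⟩
    rw [hψ, Ideal.Quotient.eq_zero_iff_mem.2 ha, map_zero]
  · intro hc
    apply h₁
    apply Ideal.Quotient.maximal_of_isField
    have hex : ∀ b : A ⧸ 𝔭, ∃ z : ℂ, b = algebraMap ℂ (A ⧸ 𝔭) z := by
      intro b
      obtain ⟨a, rfl⟩ := Ideal.Quotient.mk_surjective b
      obtain ⟨z, hz⟩ := mem_Fc.1 (hc a)
      refine ⟨z, hinj ?_⟩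
      rw [← IsScalarTower.algebraMap_apply ℂ (A ⧸ 𝔭) (FractionRing (A ⧸ 𝔭)), ← hz]
      rfl
    refine ⟨⟨0, 1, zero_ne_one⟩, mul_comm, ?_⟩
    intro b hb
    obtain ⟨z, rfl⟩ := hex b
    refine ⟨algebraMap ℂ (A ⧸ 𝔭) z⁻¹, ?_⟩
    rw [← map_mul, mul_inv_cancel₀, map_one]
    rintro rfl
    exact hb (map_zero _)

/-- there is no once-punctured curve -/
theorem no_curve (𝔭 : Ideal coordinateRing) [𝔭.IsPrime] (h₀ : 𝔭 ≠ ⊥) (h₁ : ¬ 𝔭.IsMaximal) :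
    ¬ OncePunctured (coordinateRing ⧸ 𝔭) := by
  intro hp
  obtain ⟨ψ, h1, h2, h3⟩ := quotient_aux coordinateRing 𝔭 h₀ h₁ hp
  exact no_hom (ψ := ψ) h1 h2 h3

end Pool.Agent.W512.Ram
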